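import Pool.Agent.Lib.MP_7d41f7_al.L.Defs

/-! Primitive prime divisors. -/

set_option autoImplicit false

namespace Pool.Agent.Lib.MP_7d41f7_al

open Finset

variable {a m r : ℕ}

theorem Prim.dvd_iff (h : Prim a m r) (ha : 1 ≤ a) (hm : 0 < m) (j : ℕ) :
    r ∣ a ^ j - 1 ↔ m ∣ j := by
  have h1 : ∀ i, r ∣ a ^ i - 1 ↔ (a : ZMod r) ^ i = 1 := fun i => by
    rw [← Nat.modEq_iff_dvd' (Nat.one_le_pow _ _ ha), ← ZMod.natCast_eq_natCast_iff, Nat.cast_one,
      Nat.cast_pow, eq_comm]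
  rw [h1, ← orderOf_dvd_iff_pow_eq_one, (orderOf_eq_iff hm).2
    ⟨(h1 m).1 h.dvd, fun i hi h0 e => h.min i h0 hi ((h1 i).2 e)⟩]

theorem Prim.not_dvd (h : Prim a m r) (ha : 1 ≤ a) (hm : 0 < m) : ¬ r ∣ a := fun e => by
  have h1 := (Nat.dvd_sub (dvd_pow e hm.ne') h.dvd)
  rw [Nat.sub_sub_self (Nat.one_le_pow _ _ ha)] at h1
  exact h.pr.one_lt.ne' (Nat.dvd_one.1 h1)

theorem Prim.dvd_pred_aux (hr : r.Prime) (ha : ¬ r ∣ a) : r ∣ a ^ (r - 1) - 1 :=
  Nat.totient_prime hr ▸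
    (Nat.ModEq.pow_totient ((Nat.Prime.coprime_iff_not_dvd hr).2 ha).symm).symm.dvd'

theorem Prim.dvd_pred (h : Prim a m r) (ha : 1 ≤ a) (hm : 0 < m) : m ∣ r - 1 :=
  (h.dvd_iff ha hm _).1 (Prim.dvd_pred_aux h.pr (h.not_dvd ha hm))

theorem Prim.pow {g : ℕ} (h : Prim a (g * m) r) (ha : 1 ≤ a) (hg : 0 < g) (hm : 0 < m) :
    Prim (a ^ g) m r :=
  ⟨h.pr, pow_mul a g m ▸ h.dvd, fun i h0 hi e => (Nat.le_of_dvd h0 (Nat.dvd_of_mul_dvd_mul_left hg
    ((h.dvd_iff ha (Nat.mul_pos hg hm) _).1 (by rwa [pow_mul])))).not_gt hi⟩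

theorem exists_prim (hr : r.Prime) (ha : ¬ r ∣ a) : ∃ m, 0 < m ∧ Prim a m r := by
  have h : ∃ i, 0 < i ∧ r ∣ a ^ i - 1 :=
    ⟨r - 1, Nat.sub_pos_of_lt hr.one_lt, Prim.dvd_pred_aux hr ha⟩
  exact ⟨_, (Nat.find_spec h).1, hr, (Nat.find_spec h).2, fun i h0 hi e =>
    Nat.find_min h hi ⟨h0, e⟩⟩

section zsig

open Polynomial

theorem zsig_exp (hr : r.Prime) (e k : ℕ) (x : ℝ) :
    (cyclotomic (e * r ^ (k + 1)) ℝ).eval x = (cyclotomic (e * r) ℝ).eval (x ^ r ^ k) := by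
  induction k generalizing x with
  | zero => simp
  | succ k ih =>
    rw [pow_succ r (k + 1), ← mul_assoc, ← cyclotomic_expand_eq_cyclotomic hr
      ((dvd_pow_self r k.succ_ne_zero).mul_left e), expand_eval, ih, ← pow_mul, ← pow_succ']

theorem zsig_ineq {b : ℕ} (hb : 2 ≤ b) (hr : 2 ≤ r) (h2 : r = 2 → 4 ≤ b) (h3 : r = 3 → 3 ≤ b) :
    r * (b + 1) + 1 < b ^ r := by
  have key : ∀ n, (n + 4) * (b + 1) + 1 < b ^ (n + 4) := fun n => by
    induction n with
    | zero =>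
      have := Nat.mul_le_mul_right b (Nat.pow_le_pow_left hb 3)
      rw [show 0 + 4 = 3 + 1 from rfl, pow_succ]
      omega
    | succ n ih =>
      rw [add_right_comm, pow_succ]
      nlinarith [Nat.mul_le_mul_left (b ^ (n + 4)) hb, Nat.zero_le (n * b)]
  obtain rfl | rfl | ⟨n, rfl⟩ : r = 2 ∨ r = 3 ∨ ∃ n, r = n + 4 := by
    rcases r with _ | _ | _ | _ | n <;> simp at hr ⊢
  · nlinarith [h2 rfl]
  · nlinarith [h3 rfl, Nat.mul_le_mul (h3 rfl) (h3 rfl)]
  · exact key n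

theorem zsig_big (hr : r.Prime) {e : ℕ} (he : 0 < e) (hre : ¬ r ∣ e) {b : ℝ} (hb : 1 < b)
    (h : r * (b + 1) + 1 < b ^ r) : r < (cyclotomic (e * r) ℝ).eval b := by
  have E := congrArg (eval b) (cyclotomic_expand_eq_cyclotomic_mul hr hre ℝ)
  rw [expand_eval, eval_mul] at E
  have h0 := (Nat.totient_pos.2 he).ne'
  have h1 : (1 : ℝ) ≤ r := Nat.one_le_cast.2 hr.pos
  have h2 := sub_one_pow_totient_le_cyclotomic_eval (one_lt_pow₀ hb hr.ne_zero) e
  have h3 := pow_lt_pow_left₀ (lt_sub_iff_add_lt.2 h) (by positivity) h0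
  have h4 := mul_le_mul (le_self_pow₀ h1 h0) (cyclotomic_eval_le_add_one_pow_totient hb e)
    (cyclotomic_pos' e hb).le (by positivity)
  rw [← mul_pow] at h4
  exact lt_of_mul_lt_mul_right (by linarith) (cyclotomic_pos' e hb).le

theorem zsig_geom (ha : 2 ≤ a) {d s : ℕ} (hd : 0 < d) (hs : 1 < s) :
    (cyclotomic (d * s) ℤ).eval (a : ℤ) ∣ ∑ i ∈ range s, ((a : ℤ) ^ d) ^ i := by
  have h := eval_dvd (x := (a : ℤ)) (X_pow_sub_one_mul_cyclotomic_dvd_X_pow_sub_one_of_dvd ℤ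
    (Nat.mem_properDivisors.2 ⟨dvd_mul_right d s, (lt_mul_iff_one_lt_right hd).2 hs⟩))
  simp only [eval_mul, eval_sub, eval_pow, eval_X, eval_one] at h
  rw [pow_mul, ← mul_geom_sum (_ ^ d)] at h
  exact (mul_dvd_mul_iff_left (sub_ne_zero.2
    (one_lt_pow₀ (Nat.one_lt_cast.2 ha) hd.ne').ne')).1 h

/-- a prime factor of the value of the cyclotomic polynomial that is not primitive -/
theorem zsig_key (ha : 2 ≤ a) (hm : 3 ≤ m) (hr : r.Prime)
    (hc : (r : ℤ) ∣ (cyclotomic m ℤ).eval (a : ℤ)) (hn : ¬ Prim a m r) :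
    ∃ e k, Prim a e r ∧ 0 < e ∧ m = e * r ^ (k + 1) ∧
      ¬ (r : ℤ) ^ 2 ∣ (cyclotomic m ℤ).eval (a : ℤ) := by
  have cast : ∀ i, r ∣ a ^ i - 1 ↔ (r : ℤ) ∣ (a : ℤ) ^ i - 1 := fun i => by
    rw [← Int.natCast_dvd_natCast, Nat.cast_pred (by positivity), Nat.cast_pow]
  have h1 : r ∣ a ^ m - 1 := (cast m).2 (hc.trans (by
    simpa using eval_dvd (x := (a : ℤ)) (cyclotomic.dvd_X_pow_sub_one m ℤ)))
  obtain ⟨e, he, hp⟩ := exists_prim hr fun h : r ∣ a => hr.one_lt.ne' (Nat.dvd_one.1 (by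
    have := Nat.dvd_sub (dvd_pow h (by omega : m ≠ 0)) h1
    rwa [Nat.sub_sub_self (Nat.one_le_pow _ _ (by omega))] at this))
  obtain ⟨t, rfl⟩ := (hp.dvd_iff (by omega) he m).1 h1
  have t0 : t ≠ 0 := by rintro rfl; omega
  have t1 : t ≠ 1 := by rintro rfl; exact hn (by rwa [mul_one])
  have hb : ∀ u, (r : ℤ) ∣ (a : ℤ) ^ (e * u) - 1 := fun u =>
    (cast _).1 ((hp.dvd_iff (by omega) he _).2 (dvd_mul_right e u))
  have ht := Nat.eq_prime_pow_of_unique_prime_dvd (p := r) t0 fun {s} hs ⟨u, hu⟩ => by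
    have h2 := zsig_geom ha (d := e * u) (Nat.mul_pos he (Nat.pos_of_ne_zero (by
      rintro rfl; exact t0 hu))) hs.one_lt
    rw [mul_assoc, mul_comm u, ← hu] at h2
    have h3 := (dvd_geom_sum₂_iff_of_dvd_sub (n := s) (hb u)).1 (by simpa using hc.trans h2)
    exact ((Nat.prime_dvd_prime_iff_eq hr hs).1
      (Int.natCast_dvd_natCast.1 (by simpa using h3))).symm
  obtain ⟨k, rfl⟩ : ∃ k, t = r ^ (k + 1) := by
    generalize t.primeFactorsList.length = j at ht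
    rcases j with _ | j
    exacts [absurd ht t1, ⟨j, ht⟩]
  refine ⟨e, k, hp, he, rfl, fun h => ?_⟩
  have h2 := zsig_geom ha (d := e * r ^ k) (Nat.mul_pos he (pow_pos hr.pos k)) hr.one_lt
  rw [mul_assoc, ← pow_succ] at h2
  replace h2 := h.trans h2
  rcases hr.eq_two_or_odd' with rfl | ho
  · obtain rfl : e = 1 := Nat.dvd_one.1 (hp.dvd_pred (by omega) he)
    rcases k with _ | k
    · omega
    rw [one_mul, pow_succ 2 k, pow_mul] at h2
    generalize (a : ℤ) ^ 2 ^ k = y at h2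
    rcases Int.even_or_odd' y with ⟨z, rfl | rfl⟩ <;> norm_num [sum_range_succ] at h2
    · have : (1 : ℤ) + (2 * z) ^ 2 = 4 * z ^ 2 + 1 := by ring
      omega
    · have : (1 : ℤ) + (2 * z + 1) ^ 2 = 4 * (z ^ 2 + z) + 2 := by ring
      omega
  · obtain ⟨u, hu⟩ := hb (r ^ k)
    have h3 := odd_sq_dvd_geom_sum₂_sub (1 : ℤ) u ho
    rw [← hu, add_sub_cancel] at h3
    simp only [one_pow, mul_one] at h3
    have h4 := Int.le_of_dvd (by exact_mod_cast hr.pos) ((dvd_sub_right h2).1 h3)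
    have h5 : (2 : ℤ) ≤ r := by exact_mod_cast hr.two_le
    nlinarith

/-- the theorem of Bang and Zsigmondy -/
theorem zsig (ha : 2 ≤ a) (hm : 3 ≤ m) (h : ¬ (a = 2 ∧ m = 6)) : ∃ r, Prim a m r := by
  by_contra hn
  push Not at hn
  have h1 := sub_one_lt_natAbs_cyclotomic_eval (n := m) (q := a) (by omega) (by omega)
  obtain ⟨r, hr, hd⟩ := Nat.exists_prime_and_dvd
    (show ((cyclotomic m ℤ).eval (a : ℤ)).natAbs ≠ 1 by omega)
  obtain ⟨e, k, hp, he, hk, h2⟩ := zsig_key ha hm hr (Int.natCast_dvd.2 hd) (hn r)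
  have le : ∀ {r s e k : ℕ}, r.Prime → s.Prime → Prim a e r → 0 < e → s ∣ e * r ^ k → s ≤ r :=
    fun hr hs hp he h => ((Nat.Prime.dvd_mul hs).1 h).elim
      (fun h => (Nat.le_of_dvd (Nat.sub_pos_of_lt hr.one_lt)
        (h.trans (hp.dvd_pred (by omega) he))).trans (Nat.sub_le _ _))
      fun h => Nat.le_of_dvd hr.pos (hs.dvd_of_dvd_pow h)
  have h3 := Nat.eq_prime_pow_of_unique_prime_dvd (p := r) (by omega : _ ≠ 0)
    fun {s} hs (hd' : s ∣ ((cyclotomic m ℤ).eval (a : ℤ)).natAbs) => by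
      obtain ⟨e', k', hp', he', hk', -⟩ := zsig_key ha hm hs (Int.natCast_dvd.2 hd') (hn s)
      exact le_antisymm (le hr hs hp he (hk ▸ hk' ▸ (dvd_pow_self s k'.succ_ne_zero).mul_left e'))
        (le hs hr hp' he' (hk' ▸ hk ▸ (dvd_pow_self r k.succ_ne_zero).mul_left e))
  have h4 : (cyclotomic m ℤ).eval (a : ℤ) ≤ r := by
    refine Int.le_natAbs.trans (Nat.cast_le.2 ?_)
    rw [← Nat.cast_pow, Int.natCast_dvd] at h2
    generalize (Nat.primeFactorsList _).length = j at h3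
    rw [h3, Nat.pow_dvd_pow_iff_le_right hr.one_lt] at h2
    exact h3.trans_le ((Nat.pow_le_pow_right hr.pos (by omega)).trans_eq (pow_one r))
  have h5 := hp.dvd_pred (by omega) he
  have h6 : a ≤ a ^ r ^ k := Nat.le_self_pow (pow_pos hr.pos k).ne' a
  have h7 : k ≠ 0 → 4 ≤ a ^ r ^ k := fun h => (Nat.pow_le_pow_left ha 2).trans
    (Nat.pow_le_pow_right (by omega) (hr.two_le.trans (Nat.le_self_pow h r)))
  have h8 := zsig_ineq (ha.trans h6) hr.two_le (fun e2 => h7 (by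
      rintro rfl
      subst e2
      have := Nat.dvd_one.1 h5
      omega)) fun e3 => by
    subst e3
    by_contra h9
    obtain rfl : a = 2 := by omega
    obtain rfl : k = 0 := by by_contra h0; have := h7 h0; omega
    have := hp.dvd
    have := Nat.le_of_dvd two_pos h5
    interval_cases e <;> omega
  have h9 := zsig_big hr he (fun h => absurd (Nat.le_of_dvd (Nat.sub_pos_of_lt hr.one_lt)
    (h.trans h5)) (by have := hr.pos; omega)) (b := (a : ℝ) ^ r ^ k)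
    (by exact_mod_cast ha.trans h6) (by exact_mod_cast h8)
  rw [← zsig_exp hr, ← hk] at h9
  have h10 := cyclotomic.eval_apply (a : ℤ) m (Int.castRingHom ℝ)
  simp only [eq_intCast, Int.cast_natCast] at h10
  rw [h10] at h9
  exact absurd h4 (not_le.2 (by exact_mod_cast h9))

end zsig

theorem pp_le_val {w e s c : ℕ} [Fact w.Prime] (ha : 2 ≤ a)
    (h1 : ∀ j, 0 < j → padicValNat w (a ^ (e * j) - 1) ≤ s + padicValNat w j)
    (h2 : ∀ i, ¬ e ∣ i → padicValNat w (a ^ i - 1) ≤ c) (m : ℕ) :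
    padicValNat w (∏ i ∈ Icc 1 m, (a ^ i - 1)) ≤
      c * (m - m / e) + s * (m / e) + padicValNat w (m / e).factorial := by
  have h0 : ∀ i, 1 ≤ i → a ^ i - 1 ≠ 0 := fun i hi =>
    (Nat.sub_pos_of_lt (Nat.one_lt_pow (by omega) ha)).ne'
  induction m with
  | zero => simp
  | succ m ih =>
    rw [prod_Icc_succ_top (by omega), padicValNat.mul
      (prod_ne_zero_iff.2 fun i hi => h0 i (mem_Icc.1 hi).1) (h0 _ (by omega))]
    by_cases h : e ∣ m + 1
    · have := h1 (m / e + 1) (Nat.succ_pos _)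
      rw [← Nat.succ_div_of_dvd h, Nat.mul_div_cancel' h, Nat.succ_div_of_dvd h] at this
      rw [Nat.succ_div_of_dvd h, Nat.factorial_succ,
        padicValNat.mul (Nat.add_one_ne_zero _) (Nat.factorial_ne_zero _), Nat.add_sub_add_right,
        mul_add_one]
      omega
    · have := h2 _ h
      rw [Nat.succ_div_of_not_dvd h, Nat.succ_sub (Nat.div_le_self m e), Nat.mul_succ]
      omega

theorem pp_le_bd {w e s c k : ℕ} [hw : Fact w.Prime] (ha : 2 ≤ a)
    (h1 : ∀ j, 0 < j → padicValNat w (a ^ (e * j) - 1) ≤ s + padicValNat w j)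
    (h2 : ∀ i, ¬ e ∣ i → padicValNat w (a ^ i - 1) ≤ c)
    (h : w ^ k ∣ ∏ i ∈ Icc 1 m, (a ^ i - 1)) :
    w ^ k ≤ (w ^ c) ^ (m - m / e) * (w ^ s) ^ (m / e) * 2 ^ (m / e) := by
  have h3 := ((padicValNat_dvd_iff_le (prod_ne_zero_iff.2 fun i hi => (Nat.sub_pos_of_lt
    (Nat.one_lt_pow (Nat.pos_iff_ne_zero.1 (mem_Icc.1 hi).1) ha)).ne')).1 h).trans
      (pp_le_val ha h1 h2 m)
  refine (Nat.pow_le_pow_right hw.out.pos h3).trans ?_
  rw [pow_add, pow_add, pow_mul, pow_mul]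
  refine Nat.mul_le_mul_left _ ?_
  have h4 : w ≤ 2 ^ (w - 1) := by
    have := @Nat.lt_two_pow_self (w - 1)
    omega
  refine (Nat.pow_le_pow_left h4 _).trans ?_
  rw [← pow_mul, sub_one_mul_padicValNat_factorial]
  exact Nat.pow_le_pow_right two_pos (Nat.sub_le _ _)

theorem pp_le_odd {w k : ℕ} (ha : 2 ≤ a) (hw : w.Prime) (hwa : ¬ w ∣ a) (h2 : w ≠ 2)
    (h : w ^ k ∣ ∏ i ∈ Icc 1 m, (a ^ i - 1)) :
    ∃ e, w ∣ a ^ e - 1 ∧ w ^ k ≤ a ^ m * 2 ^ (m / e) := by
  have := Fact.mk hw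
  obtain ⟨e, he, hp⟩ := exists_prim hw hwa
  have h1 : 1 < a ^ e := Nat.one_lt_pow he.ne' ha
  refine ⟨e, hp.dvd, (pp_le_bd (e := e) (s := padicValNat w (a ^ e - 1)) (c := 0) ha
    (fun j hj => ?_) (fun i hi => ?_) h).trans (Nat.mul_le_mul_right _ ?_)⟩
  · have := padicValNat.pow_sub_pow (hw.odd_of_ne_two h2) h1 hp.dvd
      (fun e => hwa (hw.dvd_of_dvd_pow e)) hj.ne'
    rw [one_pow, ← pow_mul] at this
    exact this.le
  · exact (padicValNat.eq_zero_of_not_dvd fun e => hi ((hp.dvd_iff (by omega) he i).1 e)).le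
  · rw [pow_zero, one_pow, one_mul]
    refine (Nat.pow_le_pow_left ((Nat.le_of_dvd (Nat.sub_pos_of_lt h1) pow_padicValNat_dvd).trans
      (Nat.sub_le _ _)) _).trans ?_
    rw [← pow_mul]
    exact Nat.pow_le_pow_right (by omega) (Nat.mul_div_le m e)

theorem pp_le {w k : ℕ} (ha : 2 ≤ a) (hw : w.Prime) (hwa : ¬ w ∣ a)
    (h : w ^ k ∣ ∏ i ∈ Icc 1 m, (a ^ i - 1)) : w ^ k ≤ (2 * a) ^ m := by
  rcases eq_or_ne w 2 with rfl | h2
  swap
  · obtain ⟨e, -, he⟩ := pp_le_odd ha hw hwa h2 h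
    rw [mul_pow, mul_comm]
    exact he.trans (Nat.mul_le_mul_left _ (Nat.pow_le_pow_right two_pos (Nat.div_le_self m e)))
  obtain ⟨x, rfl⟩ : ∃ x, a = x + 1 := ⟨a - 1, by omega⟩
  have hA : 2 ^ padicValNat 2 x ≤ x := Nat.le_of_dvd (by omega) pow_padicValNat_dvd
  have hC : 2 ^ padicValNat 2 (x + 2) ≤ x + 2 := Nat.le_of_dvd (by omega) pow_padicValNat_dvd
  have h4 : ∀ y, y ≠ 0 → ¬ 4 ∣ y → 2 ^ padicValNat 2 y ≤ 2 := fun y h0 hy => by
    have := mt (padicValNat_dvd_iff_le (p := 2) (n := 2) h0).2 hy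
    exact (Nat.pow_le_pow_right two_pos (by omega : _ ≤ 1)).trans (pow_one 2).le
  refine (pp_le_bd (e := 2) (s := padicValNat 2 (x + 2) + padicValNat 2 x) (c := padicValNat 2 x)
    ha (fun j hj => ?_) (fun i hi => ?_) h).trans ?_
  · have := padicValNat.pow_two_sub_pow (x := x + 1) (y := 1) (n := 2 * j) ha (by omega) hwa
      (by omega) (even_two_mul j)
    rw [one_pow, padicValNat.mul two_ne_zero hj.ne', padicValNat_self, Nat.add_sub_cancel,
      show x + 1 + 1 = x + 2 from rfl] at this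
    omega
  · have h5 : ¬ 2 ∣ ∑ j ∈ range i, (x + 1) ^ j := by
      have : ∀ j, (x + 1) ^ j % 2 = 1 := fun j =>
        Nat.odd_iff.1 (Odd.pow (Nat.odd_iff.2 (by omega)))
      rw [Nat.dvd_iff_mod_eq_zero, sum_nat_mod]
      simp only [this, sum_const, card_range, smul_eq_mul]
      omega
    rw [← geom_sum_mul_add, Nat.add_sub_cancel, padicValNat.mul (fun e => h5 (by simp [e]))
      (by omega), padicValNat.eq_zero_of_not_dvd h5, zero_add]
  · have h5 := h4 x (by omega)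
    have h8 := h4 (x + 2) (by omega)
    rw [pow_add]
    generalize 2 ^ padicValNat 2 (x + 2) = C, 2 ^ padicValNat 2 x = A at *
    have h6 : A * (C * A) * 2 ≤ (2 * (x + 1)) ^ 2 := by
      by_cases e : 4 ∣ x
      · have := h8 (by omega)
        calc _ ≤ x * (2 * x) * 2 := by gcongr
          _ ≤ _ := by nlinarith
      · have := h5 e
        have : 2 ≤ x := by omega
        calc _ ≤ 2 * ((x + 2) * 2) * 2 := by gcongr
          _ ≤ _ := by nlinarith
    have h7 : m - m / 2 = m / 2 + m % 2 := by omega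
    calc _ = (A * (C * A) * 2) ^ (m / 2) * A ^ (m % 2) := by rw [h7]; ring
      _ ≤ ((2 * (x + 1)) ^ 2) ^ (m / 2) * (2 * (x + 1)) ^ (m % 2) := by gcongr; omega
      _ = _ := by rw [← pow_mul, ← pow_add, Nat.div_add_mod]

theorem pp_cube {w k : ℕ} (ha : 2 ≤ a) (hw : w.Prime) (hwa : ¬ w ∣ a)
    (h : w ^ k ∣ ∏ i ∈ Icc 1 m, (a ^ i - 1)) : (w ^ k) ^ 3 ≤ (a ^ m) ^ 5 := by
  rcases ha.eq_or_lt with rfl | h3
  · obtain ⟨e, h1, he⟩ := pp_le_odd ha hw hwa (fun e => hwa (e ▸ dvd_rfl)) h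
    have h2 : m / e ≤ m / 2 := by
      rcases e with _ | _ | e
      · simp
      · exact absurd h1 hw.not_dvd_one
      · exact Nat.div_le_div_left (by omega) two_pos
    refine (Nat.pow_le_pow_left he 3).trans ?_
    rw [← pow_add, ← pow_mul, ← pow_mul]
    exact Nat.pow_le_pow_right two_pos (by omega)
  · refine (Nat.pow_le_pow_left (pp_le ha hw hwa h) 3).trans ?_
    rw [pow_right_comm, pow_right_comm a]
    refine Nat.pow_le_pow_left ?_ _
    calc (2 * a) ^ 3 = 8 * a ^ 3 := by ring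
      _ ≤ a ^ 2 * a ^ 3 := Nat.mul_le_mul_right _ (by nlinarith)
      _ = _ := by ring

theorem pp_GL {u w k j : ℕ} (hu : u.Prime) (hw : w.Prime) (hne : w ≠ u)
    (h : w ^ j ∣ ∏ i ∈ range k, (u ^ k - u ^ i)) : (w ^ j) ^ 3 ≤ (u ^ k) ^ 5 := by
  have h1 := (Nat.coprime_primes hw hu).2 hne
  have h2 : ∏ i ∈ range k, (u ^ k - u ^ i) =
      (∏ i ∈ range k, u ^ i) * ∏ i ∈ Icc 1 k, (u ^ i - 1) := by
    rw [← Ico_add_one_right_eq_Icc, prod_Ico_eq_prod_range, Nat.add_sub_cancel,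
      ← prod_range_reflect (fun i => u ^ (1 + i) - 1), ← prod_mul_distrib]
    refine prod_congr rfl fun i hi => ?_
    rw [Nat.mul_sub_one, ← pow_add]
    congr 2
    have := mem_range.1 hi
    omega
  rw [h2, prod_pow_eq_pow_sum] at h
  exact pp_cube hu.two_le hw (hw.coprime_iff_not_dvd.1 h1)
    ((h1.pow _ _).dvd_of_dvd_mul_left h)

theorem pp_SL_sum {w e : ℕ} [Fact w.Prime] (c m : ℕ) :
    ∑ i ∈ Icc 1 m, (if e ∣ i then c + padicValNat w (i / e) else 0) =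
      m / e * c + padicValNat w (m / e).factorial := by
  induction m with
  | zero => simp
  | succ m ih =>
    rw [sum_Icc_succ_top (by omega), ih, Nat.succ_div]
    split_ifs
    · rw [Nat.factorial_succ, padicValNat.mul (Nat.succ_ne_zero _) (Nat.factorial_ne_zero _)]
      ring
    · simp

theorem pp_SL_aux {w k e c d D C : ℕ} (ha : 2 ≤ a) [hw : Fact w.Prime] (hv : ∀ i, 0 < i →
    padicValNat w (a ^ i - 1) ≤ d + if e ∣ i then c + padicValNat w (i / e) else 0)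
    (h : w ^ k ∣ ∏ i ∈ Icc 2 m, (a ^ i - 1)) (hD : w ^ d ≤ D) (hC : w ^ c ≤ C) :
    w ^ k ≤ D ^ (m - 1) * (C ^ (m / e) * 2 ^ (m / e - 1)) := by
  have h0 : ∀ i ∈ Icc 2 m, a ^ i - 1 ≠ 0 := fun i hi =>
    Nat.sub_ne_zero_of_lt (Nat.one_lt_pow (by have := (mem_Icc.1 hi).1; omega) ha)
  have h1 := (hw.out.pow_dvd_iff_le_factorization (prod_ne_zero_iff.2 h0)).1 h
  simp only [Nat.factorization_prod h0, Finsupp.coe_finsetSum, Finset.sum_apply,
    Nat.factorization_def _ hw.out] at h1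
  have h2 : k ≤ d * (m - 1) + (c * (m / e) + padicValNat w (m / e).factorial) := by
    refine h1.trans ((sum_le_sum fun i hi => hv i (by have := (mem_Icc.1 hi).1; omega)).trans ?_)
    rw [sum_add_distrib, sum_const, Nat.card_Icc, smul_eq_mul, mul_comm c, ← pp_SL_sum, mul_comm]
    exact add_le_add le_rfl (sum_le_sum_of_subset (Icc_subset_Icc_left one_le_two))
  have h3 : w ^ padicValNat w (m / e).factorial ≤ 2 ^ (m / e - 1) := by
    rcases eq_or_ne (m / e) 0 with h4 | h4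
    · simp [h4]
    have h5 := sub_one_mul_padicValNat_factorial_lt_of_ne_zero w h4
    have h6 : w - 1 < 2 ^ (w - 1) := Nat.lt_two_pow_self
    refine (Nat.pow_le_pow_left (show w ≤ 2 ^ (w - 1) by omega) _).trans ?_
    rw [← pow_mul]
    exact Nat.pow_le_pow_right two_pos (by omega)
  refine (Nat.pow_le_pow_right hw.out.pos h2).trans ?_
  rw [pow_add, pow_add, pow_mul, pow_mul]
  gcongr

theorem pp_SL {w k : ℕ} (ha : 2 ≤ a) (hm : 2 ≤ m) (hw : w.Prime) (hwa : ¬ w ∣ a)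
    (h : w ^ k ∣ ∏ i ∈ Icc 2 m, (a ^ i - 1)) : w ^ k ≤ 2 ^ m * a ^ (m - 1) := by
  have := Fact.mk hw
  have hd : ∀ {n}, 0 < n → w ^ padicValNat w n ≤ n := fun h => Nat.le_of_dvd h pow_padicValNat_dvd
  have h1 : w ^ padicValNat w (a - 1) ≤ a := (hd (by omega)).trans (by omega)
  rcases hw.eq_two_or_odd' with rfl | ho
  · have hv : ∀ i, 0 < i → padicValNat 2 (a ^ i - 1) ≤ padicValNat 2 (a - 1) +
        if 2 ∣ i then padicValNat 2 (a + 1) + padicValNat 2 (i / 2) else 0 := fun i hi => by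
      split_ifs with h2
      · obtain ⟨j, rfl⟩ := h2
        have := padicValNat.pow_two_sub_pow (x := a) (y := 1) ha (by omega) hwa hi.ne'
          (even_two_mul j)
        rw [one_pow, padicValNat.mul two_ne_zero (by omega), padicValNat_self] at this
        rw [Nat.mul_div_cancel_left j two_pos]
        omega
      · have h3 : Odd (∑ j ∈ range i, a ^ j) := by
          rw [odd_sum_iff_odd_card_odd, filter_true_of_mem fun j _ =>
            (Nat.odd_iff.2 (by omega)).pow, card_range]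
          exact Nat.odd_iff.2 (by omega)
        rw [← geom_sum_mul_of_one_le (by omega), padicValNat.mul h3.pos.ne' (by omega),
          padicValNat.eq_zero_of_not_dvd h3.not_two_dvd_nat, zero_add, add_zero]
    have h4 : ∀ {n}, n % 4 = 2 → 2 ^ padicValNat 2 n ≤ 2 ^ 1 := fun {n} hn =>
      Nat.pow_le_pow_right two_pos (Nat.le_of_lt_succ (not_le.1 fun e => by
        have : 4 ∣ n := (padicValNat_dvd_iff_le (p := 2) (n := 2) (by omega)).2 e
        omega))
    rcases (by omega : a % 4 = 1 ∨ a % 4 = 3) with h5 | h5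
    · refine (pp_SL_aux ha hv h h1 (h4 (by omega))).trans ?_
      rw [mul_comm, pow_one, ← pow_add]
      exact Nat.mul_le_mul_right _ (Nat.pow_le_pow_right two_pos (by omega))
    · refine (pp_SL_aux ha hv h (h4 (by omega)) (hd (by omega))).trans ?_
      obtain ⟨s, hs⟩ : ∃ s, m / 2 = s + 1 := ⟨m / 2 - 1, by omega⟩
      obtain ⟨n, rfl⟩ : ∃ n, m = n + 1 := ⟨m - 1, by omega⟩
      have h6 : ((a + 1) * 2) ^ s ≤ (a ^ 2) ^ s :=
        Nat.pow_le_pow_left (by nlinarith [show 3 ≤ a by omega]) s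
      have h7 : a ^ (2 * s + 1) ≤ a ^ n := Nat.pow_le_pow_right (by omega) (by omega)
      rw [hs, pow_one, Nat.add_sub_cancel, Nat.add_sub_cancel, pow_succ 2, mul_assoc, pow_succ',
        mul_assoc, ← mul_pow]
      refine Nat.mul_le_mul_left _ ((Nat.mul_le_mul (show a + 1 ≤ 2 * a by omega) h6).trans ?_)
      rw [← pow_mul, mul_assoc, ← pow_succ']
      exact Nat.mul_le_mul_left _ h7
  obtain ⟨e, he, hP⟩ := exists_prim hw hwa
  have hv : ∀ i, 0 < i → padicValNat w (a ^ i - 1) ≤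
      0 + if e ∣ i then padicValNat w (a ^ e - 1) + padicValNat w (i / e) else 0 := fun i hi => by
    split_ifs with h2
    · obtain ⟨j, rfl⟩ := h2
      have := padicValNat.pow_sub_pow ho (x := a ^ e) (y := 1) (Nat.one_lt_pow he.ne' ha) hP.dvd
        (fun h => hwa (hw.dvd_of_dvd_pow h)) (n := j) (by rintro rfl; simp at hi)
      rw [one_pow, ← pow_mul] at this
      rw [Nat.mul_div_cancel_left j he, this, zero_add]
    · rw [padicValNat.eq_zero_of_not_dvd (mt (hP.dvd_iff (by omega) he i).1 h2)]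
  rcases (by omega : e = 1 ∨ 2 ≤ e) with rfl | h2
  · refine (pp_SL_aux (e := 1) (c := 0) ha (fun i hi => by simpa using hv i hi) h h1 le_rfl).trans ?_
    rw [mul_comm, pow_zero, one_pow, one_mul, Nat.div_one]
    exact Nat.mul_le_mul_right _ (Nat.pow_le_pow_right two_pos (by omega))
  obtain ⟨f, rfl⟩ : ∃ f, e = f + 1 := ⟨e - 1, by omega⟩
  have h3 : w ^ padicValNat w (a ^ (f + 1) - 1) ≤ 2 * a ^ f := by
    have h4 := Nat.le_of_dvd (Nat.sub_pos_of_lt (Nat.one_lt_pow he.ne' ha))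
      ((Nat.Coprime.pow_left _ (hw.coprime_iff_not_dvd.2 (by simpa using hP.min 1 one_pos h2))
        ).mul_dvd_of_dvd_of_dvd pow_padicValNat_dvd (Nat.sub_one_dvd_pow_sub_one a (f + 1)))
    refine Nat.le_of_mul_le_mul_right (h4.trans ((Nat.sub_le _ _).trans ?_)) (by omega)
    rw [pow_succ, mul_comm 2, mul_assoc]
    exact Nat.mul_le_mul_left _ (by omega)
  refine (pp_SL_aux ha hv h le_rfl h3).trans ?_
  have h5 := Nat.div_mul_le_self m (f + 1)
  generalize m / (f + 1) = t at h5 ⊢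
  rw [pow_zero, one_pow, one_mul, mul_pow, mul_right_comm, ← pow_add, ← pow_mul]
  have h6 : t * 1 ≤ t * f := Nat.mul_le_mul_left t (by omega)
  rw [mul_add] at h5
  exact Nat.mul_le_mul (Nat.pow_le_pow_right two_pos (by omega)) (Nat.pow_le_pow_right (by omega)
    (by rw [mul_comm]; rcases t with _ | t <;> omega))

end Pool.Agent.Lib.MP_7d41f7_al
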