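import Pool.Agent.Lib.MP_7d41f7_al.L.Defs
import Pool.Agent.Lib.MP_7d41f7_al.LemV
import Pool.Agent.Lib.MP_7d41f7_al.Ch3

set_option autoImplicit false

namespace Pool.Agent.Lib.MP_7d41f7_al

open Finset Pool.Agent.Lib.MP_b6945b_al

variable {G : Type} [Group G] [Finite G]

omit [Finite G] in
theorem sperma_exp [Fintype G] (J : IrrData G) (X : Type) [Finite X] [MulAction G X] :
    ∃ m : Fin J.n → ℕ, ∀ g : G, (nFix X g : ℂ) = ∑ j, m j * J.χ j g := by
  let e := Finite.equivFin X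
  let ρ : G →* Matrix (Fin (Nat.card X)) (Fin (Nat.card X)) ℂ :=
    Matrix.permMatrixHom.comp (e.permCongrHom.toMonoidHom.comp (MulAction.toPermHom G X))
  choose m h1 _ using mlt_nat J ρ
  refine ⟨m, fun g => ?_⟩
  simp only [← h1]
  refine Eq.trans ?_ (expand J (ch1_cf ρ) g)
  refine Eq.trans (congrArg _ (Nat.card_congr (e.subtypeEquiv fun x => ?_)))
    (Matrix.trace_permutation (e.permCongr (MulAction.toPerm g))⁻¹).symm
  change _ ↔ (e.permCongr (MulAction.toPerm g))⁻¹ (e x) = e x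
  rw [Equiv.Perm.inv_eq_iff_eq]
  simp [eq_comm]

omit [Finite G] in
theorem sperma_orb [Fintype G] (J : IrrData G) {X Y : Type} [Finite X] [Finite Y] [MulAction G X]
    [MulAction G Y] {a b : Fin J.n → ℕ} (ha : ∀ g : G, (nFix X g : ℂ) = ∑ j, a j * J.χ j g)
    (hb : ∀ g : G, (nFix Y g : ℂ) = ∑ j, b j * J.χ j g) : nOrb G (X × Y) = ∑ j, a j * b j := by
  have h1 : ∑ g : G, nFix (X × Y) g = nOrb G (X × Y) * Fintype.card G := by
    have := fun g : G => Fintype.ofFinite (MulAction.fixedBy (X × Y) g)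
    have := Fintype.ofFinite (MulAction.orbitRel.Quotient G (X × Y))
    simp only [nFix, nOrb, Nat.card_eq_fintype_card]
    exact MulAction.sum_card_fixedBy_eq_card_orbits_mul_card_group G (X × Y)
  have h2 : ∀ g : G, nFix (X × Y) g = nFix X g⁻¹ * nFix Y g := fun g => by
    rw [nFix, nFix, MulAction.fixedBy_inv, ← Nat.card_prod]
    exact Nat.card_congr ((Equiv.subtypeEquivRight fun _ => Prod.ext_iff).trans
      (Equiv.subtypeProdEquivProd (p := fun x => g • x = x) (q := fun y => g • y = y)))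
  have h3 := congrArg (Nat.cast (R := ℂ)) h1
  simp only [h2, Nat.cast_sum, Nat.cast_mul, ha, hb, sum_mul_sum] at h3
  rw [sum_comm] at h3
  have h4 : ∀ i, ∑ g : G, ∑ j, a i * J.χ i g⁻¹ * (b j * J.χ j g) =
      (a i * b i : ℂ) * Fintype.card G := fun i => by
    rw [sum_comm]
    simp only [mul_mul_mul_comm _ (J.χ i _), ← mul_sum, J.orth]
    simp
  simp only [h4, ← sum_mul] at h3
  exact_mod_cast (mul_right_cancel₀ IrrData.card_ne h3).symm

/-- The difference of the two permutation characters is irreducible up to sign. -/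
theorem perm_van {X Y : Type} [Finite X] [Finite Y] [MulAction G X] [MulAction G Y]
    (h : nOrb G (Y × Y) + nOrb G (X × X) = 2 * nOrb G (X × Y) + 1) {g : G}
    (hg : nFix X g = nFix Y g) : orderOf g ∈ Vo G := by
  have := Fintype.ofFinite G
  obtain ⟨J⟩ := exists_irrData G
  obtain ⟨a, ha⟩ := sperma_exp J X
  obtain ⟨b, hb⟩ := sperma_exp J Y
  rw [sperma_orb J hb hb, sperma_orb J ha ha, sperma_orb J ha hb] at h
  have h1 : ∑ j, ((b j : ℤ) - a j).natAbs * ((b j : ℤ) - a j).natAbs = 1 := by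
    zify at h ⊢
    simp only [abs_mul_abs_self, sub_mul, mul_sub, sum_sub_distrib, mul_comm (b _ : ℤ) (a _)]
    linarith
  obtain ⟨j, -, hj⟩ := exists_ne_zero_of_sum_ne_zero (h1.trans_ne one_ne_zero)
  rw [← add_sum_erase _ _ (mem_univ j)] at h1
  have h2 := sum_eq_zero_iff.1 (show ∑ i ∈ univ.erase j,
    ((b i : ℤ) - a i).natAbs * ((b i : ℤ) - a i).natAbs = 0 by omega)
  have h3 : ∑ i, ((b i : ℂ) - a i) * J.χ i g = 0 := by
    simp only [sub_mul, sum_sub_distrib, ← ha, ← hb, hg, sub_self]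
  rw [sum_eq_single j (fun i _ hi => by
    have := mul_self_eq_zero.1 (h2 i (mem_erase.2 ⟨hi, mem_univ i⟩))
    rw [show b i = a i by omega, sub_self, zero_mul]) (by simp)] at h3
  refine (mem_Vo J _).2 ⟨g, rfl, j, (mul_eq_zero.1 h3).resolve_left fun e => hj ?_⟩
  rw [Nat.cast_injective (sub_eq_zero.1 e), sub_self]
  rfl

/-- Galois conjugation: `spec`, the value is a polynomial with integer coefficients in a primitive
root of unity (`IsPrimitiveRoot.minpoly_eq_pow_coprime` or as in `ch3_mean`) -/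
theorem van_pow [Fintype G] (I : IrrData G) (i : Fin I.n) {g : G} (h : I.χ i g = 0) {k : ℕ}
    (hk : k.Coprime (orderOf g)) : I.χ i (g ^ k) = 0 := by
  obtain ⟨ζ, hζ⟩ := ch3_root g
  have hm : 0 < orderOf g := orderOf_pos g
  obtain ⟨μ, hμ⟩ := spec (I.ρ i) g hζ
  let f : Polynomial ℤ := ∑ j ∈ range (orderOf g), Polynomial.C (μ j : ℤ) * Polynomial.X ^ j
  have hf : ∀ k : ℕ, Polynomial.aeval (ζ ^ k) f = I.χ i (g ^ k) := fun k => by
    have h1 := hμ k
    rw [zpow_natCast] at h1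
    unfold IrrData.χ f
    rw [h1, map_sum]
    refine Finset.sum_congr rfl fun j _ => ?_
    rw [← Nat.cast_mul, zpow_natCast, mul_comm j k, pow_mul]
    simp
  have h0 := hf 1
  rw [pow_one, pow_one, h] at h0
  have h2 := minpoly.isIntegrallyClosed_dvd (hζ.isIntegral hm) h0
  rw [← Polynomial.cyclotomic_eq_minpoly hζ hm,
    Polynomial.cyclotomic_eq_minpoly (hζ.pow_of_coprime k hk) hm] at h2
  exact hf k ▸ Polynomial.aeval_eq_zero_of_dvd_aeval_eq_zero h2 (minpoly.aeval _ _)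

/-- `g = x * y` with `x`, `y` powers of `g` of orders `r`, `u`.  By `cyc_conj` with `L = ⊤`, `x` is
conjugate to a generator of `zpowers x₀` with `x₀` vanishing; `van_pow`, `lemV`, `mem_Vo`. -/
theorem adj_Vo {u r : ℕ} (hu : u.Prime) (hr : r.Prime) (hur : u ≠ r) (hc : Cyc G r)
    (hV : r ∈ Vo G) (h : Adj G u r) : u * r ∈ Vo G := by
  have := Fintype.ofFinite G
  have := Fact.mk hr
  obtain ⟨I⟩ := exists_irrData G
  obtain ⟨x₀, h0, i, hi⟩ := (mem_Vo I r).1 hV
  obtain ⟨g, hg⟩ := h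
  have hx : orderOf (g ^ u) = r := by
    rw [orderOf_pow_of_dvd hu.ne_zero (hg ▸ dvd_mul_right u r), hg, Nat.mul_div_cancel_left _ hu.pos]
  have hy : orderOf (g ^ r) = u := by
    rw [orderOf_pow_of_dvd hr.ne_zero (hg ▸ dvd_mul_left r u), hg, Nat.mul_div_cancel _ hr.pos]
  obtain ⟨l, -, hl⟩ := cyc_conj hc ⊤ h0 hx trivial trivial
  obtain ⟨k, hk⟩ := mem_powers_iff_mem_zpowers.2 hl
  have h1 : orderOf (x₀ ^ k) = r :=
    (congrArg orderOf hk).trans ((MulEquiv.orderOf_eq (MulAut.conj l) _).trans hx)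
  have h2 : I.χ i (g ^ u) = 0 := by
    rw [← I.χ_conj i l, ← hk]
    refine van_pow I i hi ?_
    rw [h0, Nat.coprime_comm, hr.coprime_iff_not_dvd, ← h0, orderOf_dvd_iff_pow_eq_one]
    intro h3
    rw [h3, orderOf_one] at h1
    exact hr.ne_one h1.symm
  have hcm : Commute (g ^ u) (g ^ r) := Commute.pow_pow_self g u r
  refine (mem_Vo I _).2 ⟨g ^ u * g ^ r, ?_, i, lemV hc hx I i h2 hcm.symm ?_⟩
  · rw [hcm.orderOf_mul_eq_mul_orderOf_of_coprime
      (by rw [hx, hy]; exact (Nat.coprime_primes hr hu).2 hur.symm), hx, hy, mul_comm]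
  · rw [hy, Nat.prime_dvd_prime_iff_eq hr hu]
    exact hur.symm

/-- an element whose order is the full power of `r` generates a Sylow subgroup -/
theorem cyc_of_order {r c : ℕ} (hr : r.Prime) {g : G} (hg : orderOf g = r ^ c)
    (h : ¬ r ^ (c + 1) ∣ Nat.card G) : Cyc G r := by
  have := Fact.mk hr
  have h0 := (Nat.card_pos (α := G)).ne'
  have h1 : c = (Nat.card G).factorization r := le_antisymm
    ((hr.pow_dvd_iff_le_factorization h0).1 (hg ▸ orderOf_dvd_natCard g))
    (Nat.le_of_lt_succ (not_le.1 fun h2 => h ((hr.pow_dvd_iff_le_factorization h0).2 h2)))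
  intro P
  let Q : Sylow r G := Sylow.ofCard (Subgroup.zpowers g) (by rw [Nat.card_zpowers, hg, h1])
  have : IsCyclic Q := inferInstanceAs (IsCyclic (Subgroup.zpowers g))
  exact isCyclic_of_surjective _ (Q.equiv P).surjective

end Pool.Agent.Lib.MP_7d41f7_al
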