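import Pool.Agent.Lib.MP_7d41f7_al.L.SCard

set_option autoImplicit false

namespace Pool.Agent.Lib.MP_7d41f7_al

open Finset Module

variable {n m : ℕ} {F : Type} [Field F] [Finite F]

/-- multiplication by an element of order `e` in an extension field -/
theorem exists_el (hm : 0 < m) (hmn : m ≤ n) {e : ℕ} (he : e ∣ Nat.card F ^ m - 1)
    (hc : e.Coprime (Nat.card F - 1)) : ∃ A : SLn n F, orderOf A = e := by
  obtain ⟨p, _⟩ := CharP.exists F
  have : Fact p.Prime := ⟨CharP.char_is_prime F p⟩
  have : NeZero m := ⟨hm.ne'⟩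
  obtain ⟨t, rfl⟩ := Nat.exists_eq_add_of_le hmn
  obtain ⟨g, hg⟩ := IsCyclic.exists_ofOrder_eq_natCard (α := (FiniteField.Extension F p m)ˣ)
  have h1 := orderOf_pow_orderOf_div (orderOf_pos g).ne' (n := e)
    (by rwa [hg, Nat.card_units, FiniteField.natCard_extension])
  rw [← orderOf_units] at h1
  let b := Algebra.leftMulMatrix (finBasisOfFinrankEq F _ (FiniteField.finrank_extension F p m))
  let φ : FiniteField.Extension F p m →* Matrix (Fin (m + t)) (Fin (m + t)) F :=
    { toFun a := Matrix.reindex finSumFinEquiv finSumFinEquiv (Matrix.fromBlocks (b a) 0 0 1)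
      map_one' := by simp
      map_mul' := fun a c => by simp [Matrix.fromBlocks_multiply] }
  have h2 := (orderOf_injective φ (fun a c h => Algebra.leftMulMatrix_injective _
    (Matrix.fromBlocks_inj.1 ((Matrix.reindex _ _).injective h)).1) _).trans h1
  generalize φ _ = A at h2
  have h3 : A.det ^ e = 1 := by rw [← Matrix.det_pow, ← h2, pow_orderOf_eq_one, Matrix.det_one]
  have h4 : e ≠ 0 := h1 ▸ (orderOf_units.trans_gt (orderOf_pos _)).ne'
  have := Fintype.ofFinite F
  have h5 := FiniteField.pow_card_sub_one_eq_one A.det fun h => by simp [h, h4] at h3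
  rw [← Nat.card_eq_fintype_card] at h5
  have h6 := pow_gcd_eq_one.2 ⟨h3, h5⟩
  rw [hc.gcd_eq_one, pow_one] at h6
  exact ⟨⟨A, h6⟩, (orderOf_injective Matrix.SpecialLinearGroup.coeMonoidHom
    Subtype.val_injective _).symm.trans h2⟩

/-- the order in the quotient by a central subgroup of coprime order -/
theorem orderOf_mk_center {G : Type} [Group G] [Finite G] {g : G}
    (h : (orderOf g).Coprime (Nat.card (Subgroup.center G))) :
    orderOf (QuotientGroup.mk g : G ⧸ Subgroup.center G) = orderOf g := by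
  refine Nat.dvd_antisymm (orderOf_map_dvd (QuotientGroup.mk' _) g) (h.dvd_of_dvd_mul_right ?_)
  have h1 := (QuotientGroup.eq_one_iff (N := Subgroup.center G) _).1
    ((QuotientGroup.mk_pow _ g _).trans (pow_orderOf_eq_one _))
  rw [orderOf_dvd_iff_pow_eq_one, pow_mul]
  exact congrArg Subtype.val (pow_card_eq_one' (x := (⟨_, h1⟩ : Subgroup.center G)))

end Pool.Agent.Lib.MP_7d41f7_al
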