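import Pool.Agent.Lib.MP_7d41f7_al.L.AZ

/-! The arithmetic shape of the orders of the groups of Lie type. -/

set_option autoImplicit false

namespace Pool.Agent.Lib.MP_7d41f7_al

open Finset

/-- The shape of the order `h` of a group of Lie type over the field with `v ^ g` elements, with
`N` positive roots, exponents `I` and largest exponent `D`. -/
structure LT (h v g N D : ℕ) (I : Finset ℕ) : Prop where
  pv : v.Prime
  g0 : 0 < g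
  pp : (v ^ g) ^ N ∣ h
  le : h ≤ ((v ^ g) ^ N) ^ 3
  div : ∀ r, r.Prime → r ∣ h → r = v ∨ ∃ j ∈ I, r ∣ (v ^ g) ^ j - 1
  mem : D ∈ I
  bd : ∀ j ∈ I, 0 < j ∧ j ≤ D
  all : ∀ j ∈ I, 3 ≤ j ∨ j = D → 3 ≤ g * j → ∀ r, Prim v (g * j) r → r ∣ h

variable {h v g m : ℕ}

/- `e` is prime to `v`, so `u ^ N ∣ h`; `h ≤ h * e`. A prime of `h` divides `u ^ N` or some `F i`.
A primitive prime for `g * j i` divides `F i` and not `e`. -/
theorem LT.of_prod {ι : Type} {e N D : ℕ} (hv : v.Prime) (hg : 0 < g) (J : Finset ι)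
    (F j : ι → ℕ) (he : 0 < e) (hev : ¬ v ∣ e) (hh : h * e = (v ^ g) ^ N * ∏ i ∈ J, F i)
    (hle : ∏ i ∈ J, F i ≤ (v ^ g) ^ (2 * N)) (hF : ∀ i ∈ J, F i ∣ (v ^ g) ^ j i - 1)
    (hD : ∃ i ∈ J, j i = D) (hb : ∀ i ∈ J, 0 < j i ∧ j i ≤ D)
    (hP : ∀ i ∈ J, 3 ≤ j i ∨ j i = D → 3 ≤ g * j i → ∀ r, Prim v (g * j i) r → r ∣ F i ∧ ¬ r ∣ e) :
    LT h v g N D (J.image j) := by
  refine ⟨hv, hg, ?_, ?_, fun r hr h1 => ?_, mem_image.2 hD, forall_mem_image.2 hb,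
    forall_mem_image.2 fun i hi h1 h2 r hr => ?_⟩
  · exact (((hv.coprime_iff_not_dvd.2 hev).pow_left _).pow_left _).dvd_of_dvd_mul_right
      (hh ▸ dvd_mul_right _ _)
  · exact ((Nat.le_mul_of_pos_right h he).trans_eq hh).trans
      ((Nat.mul_le_mul_left _ hle).trans_eq (by ring))
  · refine (hr.dvd_mul.1 (hh ▸ h1.mul_right e)).imp (fun h2 => (Nat.prime_dvd_prime_iff_eq hr hv).1
      (hr.dvd_of_dvd_pow (hr.dvd_of_dvd_pow h2))) fun h2 => ?_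
    obtain ⟨i, hi, h3⟩ := (hr.prime.dvd_finsetProd_iff _).1 h2
    exact ⟨_, mem_image_of_mem j hi, h3.trans (hF i hi)⟩
  · obtain ⟨h3, h4⟩ := hP i hi h1 h2 r hr
    exact (hr.pr.dvd_mul.1 (hh ▸ (h3.trans (dvd_prod_of_mem F hi)).mul_left _)).resolve_right h4

/- Tools for `hP`: `u ^ (2 i) - 1 = (u ^ i - 1) (u ^ i + 1)`, `Prim.dvd_iff`, `pow_mul`. -/
theorem Prim.dvd_add {r i : ℕ} (hv : 1 ≤ v) (hg : 0 < g) (hi : 0 < i)
    (h : Prim v (g * (2 * i)) r) : r ∣ (v ^ g) ^ i + 1 := by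
  have h1 := h.dvd
  rw [pow_mul, pow_mul', ← one_pow 2, Nat.sq_sub_sq] at h1
  refine (h.pr.dvd_mul.1 h1).resolve_right ?_
  rw [← pow_mul]
  exact h.min _ (mul_pos hg hi) (Nat.mul_lt_mul_of_pos_left (by omega) hg)

theorem Prim.not_dvd_lt {r i j : ℕ} (hv : 1 ≤ v) (hg : 0 < g) (hi : 0 < i) (hij : i < j)
    (h : Prim v (g * j) r) : ¬ r ∣ (v ^ g) ^ i - 1 := by
  rw [← pow_mul]
  exact h.min _ (mul_pos hg hi) (Nat.mul_lt_mul_of_pos_left hij hg)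

theorem lt_A_aux {e : ℕ} (hv : v.Prime) (hg : 0 < g) (he : e ∣ v ^ g - 1) : ¬ v ∣ e := fun h1 => by
  have := Nat.dvd_sub (dvd_pow_self v hg.ne') (h1.trans he)
  rw [Nat.sub_sub_self (Nat.one_le_pow _ _ hv.pos)] at this
  exact hv.ne_one (Nat.dvd_one.1 this)

/- `LT.of_prod` with `F i = u ^ i - 1`; `∑ i ∈ Icc 2 m, i ≤ m (m - 1)`; `e ∣ u - 1`. -/
theorem lt_A (hv : v.Prime) (hg : 0 < g) (hm : 2 ≤ m)
    (hh : h * Nat.gcd m (v ^ g - 1) = ordSL m (v ^ g)) :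
    LT h v g (m * (m - 1) / 2) m (Icc 2 m) := by
  have := LT.of_prod (D := m) hv hg (Icc 2 m) (fun i => (v ^ g) ^ i - 1) id
    (Nat.gcd_pos_of_pos_left _ (by omega)) (lt_A_aux hv hg (Nat.gcd_dvd_right _ _)) hh
    ((prod_le_pow_card _ _ ((v ^ g) ^ m) fun i hi => (Nat.sub_le _ _).trans
      (Nat.pow_le_pow_right (pow_pos hv.pos _) (mem_Icc.1 hi).2)).trans_eq (by
        rw [Nat.two_mul_div_two_of_even (Nat.even_mul_pred_self m), ← pow_mul, Nat.card_Icc]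
        rfl))
    (fun _ _ => dvd_rfl) ⟨m, mem_Icc.2 ⟨hm, le_rfl⟩, rfl⟩
    (fun i hi => ⟨two_pos.trans_le (mem_Icc.1 hi).1, (mem_Icc.1 hi).2⟩)
    fun i hi _ _ r hr => ⟨pow_mul v g i ▸ hr.dvd, fun h1 => hr.not_dvd_lt hv.pos hg one_pos
      (mem_Icc.1 hi).1 ((pow_one (v ^ g)).symm ▸ h1.trans (Nat.gcd_dvd_right _ _))⟩
  rwa [image_id] at this

theorem lt_2A_aux {u : ℕ} (hu : 2 ≤ u) (m : ℕ) :
    ∏ i ∈ Icc 2 (m + 1), (if i % 2 = 1 then u ^ i + 1 else u ^ i - 1) ≤ u ^ ((m + 1) * m) := by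
  induction m with
  | zero => simp
  | succ m ih =>
    rw [prod_Icc_succ_top (by omega), show (m + 1 + 1) * (m + 1) = (m + 1) * m + 2 * (m + 1) by ring,
      pow_add u ((m + 1) * m)]
    refine Nat.mul_le_mul ih ?_
    have h1 := Nat.one_le_pow (m + 1 + 1) u (by omega)
    split_ifs with h2
    · refine le_trans ?_
        (Nat.pow_le_pow_right (by omega) (show m + 1 + 1 + 1 ≤ 2 * (m + 1) by omega))
      rw [pow_succ u (m + 1 + 1)]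
      nlinarith
    · exact (Nat.sub_le _ _).trans (Nat.pow_le_pow_right (by omega) (by omega))

/- `F i = u ^ i + 1` for odd `i`, `u ^ i - 1` for even `i`; `(u ^ i - 1) (u ^ (i + 1) + 1) ≤
u ^ (2 i + 1)`, or simply `F i ≤ u ^ (i + 1)` for large `m`; `e ∣ u + 1 ∣ u ^ 2 - 1`. -/
theorem lt_2A (hv : v.Prime) (hg : 0 < g) (hm : 3 ≤ m)
    (hh : (h : ℤ) * Int.gcd m (((v ^ g : ℕ) : ℤ) + 1) = ((v ^ g : ℕ) : ℤ) ^ (m * (m - 1) / 2) *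
      ∏ i ∈ Icc 2 m, (((v ^ g : ℕ) : ℤ) ^ i - (-1) ^ i)) :
    LT h v g (m * (m - 1) / 2) (if m % 2 = 1 then 2 * m else 2 * (m - 1))
      ((Icc 2 m).image fun i => if i % 2 = 1 then 2 * i else i) := by
  have h1 : ∀ i, 1 ≤ (v ^ g) ^ i := fun i => Nat.one_le_pow _ _ (pow_pos hv.pos _)
  have h2 : ∀ i, (v ^ g) ^ i + 1 ∣ (v ^ g) ^ (2 * i) - 1 := fun i => by
    rw [pow_mul']
    exact ⟨_, Nat.sq_sub_sq _ 1⟩
  have h3 : Int.gcd m (((v ^ g : ℕ) : ℤ) + 1) ∣ v ^ g + 1 :=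
    Int.natCast_dvd_natCast.1 (Int.gcd_dvd_right _ _)
  refine LT.of_prod hv hg (Icc 2 m) (fun i => if i % 2 = 1 then (v ^ g) ^ i + 1 else (v ^ g) ^ i - 1)
    _ (Int.gcd_pos_of_ne_zero_left _ (by omega)) (fun h4 => hv.ne_one (Nat.dvd_one.1
      ((Nat.dvd_add_right (dvd_pow_self v hg.ne')).1 (h4.trans h3))))
    (Nat.cast_injective (R := ℤ) ?_) ?_ (fun i _ => ?_) ?_ (fun i hi => ?_) fun i hi h4 _ r hr => ?_
  · rw [Nat.cast_mul, hh, Nat.cast_mul, Nat.cast_pow, Nat.cast_prod]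
    refine congrArg _ (prod_congr rfl fun i _ => ?_)
    split_ifs with h4
    · simp [(Nat.odd_iff.2 h4).neg_one_pow]
    · simp [(Nat.even_iff.2 (by omega : i % 2 = 0)).neg_one_pow, Nat.cast_sub (h1 i)]
  · obtain ⟨k, rfl⟩ := Nat.exists_eq_add_of_le' (by omega : 1 ≤ m)
    rw [Nat.two_mul_div_two_of_even (Nat.even_mul_pred_self _)]
    exact lt_2A_aux (Nat.one_lt_pow hg.ne' hv.one_lt) k
  · split_ifs
    exacts [h2 i, dvd_rfl]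
  · split_ifs with h4
    · exact ⟨m, mem_Icc.2 (by omega), if_pos h4⟩
    · exact ⟨m - 1, mem_Icc.2 (by omega), if_pos (by omega)⟩
  · have := mem_Icc.1 hi
    split_ifs <;> omega
  · have := mem_Icc.1 hi
    refine ⟨?_, fun h5 => hr.not_dvd_lt hv.pos hg two_pos (by split_ifs at h4 ⊢ <;> omega)
      ((h5.trans h3).trans (by simpa using h2 1))⟩
    split_ifs at hr ⊢
    exacts [hr.dvd_add hv.pos hg (by omega), pow_mul v g i ▸ hr.dvd]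

theorem lt_B (hv : v.Prime) (hg : 0 < g) (hm : 2 ≤ m)
    (hh : (h : ℤ) * Int.gcd 2 (((v ^ g : ℕ) : ℤ) - 1) = ((v ^ g : ℕ) : ℤ) ^ (m * m) *
      ∏ i ∈ Icc 1 m, (((v ^ g : ℕ) : ℤ) ^ (2 * i) - 1)) :
    LT h v g (m * m) (2 * m) ((Icc 1 m).image fun i => 2 * i) := by
  have h1 : ∀ i, 1 ≤ (v ^ g) ^ i := fun i => Nat.one_le_pow _ _ (pow_pos hv.pos _)
  have h3 : Int.gcd 2 (((v ^ g : ℕ) : ℤ) - 1) ∣ v ^ g - 1 := Int.natCast_dvd_natCast.1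
    (Nat.cast_sub (R := ℤ) (Nat.one_le_pow g v hv.pos) ▸ Int.gcd_dvd_right _ _)
  refine LT.of_prod hv hg (Icc 1 m) (fun i => (v ^ g) ^ (2 * i) - 1) _
    (Int.gcd_pos_of_ne_zero_left _ two_ne_zero) (lt_A_aux hv hg h3)
    (Nat.cast_injective (R := ℤ) ?_)
    ((prod_le_pow_card _ _ ((v ^ g) ^ (2 * m)) fun i hi => (Nat.sub_le _ _).trans
      (Nat.pow_le_pow_right (pow_pos hv.pos _) (by have := mem_Icc.1 hi; omega))).trans_eq (by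
        rw [← pow_mul, Nat.card_Icc, mul_assoc]
        rfl))
    (fun _ _ => dvd_rfl) ⟨m, mem_Icc.2 (by omega), rfl⟩
    (fun i hi => by have := mem_Icc.1 hi; omega)
    fun i hi _ _ r hr => ⟨pow_mul v g _ ▸ hr.dvd, fun h4 => hr.not_dvd_lt hv.pos hg one_pos
      (by have := mem_Icc.1 hi; omega) ((pow_one (v ^ g)).symm ▸ h4.trans h3)⟩
  rw [Nat.cast_mul, hh, Nat.cast_mul, Nat.cast_pow, Nat.cast_prod]
  exact congrArg _ (prod_congr rfl fun i _ => by simp [Nat.cast_sub (h1 _)])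

theorem lt_D_aux (hv : v.Prime) (hg : 0 < g) (hm : 4 ≤ m) {x k D : ℕ} {c : ℤ}
    (hc : (x : ℤ) = ((v ^ g : ℕ) : ℤ) ^ m + c) (h1 : IsUnit c)
    (hh : (h : ℤ) * Int.gcd 4 x = ((v ^ g : ℕ) : ℤ) ^ (m * (m - 1)) * x *
      ∏ i ∈ Icc 1 (m - 1), (((v ^ g : ℕ) : ℤ) ^ (2 * i) - 1))
    (hk : x ∣ (v ^ g) ^ k - 1) (k0 : 0 < k) (k1 : k ≤ 2 * m) (d1 : k ≤ D) (d2 : 2 * (m - 1) ≤ D)
    (d3 : D = k ∨ D = 2 * (m - 1)) (hP : ∀ r, Prim v (g * k) r → r ∣ x) :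
    LT h v g (m * (m - 1)) D ((Icc 1 m).image fun i => if i = m then k else 2 * i) := by
  obtain ⟨n, rfl⟩ : ∃ n, m = n + 1 := ⟨m - 1, by omega⟩
  have u1 : 1 < v ^ g := Nat.one_lt_pow hg.ne' hv.one_lt
  have e4 : Int.gcd 4 x ∣ 4 := by exact_mod_cast Int.gcd_dvd_left 4 x
  have gs : ∀ n, ∑ i ∈ Icc 1 n, 2 * i = n * (n + 1) := fun n => by
    induction n with
    | zero => rfl
    | succ n ih => rw [sum_Icc_succ_top (by omega), ih]; ring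
  simp only [Nat.add_sub_cancel] at *
  refine LT.of_prod hv hg (Icc 1 (n + 1)) (fun i => if i = n + 1 then x else (v ^ g) ^ (2 * i) - 1) _
    (Nat.pos_of_dvd_of_pos e4 four_pos) (fun e => ?_) ?_ ?_ (fun i _ => by split_ifs; exacts [hk, dvd_rfl])
    (d3.elim (fun e => ⟨n + 1, by simp, by simp [e]⟩) fun e => ⟨n, by simp; omega, by simp [e]⟩)
    (fun i hi => by rw [mem_Icc] at hi; split_ifs <;> omega) fun i hi _ h3 r hr => ⟨?_, fun e => ?_⟩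
  · have a : (v : ℤ) ∣ x := (Int.natCast_dvd_natCast.2 e).trans (Int.gcd_dvd_right 4 x)
    rw [hc, dvd_add_right (by exact_mod_cast dvd_pow (dvd_pow_self v hg.ne') (by omega))] at a
    exact (Nat.prime_iff_prime_int.1 hv).not_isUnit (isUnit_of_dvd_unit a h1)
  · rw [prod_Icc_succ_top (by omega), if_pos rfl, prod_congr rfl fun i hi => if_neg (by
      rw [mem_Icc] at hi; omega)]
    have : ∀ i, (((v ^ g) ^ (2 * i) - 1 : ℕ) : ℤ) = ((v ^ g : ℕ) : ℤ) ^ (2 * i) - 1 := fun i => by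
      rw [Nat.cast_sub (Nat.one_le_pow _ _ (by omega)), Nat.cast_pow, Nat.cast_one]
    refine Int.natCast_inj.1 ?_
    rw [Nat.cast_mul, hh, Nat.cast_mul, Nat.cast_mul, Nat.cast_prod, Nat.cast_pow (v ^ g)]
    simp only [this]
    ring
  · refine (prod_le_prod' (g := fun i => (v ^ g) ^ (2 * i)) fun i _ => ?_).trans ?_
    · split_ifs with e
      · exact (Nat.le_of_dvd (Nat.sub_pos_of_lt (Nat.one_lt_pow k0.ne' u1)) hk).trans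
          ((Nat.sub_le _ _).trans (Nat.pow_le_pow_right (by omega) (e ▸ k1)))
      · exact Nat.sub_le _ _
    · rw [prod_pow_eq_pow_sum, gs]
      exact Nat.pow_le_pow_right (by omega) (by nlinarith)
  · split_ifs at hr ⊢
    · exact hP r hr
    · exact pow_mul v g _ ▸ hr.dvd
  · obtain rfl := (Nat.prime_dvd_prime_iff_eq hr.pr Nat.prime_two).1
      (hr.pr.dvd_of_dvd_pow (n := 2) (e.trans e4))
    have := Nat.le_of_dvd one_pos (hr.dvd_pred hv.pos (by omega))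
    omega

theorem lt_D (hv : v.Prime) (hg : 0 < g) (hm : 4 ≤ m)
    (hh : (h : ℤ) * Int.gcd 4 (((v ^ g : ℕ) : ℤ) ^ m - 1) = ((v ^ g : ℕ) : ℤ) ^ (m * (m - 1)) *
      (((v ^ g : ℕ) : ℤ) ^ m - 1) * ∏ i ∈ Icc 1 (m - 1), (((v ^ g : ℕ) : ℤ) ^ (2 * i) - 1)) :
    LT h v g (m * (m - 1)) (2 * (m - 1))
      ((Icc 1 m).image fun i => if i = m then m else 2 * i) := by
  have c : (((v ^ g) ^ m - 1 : ℕ) : ℤ) = ((v ^ g : ℕ) : ℤ) ^ m - 1 := by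
    rw [Nat.cast_sub (Nat.one_le_pow _ _ (pow_pos hv.pos _)), Nat.cast_pow, Nat.cast_one]
  exact lt_D_aux hv hg hm c isUnit_one.neg (c ▸ hh) dvd_rfl (by omega) (by omega) (by omega) le_rfl
    (Or.inr rfl) fun r hr => pow_mul v g _ ▸ hr.dvd

theorem lt_2D (hv : v.Prime) (hg : 0 < g) (hm : 4 ≤ m)
    (hh : (h : ℤ) * Int.gcd 4 (((v ^ g : ℕ) : ℤ) ^ m + 1) = ((v ^ g : ℕ) : ℤ) ^ (m * (m - 1)) *
      (((v ^ g : ℕ) : ℤ) ^ m + 1) * ∏ i ∈ Icc 1 (m - 1), (((v ^ g : ℕ) : ℤ) ^ (2 * i) - 1)) :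
    LT h v g (m * (m - 1)) (2 * m) ((Icc 1 m).image fun i => 2 * i) := by
  have c : (((v ^ g) ^ m + 1 : ℕ) : ℤ) = ((v ^ g : ℕ) : ℤ) ^ m + 1 := by
    rw [Nat.cast_add, Nat.cast_pow, Nat.cast_one]
  have := lt_D_aux hv hg hm (k := 2 * m) c isUnit_one (c ▸ hh)
    ⟨_, by rw [mul_comm 2, pow_mul, ← Nat.sq_sub_sq, one_pow]⟩ (by omega) le_rfl le_rfl (by omega)
    (Or.inl rfl) fun r hr => hr.dvd_add hv.pos hg (by omega)
  rwa [image_congr (g := fun i => 2 * i) fun i _ => by split_ifs with e <;> simp [e]] at this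

/-- The data of the exceptional families. -/
def excData : List (ℕ × ℕ × Finset ℕ) :=
  [(6, 6, {6, 2}), (24, 12, {12, 8, 6, 2}), (36, 12, {12, 9, 8, 6, 5, 2}),
    (36, 18, {12, 18, 8, 6, 10, 2}), (63, 18, {18, 14, 12, 10, 8, 6, 2}),
    (120, 30, {30, 24, 20, 18, 14, 12, 8, 2}), (12, 12, {12, 6, 2}), (2, 4, {4, 1}),
    (3, 6, {6, 1}), (12, 12, {12, 4, 6, 1})]

theorem lt_exc1_aux (hv : v.Prime) (hg : 0 < g) (d : ℤ) (N D : ℕ) (J : Finset ℕ)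
    (hh : (h : ℤ) * Int.gcd d (((v ^ g : ℕ) : ℤ) - 1) =
      ((v ^ g : ℕ) : ℤ) ^ N * ∏ i ∈ J, (((v ^ g : ℕ) : ℤ) ^ i - 1))
    (hs : ∑ i ∈ J, i ≤ 2 * N ∧ D ∈ J ∧ ∀ i ∈ J, 1 < i ∧ i ≤ D) : LT h v g N D J := by
  have h1 : 1 < v ^ g := Nat.one_lt_pow hg.ne' hv.one_lt
  have h2 : Int.gcd d (((v ^ g : ℕ) : ℤ) - 1) ∣ (v ^ g) ^ 1 - 1 := by
    rw [← Int.natCast_dvd_natCast, pow_one, Nat.cast_sub h1.le]
    exact Int.gcd_dvd_right _ _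
  have := LT.of_prod (h := h) (N := N) (D := D) hv hg J (fun i => (v ^ g) ^ i - 1) id
    (Nat.pos_of_dvd_of_pos h2 (by simpa using h1)) (fun h3 => ?_) ?_ ?_ (fun _ _ => dvd_rfl)
    ⟨D, hs.2.1, rfl⟩ (fun i hi => ⟨(hs.2.2 i hi).1.le, (hs.2.2 i hi).2⟩) fun i hi _ _ r hr =>
      ⟨pow_mul v g i ▸ hr.dvd, fun h3 =>
        hr.not_dvd_lt hv.one_le hg one_pos (hs.2.2 i hi).1 (h3.trans h2)⟩
  · rwa [image_id] at this
  · have h4 := Nat.dvd_sub (dvd_pow_self v hg.ne') (h3.trans h2)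
    rw [pow_one, Nat.sub_sub_self h1.le] at h4
    exact hv.not_dvd_one h4
  · refine Int.natCast_inj.1 ?_
    rw [Nat.cast_mul, hh, Nat.cast_mul, Nat.cast_prod, Nat.cast_pow (v ^ g)]
    exact congrArg _ (prod_congr rfl fun i _ => by
      rw [Nat.cast_sub (Nat.one_le_pow _ _ h1.le), Nat.cast_pow (v ^ g), Nat.cast_one])
  · refine (prod_le_prod' fun i _ => Nat.sub_le _ _).trans ?_
    rw [prod_pow_eq_pow_sum]
    exact Nat.pow_le_pow_right h1.le hs.1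

theorem lt_exc1 (hv : v.Prime) (hg : 0 < g) {u : ℤ} (hu : u = ((v ^ g : ℕ) : ℤ))
    (hh : (h : ℤ) = u ^ 6 * (u ^ 6 - 1) * (u ^ 2 - 1) ∨
      (h : ℤ) = u ^ 24 * (u ^ 12 - 1) * (u ^ 8 - 1) * (u ^ 6 - 1) * (u ^ 2 - 1) ∨
      (h : ℤ) * Int.gcd 3 (u - 1) = u ^ 36 * (u ^ 12 - 1) * (u ^ 9 - 1) * (u ^ 8 - 1) *
        (u ^ 6 - 1) * (u ^ 5 - 1) * (u ^ 2 - 1) ∨
      (h : ℤ) * Int.gcd 2 (u - 1) = u ^ 63 * (u ^ 18 - 1) * (u ^ 14 - 1) * (u ^ 12 - 1) *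
        (u ^ 10 - 1) * (u ^ 8 - 1) * (u ^ 6 - 1) * (u ^ 2 - 1) ∨
      (h : ℤ) = u ^ 120 * (u ^ 30 - 1) * (u ^ 24 - 1) * (u ^ 20 - 1) * (u ^ 18 - 1) *
        (u ^ 14 - 1) * (u ^ 12 - 1) * (u ^ 8 - 1) * (u ^ 2 - 1)) :
    ∃ x ∈ excData, LT h v g x.1 x.2.1 x.2.2 := by
  rcases hh with hh | hh | hh | hh | hh
  on_goal 1 => refine ⟨(6, 6, {6, 2}), by decide, lt_exc1_aux hv hg 1 _ _ _ ?_ (by decide)⟩
  on_goal 2 =>
    refine ⟨(24, 12, {12, 8, 6, 2}), by decide, lt_exc1_aux hv hg 1 _ _ _ ?_ (by decide)⟩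
  on_goal 3 =>
    refine ⟨(36, 12, {12, 9, 8, 6, 5, 2}), by decide, lt_exc1_aux hv hg 3 _ _ _ ?_ (by decide)⟩
  on_goal 4 => refine ⟨(63, 18, {18, 14, 12, 10, 8, 6, 2}), by decide,
    lt_exc1_aux hv hg 2 _ _ _ ?_ (by decide)⟩
  on_goal 5 => refine ⟨(120, 30, {30, 24, 20, 18, 14, 12, 8, 2}), by decide,
    lt_exc1_aux hv hg 1 _ _ _ ?_ (by decide)⟩
  all_goals
    rw [← hu]
    simp [hh, mul_assoc]

theorem lt_exc2_gen {e N D : ℕ} (hv : v.Prime) (hg : 0 < g) (J : Finset ℕ) (F w : ℕ → ℕ)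
    (he : e ∣ v ^ g + 1) (hh : h * e = (v ^ g) ^ N * ∏ i ∈ J, F i)
    (hF : ∀ i ∈ J, F i ≤ (v ^ g) ^ w i ∧ F i ∣ (v ^ g) ^ i - 1 ∧ ∀ r, Prim v (g * i) r → r ∣ F i)
    (hc : ∑ i ∈ J, w i ≤ 2 * N ∧ D ∈ J ∧ 3 ≤ D ∧ ∀ i ∈ J, 0 < i ∧ i ≤ D) : LT h v g N D J := by
  have h0 := LT.of_prod (D := D) hv hg J F id (Nat.pos_of_dvd_of_pos he (Nat.succ_pos _))
    (fun e1 => hv.one_lt.ne' (Nat.dvd_one.1 ((Nat.dvd_add_right (dvd_pow_self v hg.ne')).1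
      (e1.trans he)))) hh
    ((prod_le_prod' fun i hi => (hF i hi).1).trans ((prod_pow_eq_pow_sum _ _ _).trans_le
      (Nat.pow_le_pow_right (Nat.pow_pos hv.pos) hc.1))) (fun i hi => (hF i hi).2.1)
    ⟨D, hc.2.1, rfl⟩ hc.2.2.2 fun i hi h3 _ r hr => ⟨(hF i hi).2.2 r hr, fun e1 =>
      hr.not_dvd_lt hv.pos hg two_pos (h3.elim id fun e2 => e2 ▸ hc.2.2.1)
        ((e1.trans he).trans ⟨_, Nat.sq_sub_sq _ 1⟩)⟩
  rwa [image_id] at h0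

theorem lt_exc2_sub (i : ℕ) : (v ^ g) ^ i - 1 ≤ (v ^ g) ^ i ∧ (v ^ g) ^ i - 1 ∣ (v ^ g) ^ i - 1 ∧
    ∀ r, Prim v (g * i) r → r ∣ (v ^ g) ^ i - 1 :=
  ⟨Nat.sub_le _ _, dvd_rfl, fun _ hr => pow_mul v g i ▸ hr.dvd⟩

theorem lt_exc2_add (hv : v.Prime) (hg : 0 < g) (i : ℕ) (hi : 0 < i) :
    (v ^ g) ^ i + 1 ≤ (v ^ g) ^ (i + 1) ∧ (v ^ g) ^ i + 1 ∣ (v ^ g) ^ (2 * i) - 1 ∧
      ∀ r, Prim v (g * (2 * i)) r → r ∣ (v ^ g) ^ i + 1 := by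
  have h1 : 1 < v ^ g := Nat.one_lt_pow hg.ne' hv.one_lt
  have h2 : 0 < (v ^ g) ^ i := Nat.pow_pos (by omega)
  refine ⟨by rw [pow_succ]; nlinarith, ⟨(v ^ g) ^ i - 1, ?_⟩, fun r => Prim.dvd_add hv.pos hg hi⟩
  rw [mul_comm 2, pow_mul]
  exact Nat.sq_sub_sq _ 1

theorem lt_exc2_tri (hv : v.Prime) (hg : 0 < g) :
    (v ^ g) ^ 8 + (v ^ g) ^ 4 + 1 ≤ (v ^ g) ^ 12 ∧
      (v ^ g) ^ 8 + (v ^ g) ^ 4 + 1 ∣ (v ^ g) ^ 12 - 1 ∧
      ∀ r, Prim v (g * 12) r → r ∣ (v ^ g) ^ 8 + (v ^ g) ^ 4 + 1 := by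
  have h1 : 1 < (v ^ g) ^ 4 := Nat.one_lt_pow four_ne_zero (Nat.one_lt_pow hg.ne' hv.one_lt)
  have h2 : (v ^ g) ^ 12 - 1 = ((v ^ g) ^ 8 + (v ^ g) ^ 4 + 1) * ((v ^ g) ^ 4 - 1) := by
    zify [h1.le, Nat.one_le_pow 12 _ (Nat.pow_pos hv.pos : 0 < v ^ g)]
    ring
  refine ⟨(Nat.le_mul_of_pos_right _ (Nat.sub_pos_of_lt h1)).trans (h2 ▸ Nat.sub_le _ _),
    ⟨_, h2⟩, fun r hr => ((Nat.Prime.dvd_mul hr.pr).1 (h2 ▸ (lt_exc2_sub 12).2.2 r hr)).elim id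
      fun e => (hr.not_dvd_lt hv.pos hg four_pos (by omega) e).elim⟩

/- As `lt_exc1`; `u ^ 8 + u ^ 4 + 1 = (u ^ 12 - 1) / (u ^ 4 - 1)`, `Prim.dvd_add`. -/
theorem lt_exc2 (hv : v.Prime) (hg : 0 < g) {u : ℤ} (hu : u = ((v ^ g : ℕ) : ℤ))
    (hh : (h : ℤ) * Int.gcd 3 (u + 1) = u ^ 36 * (u ^ 12 - 1) * (u ^ 9 + 1) * (u ^ 8 - 1) *
        (u ^ 6 - 1) * (u ^ 5 + 1) * (u ^ 2 - 1) ∨
      (h : ℤ) = u ^ 12 * (u ^ 8 + u ^ 4 + 1) * (u ^ 6 - 1) * (u ^ 2 - 1) ∨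
      (h : ℤ) = u ^ 2 * (u ^ 2 + 1) * (u - 1) ∨
      (h : ℤ) = u ^ 3 * (u ^ 3 + 1) * (u - 1) ∨
      (h : ℤ) = u ^ 12 * (u ^ 6 + 1) * (u ^ 4 - 1) * (u ^ 3 + 1) * (u - 1)) :
    ∃ x ∈ excData, LT h v g x.1 x.2.1 x.2.2 := by
  have hc : ∀ i, (((v ^ g) ^ i - 1 : ℕ) : ℤ) = u ^ i - 1 := fun i => by
    rw [Nat.cast_sub (Nat.one_le_pow _ _ (Nat.pow_pos hv.pos)), hu, Nat.cast_pow (v ^ g),
      Nat.cast_one]
  have hd : ∀ i, (((v ^ g) ^ i + 1 : ℕ) : ℤ) = u ^ i + 1 := fun i => by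
    rw [Nat.cast_succ, hu, Nat.cast_pow (v ^ g)]
  have hp : ∀ i, (((v ^ g) ^ i : ℕ) : ℤ) = u ^ i := fun i => by rw [hu, Nat.cast_pow (v ^ g)]
  have hA := lt_exc2_add hv hg
  rcases hh with hh | hh | hh | hh | hh
  · refine ⟨(36, 18, {12, 18, 8, 6, 10, 2}), by decide, lt_exc2_gen (e := Int.gcd 3 (u + 1)) hv hg _
      (fun i => if i = 18 ∨ i = 10 then (v ^ g) ^ (i / 2) + 1 else (v ^ g) ^ i - 1)
      (fun i => if i = 18 ∨ i = 10 then i / 2 + 1 else i) ?_ ?_ ?_ (by decide)⟩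
    · exact Int.natCast_dvd_natCast.1 (by rw [Nat.cast_succ, ← hu]; exact Int.gcd_dvd_right _ _)
    · refine Nat.cast_injective (R := ℤ) ?_
      repeat rw [prod_insert (by decide)]
      simp (decide := true) only [prod_singleton, if_true, if_false, Nat.cast_mul, hc, hd, hp, hh]
      ring
    · simp only [mem_insert, mem_singleton]
      rintro _ (rfl | rfl | rfl | rfl | rfl | rfl)
      exacts [lt_exc2_sub _, hA 9 (by omega), lt_exc2_sub _, lt_exc2_sub _, hA 5 (by omega),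
        lt_exc2_sub _]
  · refine ⟨(12, 12, {12, 6, 2}), by decide, lt_exc2_gen (e := 1) hv hg _
      (fun i => if i = 12 then (v ^ g) ^ 8 + (v ^ g) ^ 4 + 1 else (v ^ g) ^ i - 1) id (one_dvd _)
      ?_ ?_ (by decide)⟩
    · refine Nat.cast_injective (R := ℤ) ?_
      repeat rw [prod_insert (by decide)]
      simp (decide := true) only [prod_singleton, if_true, if_false, Nat.cast_mul, hc, Nat.cast_add,
        Nat.cast_one, hp, hh]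
      ring
    · simp only [mem_insert, mem_singleton]
      rintro _ (rfl | rfl | rfl)
      exacts [lt_exc2_tri hv hg, lt_exc2_sub _, lt_exc2_sub _]
  · refine ⟨(2, 4, {4, 1}), by decide, lt_exc2_gen (e := 1) hv hg _
      (fun i => if i = 4 then (v ^ g) ^ 2 + 1 else (v ^ g) ^ i - 1)
      (fun i => if i = 4 then 3 else i) (one_dvd _) ?_ ?_ (by decide)⟩
    · refine Nat.cast_injective (R := ℤ) ?_
      repeat rw [prod_insert (by decide)]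
      simp (decide := true) only [prod_singleton, if_true, if_false, Nat.cast_mul, hc, hd, hp, hh]
      ring
    · simp only [mem_insert, mem_singleton]
      rintro _ (rfl | rfl)
      exacts [hA 2 (by omega), lt_exc2_sub _]
  · refine ⟨(3, 6, {6, 1}), by decide, lt_exc2_gen (e := 1) hv hg _
      (fun i => if i = 6 then (v ^ g) ^ 3 + 1 else (v ^ g) ^ i - 1)
      (fun i => if i = 6 then 4 else i) (one_dvd _) ?_ ?_ (by decide)⟩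
    · refine Nat.cast_injective (R := ℤ) ?_
      repeat rw [prod_insert (by decide)]
      simp (decide := true) only [prod_singleton, if_true, if_false, Nat.cast_mul, hc, hd, hp, hh]
      ring
    · simp only [mem_insert, mem_singleton]
      rintro _ (rfl | rfl)
      exacts [hA 3 (by omega), lt_exc2_sub _]
  · refine ⟨(12, 12, {12, 4, 6, 1}), by decide, lt_exc2_gen (e := 1) hv hg _
      (fun i => if i = 12 ∨ i = 6 then (v ^ g) ^ (i / 2) + 1 else (v ^ g) ^ i - 1)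
      (fun i => if i = 12 ∨ i = 6 then i / 2 + 1 else i) (one_dvd _) ?_ ?_ (by decide)⟩
    · refine Nat.cast_injective (R := ℤ) ?_
      repeat rw [prod_insert (by decide)]
      simp (decide := true) only [prod_singleton, if_true, if_false, Nat.cast_mul, hc, hd, hp, hh]
      ring
    · simp only [mem_insert, mem_singleton]
      rintro _ (rfl | rfl | rfl | rfl)
      exacts [hA 6 (by omega), lt_exc2_sub _, hA 3 (by omega), lt_exc2_sub _]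

end Pool.Agent.Lib.MP_7d41f7_al
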