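import Pool.Agent.Lib.MP_7d41f7_al.L.SLin

set_option autoImplicit false

namespace Pool.Agent.Lib.MP_7d41f7_al

open Finset Module Subgroup

/-- A power of a lift of the element of order `u * r` has order `r`. -/
theorem lift_adj {G : Type} [Group G] [Finite G] {u r : ℕ} (hu : u.Prime) (hr : r.Prime)
    (hur : u ≠ r) (hZ : ¬ r ∣ Nat.card (center G)) (h : Adj (G ⧸ center G) u r) :
    ∃ x : G, orderOf x = r ∧ u * Nat.card (center G) ∣ Nat.card (centralizer ({x} : Set G)) := by
  obtain ⟨g, hg⟩ := h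
  obtain ⟨w, rfl⟩ := QuotientGroup.mk'_surjective _ g
  have h1 : r ∣ orderOf w := (hg ▸ Dvd.intro_left u rfl).trans (orderOf_map_dvd _ w)
  refine ⟨w ^ (orderOf w / r), orderOf_pow_orderOf_div (orderOf_pos w).ne' h1, ?_⟩
  set C := centralizer ({w ^ (orderOf w / r)} : Set G)
  have hw : w ∈ C := mem_centralizer_singleton_iff.2 (Commute.self_pow w _).eq
  rw [← (center G).subgroupOf C |>.index_mul_card,
    Nat.card_congr (subgroupOfEquivOfLe (center_le_centralizer _)).toEquiv]
  refine mul_dvd_mul_right ?_ _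
  have h2 : (center G).subgroupOf C = ((QuotientGroup.mk' (center G)).comp C.subtype).ker := by
    rw [← MonoidHom.comap_ker, QuotientGroup.ker_mk']
    rfl
  rw [h2, index_ker]
  exact (hg ▸ Dvd.intro r rfl).trans (Subgroup.orderOf_dvd_natCard _ ⟨⟨w, hw⟩, rfl⟩)

/-- The order of a group that acts freely divides the number of points. -/
theorem free_dvd {G X : Type} [Group G] [Finite G] [Finite X] [MulAction G X]
    (h : ∀ (g : G) (a : X), g • a = a → g = 1) : Nat.card G ∣ Nat.card X := by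
  rw [Nat.card_congr (MulAction.selfEquivOrbitsQuotientProd (G := G) (X := X) fun a =>
    eq_bot_iff.2 fun g hg => h g a hg), Nat.card_prod]
  exact Dvd.intro_left _ rfl

theorem scenb_free {F V C : Type} [Field F] [Finite F] [AddCommGroup V] [Module F V] [Finite V]
    [Group C] [Finite C] {m r : ℕ} {x : End F V} (h : Prim (Nat.card F) m r) (hm : 0 < m)
    (hx : x ^ r = 1) (h1 : x ≠ 1) (hV : finrank F V < 2 * m) (φ : C →* End F V)
    (hφ : ∀ c, φ c * x = x * φ c)
    (hc : ∀ c, (∀ v ∈ LinearMap.range (x - 1), φ c v = v) → c = 1) :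
    Nat.card C ∣ Nat.card F ^ m - 1 := by
  let := MulAction.compHom V φ
  let S : SubMulAction C V := ⟨(LinearMap.range (x - 1) : Set V) \ {0}, by
    rintro c _ ⟨⟨w, rfl⟩, h0⟩
    refine ⟨⟨φ c w, ?_⟩, fun e => h0 (by rw [← inv_smul_smul c ((x - 1) w), e]; exact map_zero (φ _))⟩
    change ((x - 1) * φ c) w = (φ c * (x - 1)) w
    rw [sub_mul, mul_sub, hφ, one_mul, mul_one]⟩
  have := free_dvd (G := C) (X := S) fun c a e =>
    hc c (lin_fix h hm hx hV (hφ c) a.2.1 a.2.2 (congrArg Subtype.val e))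
  rwa [show Nat.card S = ((LinearMap.range (x - 1) : Set V) \ {0}).ncard from rfl,
    Set.ncard_sdiff_singleton_of_mem (by simp), ← Nat.card_coe_set_eq, SetLike.coe_sort_coe,
    Module.natCard_eq_pow_finrank (K := F) (V := LinearMap.range (x - 1)),
    (lin_rank h hm hx h1 hV).1] at this

variable {n r : ℕ} {F : Type} [Field F] [Finite F] {x : SLn n F}

omit [Finite F] in
theorem scenb_ord (hr : r.Prime) (hx : orderOf x = r) :
    Matrix.toLinAlgEquiv' x.1 ^ r = 1 ∧ Matrix.toLinAlgEquiv' x.1 ≠ 1 := by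
  refine ⟨?_, fun e => hr.ne_one ?_⟩
  · rw [← map_pow, ← Matrix.SpecialLinearGroup.coe_pow, ← hx, pow_orderOf_eq_one]
    exact map_one _
  · rw [← hx, orderOf_eq_one_iff]
    exact Subtype.ext (Matrix.toLinAlgEquiv'.injective (e.trans (map_one _).symm))

/-- The centraliser in `GL` acts freely on nonzero vectors and the determinant is onto. -/
theorem cen1 (hn : 0 < n) (h : Prim (Nat.card F) n r) (hx : orderOf x = r) :
    Nat.card (centralizer ({x} : Set (SLn n F))) * (Nat.card F - 1) ∣ Nat.card F ^ n - 1 := by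
  obtain ⟨x1, x2⟩ := scenb_ord h.pr hx
  have hV : finrank F (Fin n → F) < 2 * n := by rw [finrank_fin_fun]; omega
  let C := centralizer ({Matrix.SpecialLinearGroup.toGL x} : Set (GL (Fin n) F))
  let d : C →* Fˣ := Matrix.GeneralLinearGroup.det.comp C.subtype
  have h1 : Nat.card C ∣ _ := scenb_free h hn x1 x2 hV
    ((Matrix.toLinAlgEquiv'.toAlgHom.toMonoidHom.comp (Units.coeHom _)).comp C.subtype)
    (fun c => (map_mul Matrix.toLinAlgEquiv' _ _).symm.trans <|
      (congrArg (fun g : GL (Fin n) F => Matrix.toLinAlgEquiv' g.1)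
        (mem_centralizer_singleton_iff.1 c.2)).trans (map_mul _ _ _))
    fun c hc => Subtype.ext (Units.ext (Matrix.toLinAlgEquiv'.injective ((LinearMap.ext fun v =>
      hc v (by
        rw [Submodule.eq_top_of_finrank_eq ((lin_rank h hn x1 x2 hV).1.trans
          (finrank_fin_fun F).symm)]
        trivial)).trans (map_one _).symm)))
  have h2 : d.range = ⊤ := eq_top_iff.2 fun c _ => by
    obtain ⟨y, y1, y2⟩ := lin_det h hn x1 x2 (finrank_fin_fun F) c
    obtain ⟨y, rfl⟩ := Matrix.toLinAlgEquiv'.surjective y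
    have y3 : y.det = c := (LinearMap.det_toLin' y).symm.trans y2
    rw [← map_mul, ← map_mul] at y1
    exact ⟨⟨Matrix.GeneralLinearGroup.mkOfDetNeZero y (y3 ▸ c.ne_zero),
      mem_centralizer_singleton_iff.2 (Units.ext (Matrix.toLinAlgEquiv'.injective y1))⟩,
      Units.ext y3⟩
  have h3 : Nat.card (centralizer ({x} : Set (SLn n F))) = Nat.card d.ker :=
    Nat.card_eq_of_bijective (fun c => ⟨⟨Matrix.SpecialLinearGroup.toGL c.1,
      mem_centralizer_singleton_iff.2 (by
        rw [← map_mul, ← map_mul, mem_centralizer_singleton_iff.1 c.2])⟩, Units.ext c.1.2⟩)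
      ⟨fun a b e => Subtype.ext (Matrix.SpecialLinearGroup.toGL_injective
        (congrArg (fun g => g.1.1) e)), fun g => ⟨⟨⟨g.1.1.1, congrArg Units.val g.2⟩,
          mem_centralizer_singleton_iff.2 (Subtype.ext (congrArg Units.val
            (mem_centralizer_singleton_iff.1 g.1.2)))⟩, Subtype.ext (Subtype.ext (Units.ext rfl))⟩⟩
  rwa [← d.ker.card_mul_index, index_ker, h2, card_top, Nat.card_units, ← h3] at h1

/-- The centraliser acts freely on the nonzero vectors of the hyperplane `range (x - 1)`. -/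
theorem cen2 (hn : 3 ≤ n) (h : Prim (Nat.card F) (n - 1) r) (hx : orderOf x = r) :
    Nat.card (centralizer ({x} : Set (SLn n F))) ∣ Nat.card F ^ (n - 1) - 1 := by
  obtain ⟨x1, x2⟩ := scenb_ord h.pr hx
  have hV : finrank F (Fin n → F) < 2 * (n - 1) := by rw [finrank_fin_fun]; omega
  have hm : 0 < n - 1 := by omega
  have hφ : ∀ c : centralizer ({x} : Set (SLn n F)), Matrix.toLinAlgEquiv' c.1.1 *
      Matrix.toLinAlgEquiv' x.1 = Matrix.toLinAlgEquiv' x.1 * Matrix.toLinAlgEquiv' c.1.1 :=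
    fun c => (map_mul Matrix.toLinAlgEquiv' _ _).symm.trans <|
      (congrArg (fun g : SLn n F => Matrix.toLinAlgEquiv' g.1)
        (mem_centralizer_singleton_iff.1 c.2)).trans (map_mul _ _ _)
  refine scenb_free h hm x1 x2 hV ((Matrix.toLinAlgEquiv'.toAlgHom.toMonoidHom.comp
    Matrix.SpecialLinearGroup.coeMonoidHom).comp (Subgroup.subtype _)) hφ fun c hc => ?_
  have hd : LinearMap.det (Matrix.toLinAlgEquiv' c.1.1) = 1 := (LinearMap.det_toLin' _).trans c.1.2
  refine Subtype.ext (Subtype.ext (Matrix.toLinAlgEquiv'.injective (.trans ?_ (map_one _).symm)))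
  replace hφ := hφ c
  change ∀ v ∈ _, Matrix.toLinAlgEquiv' c.1.1 v = v at hc
  generalize Matrix.toLinAlgEquiv' c.1.1 = y at *
  generalize Matrix.toLinAlgEquiv' x.1 = z at *
  have h1 := (lin_rank h hm x1 x2 hV).2
  have h2 := (lin_compl h hm x1).sup_eq_top
  rw [finrank_fin_fun] at h1
  have hK : LinearMap.ker (z - 1) ≤ (LinearMap.ker (z - 1)).comap y := fun v hv => by
    change ((z - 1) * y) v = 0
    rw [sub_mul, ← hφ, one_mul, ← mul_sub_one, End.mul_apply, LinearMap.mem_ker.1 hv, map_zero]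
  have h3 : (LinearMap.ker (z - 1)).mapQ _ y hK = LinearMap.id := Submodule.linearMap_qext _ <|
    LinearMap.ext fun v => by
      obtain ⟨a, ha, b, hb, rfl⟩ := Submodule.mem_sup.1 (h2 ▸ Submodule.mem_top (x := v))
      refine (Submodule.Quotient.eq _).2 ?_
      rw [map_add, hc b hb, add_sub_add_right_eq_sub]
      exact sub_mem (hK ha) ha
  obtain ⟨t, ht, -⟩ :=
    LinearMap.existsUnique_eq_smul_id_of_finrank_eq_one (by omega) (y.restrict hK)
  rw [y.det_eq_det_mul_det _ hK, h3, ht, LinearMap.det_smul, LinearMap.det_id, LinearMap.det_id,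
    show finrank F (LinearMap.ker (z - 1)) = 1 by omega, pow_one, mul_one, mul_one] at hd
  refine LinearMap.ext fun v => ?_
  obtain ⟨a, ha, b, hb, rfl⟩ := Submodule.mem_sup.1 (h2 ▸ Submodule.mem_top (x := v))
  have := congrArg Subtype.val (LinearMap.congr_fun ht ⟨a, ha⟩)
  rw [hd, one_smul] at this
  rw [map_add, hc b hb]
  exact congrArg (· + b) this

end Pool.Agent.Lib.MP_7d41f7_al
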