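import Pool.Agent.Lib.MP_7d41f7_al.L.Defs

/-! Primes with cyclic Sylow subgroups and normal subgroups. -/

set_option autoImplicit false

namespace Pool.Agent.Lib.MP_7d41f7_al

open Subgroup

/-- Some prime `u` is not adjacent to `r` and the `u`-part of the order is not `1` modulo `r`. -/
def Tight (G : Type) [Group G] (r : ℕ) : Prop :=
  ∃ u, u.Prime ∧ u ≠ r ∧ ¬ Adj G u r ∧ ¬ u ^ (Nat.card G).factorization u ≡ 1 [MOD r]

variable {G : Type} [Group G] [Finite G] {r s u : ℕ}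

omit [Finite G] in
theorem Adj.symm (h : Adj G u r) : Adj G r u := h.imp fun _ e => e.trans (mul_comm _ _)

theorem adj_of_dvd {g : G} (h : u * r ∣ orderOf g) : Adj G u r :=
  ⟨g ^ (orderOf g / (u * r)), orderOf_pow_orderOf_div (orderOf_pos g).ne' h⟩

theorem adj_of_commute (hu : u.Prime) (hr : r.Prime) (hne : u ≠ r) {x y : G} (hx : u ∣ orderOf x)
    (hy : r ∣ orderOf y) (h : Commute x y) : Adj G u r := by
  have h1 := orderOf_pow_orderOf_div (orderOf_pos x).ne' hx
  have h2 := orderOf_pow_orderOf_div (orderOf_pos y).ne' hy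
  exact ⟨_, ((h.pow_pow _ _).orderOf_mul_eq_mul_orderOf_of_coprime
    (by rw [h1, h2]; exact (Nat.coprime_primes hu hr).2 hne)).trans (by rw [h1, h2])⟩

theorem Adj.of_surj {H : Type} [Group H] {φ : G →* H} (hφ : Function.Surjective φ)
    (h : Adj H u r) : Adj G u r := by
  obtain ⟨y, hy⟩ := h
  obtain ⟨x, rfl⟩ := hφ y
  exact adj_of_dvd (hy ▸ orderOf_map_dvd φ x)

theorem Cyc.of_surj {H : Type} [Group H] {φ : G →* H} (hφ : Function.Surjective φ) (hr : r.Prime)
    (h : Cyc G r) : Cyc H r := fun P => by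
  have := Fact.mk hr
  obtain ⟨Q, rfl⟩ := Sylow.mapSurjective_surjective hφ r P
  have := h Q
  exact isCyclic_of_surjective _ (φ.subgroupMap_surjective Q)

theorem Cyc.conj_aux1 [IsCyclic G] (hr : 0 < r) {x y : G} (ox : orderOf x = r)
    (oy : orderOf y = r) : y ∈ zpowers x := by
  let _ : CommGroup G := IsCyclic.commGroup
  have h : zpowers x = (powMonoidHom r : G →* G).ker := eq_of_le_of_card_ge
    (zpowers_le.2 (ox ▸ pow_orderOf_eq_one x)) (by
      rw [IsCyclic.card_powMonoidHom_ker, Nat.card_zpowers, ox]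
      exact Nat.gcd_le_right _ hr)
  rw [h]
  exact oy ▸ pow_orderOf_eq_one y

theorem Cyc.conj (hr : r.Prime) (h : Cyc G r) (M : Subgroup G) {x y : G} (hx : x ∈ M) (hy : y ∈ M)
    (ox : orderOf x = r) (oy : orderOf y = r) : ∃ m ∈ M, m * y * m⁻¹ ∈ zpowers x := by
  have := Fact.mk hr
  have key : ∀ z : M, orderOf (z : G) = r → ∃ P : Sylow r M, z ∈ P := fun z oz => by
    obtain ⟨P, hP⟩ := (IsPGroup.of_card (p := r) (G := zpowers z) (n := 1)
      (by rw [Nat.card_zpowers, ← orderOf_coe, oz, pow_one])).exists_le_sylow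
    exact ⟨P, hP (mem_zpowers z)⟩
  obtain ⟨P, hP⟩ := key ⟨x, hx⟩ ox
  obtain ⟨Q, hQ⟩ := key ⟨y, hy⟩ oy
  obtain ⟨m, rfl⟩ := MulAction.exists_smul_eq M Q P
  obtain ⟨S, hS⟩ := ((m • Q).isPGroup'.map M.subtype).exists_le_sylow
  have := h S
  have h1 : x ∈ S := hS ⟨_, hP, rfl⟩
  have h2 : (m : G) * y * (m : G)⁻¹ ∈ S :=
    hS ⟨m * ⟨y, hy⟩ * m⁻¹, smul_mem_pointwise_smul _ (MulAut.conj m) _ hQ, rfl⟩
  obtain ⟨k, hk⟩ := Cyc.conj_aux1 (G := (S : Subgroup G)) hr.pos (x := ⟨x, h1⟩) (y := ⟨_, h2⟩)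
    (by rw [← orderOf_coe, ox])
    ((orderOf_coe _).symm.trans (((MulAut.conj (m : G)).orderOf_eq y).trans oy))
  exact ⟨m, m.2, k, congrArg Subtype.val hk⟩

theorem free_mod (N : Subgroup G) [N.Normal] (hr : r.Prime) (hG : r ∣ Nat.card G)
    (hN : ¬ r ∣ Nat.card N) (hu : u.Prime) (hne : u ≠ r) (ha : ¬ Adj G u r) :
    u ^ (Nat.card N).factorization u ≡ 1 [MOD r] := by
  have := Fact.mk hu
  have := Fact.mk hr
  obtain ⟨P⟩ : Nonempty (Sylow u N) := inferInstance
  have h1 := P.normalizer_sup_eq_top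
  have hQ : Nat.card (P.map N.subtype) = u ^ (Nat.card N).factorization u := by
    rw [card_map_of_injective N.subtype_injective, P.card_eq_multiplicity]
  generalize (P : Subgroup N).map N.subtype = Q at h1 hQ
  have h2 : r ∣ Nat.card (normalizer (Q : Set G)) := by
    rw [← N.card_mul_index, ← relIndex_top_right, ← h1, relIndex_sup_right] at hG
    exact ((hr.dvd_mul.1 hG).resolve_left hN).trans (relIndex_dvd_card _ _)
  obtain ⟨x, hx⟩ := exists_prime_orderOf_dvd_card' r h2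
  have h3 : IsPGroup r (zpowers x) := IsPGroup.of_card (n := 1) (by
    rw [Nat.card_zpowers, hx, pow_one])
  have h4 : MulAction.fixedPoints (zpowers x) Q = {1} := by
    refine Set.eq_singleton_iff_unique_mem.2 ⟨fun g => smul_one g, fun y hy => ?_⟩
    have h5 : (x : G) * y * (x : G)⁻¹ = y := congrArg Subtype.val (hy ⟨x, mem_zpowers x⟩)
    obtain ⟨k, -, hk⟩ := (Nat.dvd_prime_pow hu).1 (hQ ▸ orderOf_dvd_natCard y)
    cases k with
    | zero => exact orderOf_eq_one_iff.1 hk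
    | succ k =>
      refine absurd (adj_of_commute (x := (y : G)) (y := (x : G)) hu hr hne ?_ ?_
        (mul_inv_eq_iff_eq_mul.1 h5).symm) ha
      · rw [orderOf_coe, hk]
        exact dvd_pow_self u k.succ_ne_zero
      · rw [orderOf_coe, hx]
  have h6 := h3.card_modEq_card_fixedPoints Q
  rwa [h4, Nat.card_unique (α := ({1} : Set Q)), hQ] at h6

theorem dvd_of_tight (N : Subgroup G) [N.Normal] (hc : commutator G ≤ N) (hr : r.Prime)
    (hG : r ∣ Nat.card G) (ht : Tight G r) : r ∣ Nat.card N := by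
  by_contra hN
  obtain ⟨u, hu, hne, ha, hm⟩ := ht
  have := Fact.mk hu
  have := Fact.mk hr
  have h1 : r ∣ N.index := (hr.dvd_mul.1 (N.card_mul_index ▸ hG)).resolve_left hN
  have h2 : ¬ u ∣ N.index := fun h => by
    obtain ⟨x, hx⟩ := exists_prime_orderOf_dvd_card' (G := G ⧸ N) u h
    obtain ⟨y, hy⟩ := exists_prime_orderOf_dvd_card' (G := G ⧸ N) r h1
    exact ha (Adj.of_surj (QuotientGroup.mk'_surjective N) (adj_of_commute hu hr hne hx.symm.dvd
      hy.symm.dvd ((Normal.quotient_commutative_iff_commutator_le.2 hc).is_comm.comm x y)))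
  apply hm
  rw [← N.card_mul_index, Nat.factorization_mul Nat.card_pos.ne' N.index_ne_zero_of_finite,
    Finsupp.add_apply, Nat.factorization_eq_zero_of_not_dvd h2, add_zero]
  exact free_mod N hr hG hN hu hne ha

/- `x ∈ M` of order `r`, `X = zpowers x`. By `Cyc.conj` every `g` is `m⁻¹ n` with `m ∈ M` and `n`
normalising `X`. `L = M ⊔ centralizer {x}` is normal; the normaliser of `X` maps onto `G ⧸ L`
through `MulAut X` (`Subgroup.normalizerMonoidHom`, kernel the centraliser), which is cyclic of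
order `r - 1` (`IsCyclic.card_mulAut`, `IsCyclic.mulAutMulEquiv`, `ZMod.isCyclic_units_prime`);
`M.relIndex L` divides the order of the centraliser, Cauchy and `adj_of_commute`. -/
theorem exists_top (M : Subgroup G) [M.Normal] (hr : r.Prime) (hc : Cyc G r)
    (hM : r ∣ Nat.card M) : ∃ L : Subgroup G, L.Normal ∧ M ≤ L ∧ commutator G ≤ L ∧
      L.index ∣ r - 1 ∧ ∀ u, u.Prime → u ∣ M.relIndex L → u = r ∨ Adj G u r := by
  have : Fact r.Prime := ⟨hr⟩
  obtain ⟨⟨x, hx⟩, ox⟩ := exists_prime_orderOf_dvd_card' r hM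
  have ox' : orderOf x = r := by rw [← ox]; exact Subgroup.orderOf_mk x hx |>.symm
  set X : Subgroup G := zpowers x with hX
  set N : Subgroup G := normalizer (X : Set G) with hN
  set C : Subgroup G := centralizer (X : Set G) with hC
  have hdec : ∀ g : G, ∃ m ∈ M, ∃ n ∈ N, g = m * n := by
    intro g
    obtain ⟨m, hm, h⟩ := hc.conj hr M hx (‹M.Normal›.conj_mem x hx g) ox'
      (by rw [← ox']; exact (MulAut.conj g).orderOf_eq x)
    refine ⟨m⁻¹, M.inv_mem hm, m * g, ?_, by group⟩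
    refine Subgroup.mem_normalizer_fintype fun y hy => ?_
    obtain ⟨k, rfl⟩ := mem_zpowers_iff.1 hy
    have e : m * g * x ^ k * (m * g)⁻¹ = (m * (g * x * g⁻¹) * m⁻¹) ^ k := by
      rw [← conj_zpow]; congr 1; group
    rw [e]
    exact X.zpow_mem h k
  have hCN : ∀ n ∈ N, ∀ c ∈ C, n * c * n⁻¹ ∈ C := by
    intro n hn c hc' y hy
    have h1 : n⁻¹ * y * n⁻¹⁻¹ ∈ (X : Set G) := (mem_set_normalizer_iff.1 (N.inv_mem hn) y).1 hy
    have h2 := hc' _ h1
    calc y * (n * c * n⁻¹) = n * ((n⁻¹ * y * n⁻¹⁻¹) * c) * n⁻¹ := by group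
      _ = n * (c * (n⁻¹ * y * n⁻¹⁻¹)) * n⁻¹ := by rw [h2]
      _ = n * c * n⁻¹ * y := by group
  have hL : (M ⊔ C).Normal := by
    refine ⟨fun l hl g => ?_⟩
    obtain ⟨a, ha, c, hc', rfl⟩ := mem_sup_of_normal_left.1 hl
    obtain ⟨m, hm, n, hn, rfl⟩ := hdec g
    have e : m * n * (a * c) * (m * n)⁻¹ =
        (m * n * a * (m * n)⁻¹) * (m * (n * c * n⁻¹) * m⁻¹) := by group
    rw [e]
    exact mul_mem (mem_sup_left (‹M.Normal›.conj_mem a ha _))
      (mul_mem (mul_mem (mem_sup_left hm) (mem_sup_right (hCN n hn c hc')))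
        (mem_sup_left (M.inv_mem hm)))
  let φ : N →* G ⧸ (M ⊔ C) := (QuotientGroup.mk' (M ⊔ C)).comp N.subtype
  have hφ : Function.Surjective φ := by
    intro q
    obtain ⟨g, rfl⟩ := QuotientGroup.mk_surjective q
    obtain ⟨m, hm, n, hn, rfl⟩ := hdec g
    refine ⟨⟨n, hn⟩, ?_⟩
    change ((n : G) : G ⧸ (M ⊔ C)) = _
    rw [QuotientGroup.mk_mul, (QuotientGroup.eq_one_iff m).2 (mem_sup_left hm), one_mul]
  have hker : X.normalizerMonoidHom.ker ≤ φ.ker := by
    intro n hn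
    rw [normalizerMonoidHom_ker] at hn
    exact (QuotientGroup.eq_one_iff (n : G)).2 (mem_sup_right hn)
  have hcard : Nat.card (MulAut X) = r - 1 := by
    rw [IsCyclic.card_mulAut, hX, Nat.card_zpowers, ox', Nat.totient_prime hr]
  refine ⟨M ⊔ C, hL, le_sup_left, ?_, ?_, ?_⟩
  · rw [← Subgroup.Normal.quotient_commutative_iff_commutator_le]
    refine ⟨⟨fun a b => ?_⟩⟩
    obtain ⟨a, rfl⟩ := hφ a
    obtain ⟨b, rfl⟩ := hφ b
    have h1 : a * b * (b * a)⁻¹ ∈ X.normalizerMonoidHom.ker := by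
      rw [MonoidHom.mem_ker, map_mul, map_inv, mul_inv_eq_one, map_mul, map_mul]
      apply (IsCyclic.mulAutMulEquiv X).injective
      rw [map_mul, map_mul, mul_comm]
    have h2 := hker h1
    rwa [MonoidHom.mem_ker, map_mul, map_inv, mul_inv_eq_one, map_mul, map_mul] at h2
  · have h1 : (M ⊔ C).index = φ.ker.index := by
      rw [index_ker, MonoidHom.range_eq_top.2 hφ, card_top, index_eq_card]
    rw [h1, ← hcard]
    refine (index_dvd_of_le hker).trans ?_
    rw [index_ker]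
    exact card_subgroup_dvd_card _
  · intro u hu hd
    rw [relIndex_sup_left] at hd
    have : Fact u.Prime := ⟨hu⟩
    obtain ⟨⟨c, hc'⟩, oc⟩ := exists_prime_orderOf_dvd_card' u (hd.trans (relIndex_dvd_card _ _))
    by_cases hne : u = r
    · exact Or.inl hne
    · refine Or.inr (adj_of_commute hu hr hne (x := c) (y := x) ?_ (ox' ▸ dvd_rfl) ?_)
      · rw [← oc, Subgroup.orderOf_mk]
      · exact (hc' x (mem_zpowers x)).symm

/-- A normal subgroup that contains `r` contains every tight prime that is not adjacent to `r`. -/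
theorem dvd_of_dvd (M : Subgroup G) [M.Normal] (hr : r.Prime) (hc : Cyc G r)
    (hM : r ∣ Nat.card M) (hs : s.Prime) (hG : s ∣ Nat.card G) (ht : Tight G s)
    (ha : ¬ Adj G s r) : s ∣ Nat.card M := by
  obtain ⟨L, _, h1, h2, -, h3⟩ := exists_top M hr hc hM
  have h4 := dvd_of_tight L h2 hs hG ht
  rw [← (M.subgroupOf L).card_mul_index, Nat.card_congr (subgroupOfEquivOfLe h1).toEquiv] at h4
  rcases (hs.dvd_mul).1 h4 with h | h
  · exact h
  · rcases h3 s hs h with rfl | h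
    · exact hM
    · exact absurd h ha

theorem exists_core (hs : s.Prime) : ∃ K : Subgroup G, K.Normal ∧ ¬ s ∣ Nat.card K ∧
    ∀ M : Subgroup G, M.Normal → ¬ s ∣ Nat.card M → M ≤ K := by
  obtain ⟨K, ⟨h1, h2⟩, h3⟩ := Set.Finite.exists_maximal
    (Set.toFinite {K : Subgroup G | K.Normal ∧ ¬ s ∣ Nat.card K})
    ⟨⊥, inferInstance, by simpa using hs.ne_one⟩
  refine ⟨K, h1, h2, fun M hM h => le_sup_right.trans (h3 ⟨inferInstance, fun h4 => ?_⟩ le_sup_left)⟩
  rw [← (K.subgroupOf (K ⊔ M)).card_mul_index,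
    Nat.card_congr (subgroupOfEquivOfLe le_sup_left).toEquiv, hs.dvd_mul] at h4
  exact h4.elim h2 fun h5 => h ((h5.trans (relIndex_sup_left M K).dvd).trans (relIndex_dvd_card K M))

theorem exists_socle_elt (hr : r.Prime) {M : Subgroup G} (h : r ∣ Nat.card M) :
    ∃ x ∈ M, orderOf x = r :=
  have := Fact.mk hr
  (exists_prime_orderOf_dvd_card' r h).elim fun x hx => ⟨x, x.2, (orderOf_coe x).trans hx⟩

theorem exists_socle [Nontrivial G] (hr : r.Prime) (hs : s.Prime) (hne : r ≠ s) (hc : Cyc G s)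
    (ha : ¬ Adj G r s)
    (hall : ∀ M : Subgroup G, M.Normal → M ≠ ⊥ → r ∣ Nat.card M ∧ s ∣ Nat.card M) :
    ∃ H : Subgroup G, H.Normal ∧ H ≠ ⊥ ∧ IsSimpleGroup H ∧ ¬ IsMulCommutative H ∧
      centralizer (H : Set G) = ⊥ := by
  obtain ⟨H, ⟨hn, h0⟩, hmin⟩ := exists_minimal_of_wellFoundedLT
    (fun M : Subgroup G => M.Normal ∧ M ≠ ⊥) ⟨⊤, inferInstance, top_ne_bot⟩
  have hC : centralizer (H : Set G) = ⊥ := by
    by_contra h
    obtain ⟨x, hx, ox⟩ := exists_socle_elt hr (hall _ inferInstance h).1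
    obtain ⟨y, hy, oy⟩ := exists_socle_elt hs (hall H hn h0).2
    exact ha (adj_of_commute hr hs hne ox.symm.dvd oy.symm.dvd (hx y hy).symm)
  have := (nontrivial_iff_ne_bot H).2 h0
  refine ⟨H, hn, h0, ⟨fun N hN => or_iff_not_imp_left.2 fun h1 => ?_⟩,
    fun _ => h0 (le_bot_iff.1 (hC ▸ le_centralizer H)), hC⟩
  have h2 : s ∣ Nat.card N := by
    by_contra h2
    obtain ⟨K, hK, h3, h4⟩ := exists_core (G := H) hs
    have : K.Characteristic := characteristic_iff_map_le.2 fun φ =>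
      h4 _ (hK.map _ φ.surjective) (by rwa [card_map_of_injective φ.injective])
    refine h3 (card_map_of_injective H.subtype_injective ▸ (hall _ inferInstance fun h => h1 ?_).2)
    exact le_bot_iff.1 ((map_eq_bot_iff_of_injective _ H.subtype_injective).1 h ▸ h4 N hN h2)
  obtain ⟨x, hx, ox⟩ := exists_socle_elt hs h2
  have ox' := (orderOf_coe x).trans ox
  have h3 : H ≤ normalClosure {x.1} := hmin ⟨inferInstance, fun h => hs.ne_one (by
    rw [← ox', orderOf_eq_one_iff, ← mem_bot, ← h]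
    exact subset_normalClosure rfl)⟩ (normalClosure_le_normal (Set.singleton_subset_iff.2 x.2))
  have h4 : normalClosure {x.1} ≤ N.map H.subtype := (closure_le _).2 fun y hy => by
    obtain ⟨_, rfl, hy⟩ := Group.mem_conjugatesOfSet_iff.1 hy
    obtain ⟨g, rfl⟩ := isConj_iff.1 hy
    have h5 := hn.conj_mem _ x.2 g
    obtain ⟨m, hm, k, hk⟩ := hc.conj hs H x.2 h5 ox'
      (((MulAut.conj g).orderOf_eq x.1).trans ox')
    have h6 : (⟨m, hm⟩ * ⟨_, h5⟩ * ⟨m, hm⟩⁻¹ : H) = x ^ k := Subtype.ext hk.symm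
    exact ⟨⟨_, h5⟩, inv_mul_cancel_left ⟨m, hm⟩ (⟨_, h5⟩ : H) ▸
      hN.mem_comm (h6 ▸ N.zpow_mem hx k), rfl⟩
  exact top_le_iff.1 fun y _ => (mem_map_iff_mem H.subtype_injective).1 (h4 (h3 y.2))

theorem section_GL_lin (A : Type) [AddCommGroup A] [Finite A] [Fact u.Prime] [Module (ZMod u) A]
    {H : Type} [Group H] (ρ : H → A →+ A) (h1 : ∀ x, ρ 1 x = x)
    (hm : ∀ f g x, ρ (f * g) x = ρ f (ρ g x)) (hi : Function.Injective ρ) :
    ∃ k, Nat.card A = u ^ k ∧ Nat.card H ∣ ∏ i ∈ Finset.range k, (u ^ k - u ^ i) := by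
  refine ⟨Module.finrank (ZMod u) A, ?_, ?_⟩
  · rw [Module.natCard_eq_pow_finrank (K := ZMod u) (V := A), Nat.card_zmod]
  have h2 := Nat.card_congr (Matrix.GeneralLinearGroup.toLin' (Module.finBasis (ZMod u) A)).toEquiv
  rw [Matrix.card_GL_field, ZMod.card, Fin.prod_univ_eq_prod_range fun i => u ^ _ - u ^ i] at h2
  let ψ : H →* Module.End (ZMod u) A :=
    { toFun f := (ρ f).toZModLinearMap u
      map_one' := LinearMap.ext h1
      map_mul' f g := LinearMap.ext (hm f g) }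
  rw [h2]
  exact card_dvd_of_injective ψ.toHomUnits fun f g e => hi (AddMonoidHom.ext fun x =>
    LinearMap.congr_fun (congrArg Units.val e) x)

theorem section_GL_aut (V : Type) [CommGroup V] [Finite V] (hu : u.Prime) (h : ∀ x : V, x ^ u = 1) :
    ∃ k, Nat.card V = u ^ k ∧ Nat.card (MulAut V) ∣ ∏ i ∈ Finset.range k, (u ^ k - u ^ i) :=
  have := Fact.mk hu
  @section_GL_lin u (Additive V) _ _ _ (AddCommGroup.zmodModule fun x => h x.toMul) (MulAut V) _
    (fun f => MonoidHom.toAdditive f.toMonoidHom) (fun _ => rfl) (fun _ _ _ => rfl)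
    fun _ _ e => MulEquiv.ext fun x => DFunLike.congr_fun e (Additive.ofMul x)

theorem section_GL_sup (K C : Subgroup G) [K.Normal] (hr : r.Prime) (h1 : ¬ r ∣ Nat.card K)
    (h : r ∣ Nat.card (K ⊔ C : Subgroup G)) : ∃ x ∈ C, orderOf x = r := by
  have := Fact.mk hr
  rw [← (K.subgroupOf (K ⊔ C)).card_mul_index,
    Nat.card_congr (subgroupOfEquivOfLe le_sup_left).toEquiv, ← relIndex, relIndex_sup_left] at h
  obtain ⟨x, hx⟩ := exists_prime_orderOf_dvd_card' r
    (((hr.dvd_mul.1 h).resolve_left h1).trans (relIndex_dvd_card K C))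
  exact ⟨x, x.2, (orderOf_coe x).trans hx⟩

/-- The central elements of exponent `u`. -/
def section_GL_om (U : Subgroup G) (u : ℕ) : Subgroup G where
  carrier := {z | z ∈ U ∧ (∀ y ∈ U, Commute y z) ∧ z ^ u = 1}
  one_mem' := ⟨one_mem _, fun y _ => Commute.one_right y, one_pow _⟩
  mul_mem' {a b} ha hb := ⟨mul_mem ha.1 hb.1, fun y hy => (ha.2.1 y hy).mul_right (hb.2.1 y hy),
    by rw [(hb.2.1 a ha.1).mul_pow, ha.2.2, hb.2.2, mul_one]⟩
  inv_mem' {a} ha := ⟨inv_mem ha.1, fun y hy => (ha.2.1 y hy).inv_right,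
    by rw [inv_pow, ha.2.2, inv_one]⟩

/- `U` a Sylow `u`-subgroup of `K` (as a subgroup of `G`), Frattini `K ⊔ N(U) = ⊤`,
`V = {z ∈ U | z central in U, z ^ u = 1}` is nontrivial, elementary abelian of order `u ^ k` and
normalised by `N(U)`; `C = N(U) ⊓ centralizer V`. `K ⊔ C` is normal in `G`. If `s ∣ |K ⊔ C|` then
`r` does too, both divide `|C|`, and `u` is adjacent to both. So `C ≤ K`, and `K.index` divides
`C.relIndex N(U)`, which divides the number of automorphisms of `V`, that is the order of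
`GL k (ZMod u)` (`Matrix.card_GL_field`, `AddCommGroup.zmodModule` on `Additive V`). -/
theorem section_GL (K : Subgroup G) [K.Normal] (hr : r.Prime) (hs : s.Prime)
    (h1 : ¬ r ∣ Nat.card K) (h2 : ¬ s ∣ Nat.card K)
    (hmax : ∀ M : Subgroup G, M.Normal → ¬ s ∣ Nat.card M → M ≤ K)
    (hboth : ∀ M : Subgroup G, M.Normal → s ∣ Nat.card M → r ∣ Nat.card M)
    (hu : u.Prime) (huK : u ∣ Nat.card K) (ha : ¬ (Adj G u r ∧ Adj G u s)) :
    ∃ k, 0 < k ∧ u ^ k ∣ Nat.card K ∧ K.index ∣ ∏ i ∈ Finset.range k, (u ^ k - u ^ i) := by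
  have := Fact.mk hu
  obtain ⟨P⟩ : Nonempty (Sylow u K) := inferInstance
  have hF := P.normalizer_sup_eq_top
  have hP : IsPGroup u ((P : Subgroup K).map K.subtype) := P.isPGroup'.map _
  have hUK : (P : Subgroup K).map K.subtype ≤ K := map_subtype_le _
  have hU : (P : Subgroup K).map K.subtype ≠ ⊥ := fun e =>
    P.ne_bot_of_dvd_card huK ((map_eq_bot_iff_of_injective _ K.subtype_injective).1 e)
  generalize (P : Subgroup K).map K.subtype = U at hF hP hUK hU
  have := (nontrivial_iff_ne_bot U).2 hU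
  have := hP.center_nontrivial
  obtain ⟨z, hz⟩ : ∃ z : center U, orderOf z = u := by
    obtain ⟨n, hn, e⟩ := (hP.to_subgroup (center U)).nontrivial_iff_card.1 inferInstance
    exact exists_prime_orderOf_dvd_card' u (e ▸ dvd_pow_self u hn.ne')
  have oz : orderOf (z.1.1 : G) = u := by rw [orderOf_coe, orderOf_coe, hz]
  set V := section_GL_om U u with hV
  have hzV : z.1.1 ∈ V := ⟨z.1.2, fun y hy => congrArg Subtype.val (mem_center_iff.1 z.2 ⟨y, hy⟩),
    oz ▸ pow_orderOf_eq_one _⟩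
  have hN : normalizer (U : Set G) ≤ normalizer (V : Set G) := le_normalizer_iff.2 fun g hg v hv =>
    ⟨(hg v).1 hv.1, fun y hy => by
      have := (hv.2.1 _ ((inv_mem hg y).1 hy)).map (MulAut.conj g)
      simpa [mul_assoc] using this, by rw [conj_pow, hv.2.2, mul_one, mul_inv_cancel]⟩
  have hT : normalizer (V : Set G) ⊔ K = ⊤ := top_le_iff.1 (hF ▸ sup_le_sup_right hN K)
  have : (K ⊔ centralizer (V : Set G)).Normal := by
    rw [← normalizer_eq_top_iff, eq_top_iff, ← hT, sup_comm K]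
    exact sup_le ((le_normalizer_of_normal_subgroupOf (centralizer_le_normalizer _)).trans
      normalizer_le_normalizer_sup_normal) (le_sup_right.trans le_normalizer)
  have hC : centralizer (V : Set G) ≤ K := by
    refine le_sup_right.trans (hmax _ this fun h => ha ⟨?_, ?_⟩)
    · obtain ⟨x, hx, ox⟩ := section_GL_sup K _ hr h1 (hboth _ this h)
      exact adj_of_commute hu hr (fun e => h1 (e ▸ huK)) oz.symm.dvd ox.symm.dvd (hx _ hzV)
    · obtain ⟨x, hx, ox⟩ := section_GL_sup K _ hs h2 h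
      exact adj_of_commute hu hs (fun e => h2 (e ▸ huK)) oz.symm.dvd ox.symm.dvd (hx _ hzV)
  let _ : CommGroup V := { (inferInstance : Group V) with
    mul_comm := fun a b => Subtype.ext (b.2.2.1 a a.2.1) }
  obtain ⟨k, e, hk⟩ := section_GL_aut V hu fun x => Subtype.ext x.2.2.2
  refine ⟨k, Nat.pos_of_ne_zero ?_, e ▸ card_dvd_of_le fun x hx => hUK hx.1, ?_⟩
  · rintro rfl
    rw [pow_zero, card_eq_one] at e
    rw [e, mem_bot] at hzV
    exact hu.one_lt.ne (by rw [← oz, hzV, orderOf_one])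
  have key := card_dvd_of_injective _ (QuotientGroup.kerLift_injective V.normalizerMonoidHom)
  rw [normalizerMonoidHom_ker, ← index, ← relIndex] at key
  rw [← relIndex_top_right, ← hT, relIndex_sup_right]
  exact ((relIndex_dvd_of_le_left _ hC).trans key).trans hk

end Pool.Agent.Lib.MP_7d41f7_al
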