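import Pool.Agent.Lib.MP_7d41f7_al.L.KDef
import Pool.Agent.Lib.MP_7d41f7_al.VoDef

/-! Linear groups: the interface between the group `PSL(n,q)` and the unknown group. -/

set_option autoImplicit false

namespace Pool.Agent.Lib.MP_7d41f7_al

open Finset Module

/-- There is an element of order `u * r`. -/
def Adj (G : Type) [Group G] (u r : ℕ) : Prop := ∃ g : G, orderOf g = u * r

/-- `r` is a primitive prime divisor of `q ^ m - 1`. -/
structure Prim (q m r : ℕ) : Prop where
  pr : r.Prime
  dvd : r ∣ q ^ m - 1
  min : ∀ i, 0 < i → i < m → ¬ r ∣ q ^ i - 1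

/-- The Sylow `r`-subgroups are cyclic. -/
def Cyc (G : Type) [Group G] (r : ℕ) : Prop := ∀ P : Sylow r G, IsCyclic P

/-- The order of the special linear group. -/
def ordSL (n q : ℕ) : ℕ := q ^ (n * (n - 1) / 2) * ∏ i ∈ Icc 2 n, (q ^ i - 1)

/-- What the hypotheses give for the unknown group. -/
structure LData (G : Type) [Group G] (n q : ℕ) : Prop where
  card : Nat.card G * Nat.gcd n (q - 1) = ordSL n q
  cyc : ∀ m r, m = n ∨ m + 1 = n → Prim q m r → Cyc G r
  adj1 : ∀ r u, Prim q n r → u.Prime → u ≠ r → Adj G u r →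
    u * (Nat.gcd n (q - 1) * (q - 1)) ∣ q ^ n - 1
  adj2 : ∀ r u, Prim q (n - 1) r → u.Prime → u ≠ r → Adj G u r →
    u * Nat.gcd n (q - 1) ∣ q ^ (n - 1) - 1

/-- The special linear group. -/
abbrev SLn (n : ℕ) (F : Type) [Field F] : Type := Matrix.SpecialLinearGroup (Fin n) F

/-- The projective special linear group. -/
abbrev PL (n : ℕ) (F : Type) [Field F] : Type := Matrix.ProjectiveSpecialLinearGroup (Fin n) F

/-- The subspaces of dimension `k`. -/
def Gr (n : ℕ) (F : Type) [Field F] (k : ℕ) : Type :=
  {W : Submodule F (Fin n → F) // finrank F W = k}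

variable {n k : ℕ} {F : Type} [Field F]

instance [Finite F] : Finite (Gr n F k) :=
  Finite.of_injective (fun W : Gr n F k => (W.1 : Set (Fin n → F))) fun _ _ h =>
    Subtype.ext (SetLike.coe_injective h)

/-- The action of the special linear group on subspaces. -/
instance grSL : MulAction (SLn n F) (Gr n F k) where
  smul A W := ⟨W.1.map (Matrix.SpecialLinearGroup.toLin' A).toLinearMap,
    (LinearEquiv.finrank_map_eq _ _).trans W.2⟩
  one_smul W := Subtype.ext (by
    change W.1.map _ = _
    rw [map_one]
    exact Submodule.map_id _)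
  mul_smul A B W := Subtype.ext (by
    change W.1.map _ = (W.1.map _).map _
    rw [map_mul, ← Submodule.map_comp]
    rfl)

theorem grSL_val (A : SLn n F) (W : Gr n F k) : (A • W).1 = W.1.map (Matrix.toLin' A.1) := rfl

theorem grSL_center {A : SLn n F} (h : A ∈ Subgroup.center (SLn n F)) (W : Gr n F k) :
    A • W = W := by
  obtain ⟨c, -, hc⟩ := Matrix.SpecialLinearGroup.mem_center_iff.1 h
  refine Subtype.ext (Submodule.eq_of_le_of_finrank_eq ?_ ((A • W).2.trans W.2.symm))
  rintro _ ⟨v, hv, rfl⟩
  have : Matrix.toLin' A.1 v = c • v := by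
    rw [← hc]
    ext i
    simp [Matrix.mulVec_diagonal]
  exact this ▸ W.1.smul_mem c hv

/-- The action of the projective special linear group on subspaces. -/
instance grPL : MulAction (PL n F) (Gr n F k) :=
  MulAction.compHom _ (QuotientGroup.lift _ (MulAction.toPermHom (SLn n F) (Gr n F k))
    fun _ h => Equiv.ext (grSL_center h))

theorem grPL_mk (A : SLn n F) (W : Gr n F k) : (QuotientGroup.mk A : PL n F) • W = A • W := rfl

/-- The number of orbits. -/
noncomputable abbrev nOrb (G X : Type) [Group G] [MulAction G X] : ℕ :=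
  Nat.card (MulAction.orbitRel.Quotient G X)

/-- The number of fixed points. -/
noncomputable abbrev nFix {G : Type} [Group G] (X : Type) [MulAction G X] (g : G) : ℕ :=
  Nat.card (MulAction.fixedBy X g)

end Pool.Agent.Lib.MP_7d41f7_al
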