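import Pool.Agent.Lib.MP_7d41f7_al.L.Defs

set_option autoImplicit false

namespace Pool.Agent.Lib.MP_7d41f7_al

open Finset Module

variable {F V : Type} [Field F] [AddCommGroup V] [Module F V] [FiniteDimensional F V]

omit [FiniteDimensional F V] in
theorem sorba_inj {A B : Submodule F V} (h : Disjoint A B) :
    Function.Injective (A.subtype.coprod B.subtype) := by
  rw [← LinearMap.ker_eq_bot, LinearMap.ker_coprod_of_disjoint_range _ _ (by simpa using h)]
  simp

/-- An automorphism can be changed outside `A` so that it maps `B` to `B'`. -/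
theorem sorba_ext {A B B' : Submodule F V} (e : V ≃ₗ[F] V) (h : Disjoint A B)
    (h' : Disjoint (A.map e.toLinearMap) B') (hB : finrank F B = finrank F B') :
    ∃ f : V ≃ₗ[F] V, (∀ C ≤ A, C.map f.toLinearMap = C.map e.toLinearMap) ∧
      B.map f.toLinearMap = B' := by
  let g := LinearEquiv.ofFinrankEq B B' hB
  obtain ⟨f, hf⟩ := Submodule.exists_linearEquiv_restrict_eq
    ((LinearEquiv.ofInjective _ (sorba_inj h)).symm ≪≫ₗ (e.submoduleMap A).prodCongr g ≪≫ₗ
      LinearEquiv.ofInjective _ (sorba_inj h'))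
  have key : ∀ (a : A) (b : B), f (a + b) = e a + g b := fun a b => by
    simpa using (hf (LinearEquiv.ofInjective _ (sorba_inj h) (a, b))).symm
  refine ⟨f, fun C hC => SetLike.coe_injective (Set.image_congr fun a ha => ?_),
    Submodule.eq_of_le_of_finrank_eq ?_ ((f.finrank_map_eq B).trans hB)⟩
  · simpa using key ⟨a, hC ha⟩ 0
  · rintro _ ⟨b, hb, rfl⟩
    have : f b = g ⟨b, hb⟩ := by simpa using key 0 ⟨b, hb⟩
    exact this.symm ▸ (g ⟨b, hb⟩).2

theorem sorba_compl {I I' U U' : Submodule F V} (h : I ≤ U) (h' : I' ≤ U')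
    (h1 : finrank F U = finrank F U') (h2 : finrank F I = finrank F I') :
    ∃ B B' : Submodule F V, (I ⊓ B = ⊥ ∧ I ⊔ B = U) ∧ (I' ⊓ B' = ⊥ ∧ I' ⊔ B' = U') ∧
      finrank F B = finrank F B' := by
  obtain ⟨B, hB⟩ := IsModularLattice.exists_inf_eq_and_sup_eq bot_le h
  obtain ⟨B', hB'⟩ := IsModularLattice.exists_inf_eq_and_sup_eq bot_le h'
  have e1 := I.finrank_sup_add_finrank_inf_eq B
  have e2 := I'.finrank_sup_add_finrank_inf_eq B'
  rw [hB.1, hB.2, finrank_bot] at e1
  rw [hB'.1, hB'.2, finrank_bot] at e2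
  exact ⟨B, B', hB, hB', by omega⟩

theorem pair_equiv {U W U' W' : Submodule F V} (h1 : finrank F U = finrank F U')
    (h2 : finrank F W = finrank F W')
    (h3 : finrank F (U ⊓ W : Submodule F V) = finrank F (U' ⊓ W' : Submodule F V)) :
    ∃ e : V ≃ₗ[F] V, U.map e.toLinearMap = U' ∧ W.map e.toLinearMap = W' := by
  obtain ⟨A, A', hA, hA', ha⟩ := sorba_compl inf_le_left inf_le_left h1 h3
  obtain ⟨B, B', hB, hB', hb⟩ := sorba_compl inf_le_right inf_le_right h2 h3
  have d : ∀ {U W B : Submodule F V}, U ⊓ W ⊓ B = ⊥ ∧ U ⊓ W ⊔ B = W → Disjoint U B := fun h =>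
    disjoint_iff.2 (by rw [← h.1, inf_assoc, inf_eq_right.2 (le_sup_right.trans h.2.le)])
  obtain ⟨e, -, he⟩ := sorba_ext (A := ⊥) (.refl F V) disjoint_bot_left (by simp) h3
  obtain ⟨f, hf, hf'⟩ := sorba_ext e (disjoint_iff.2 hA.1) (he ▸ disjoint_iff.2 hA'.1) ha
  have hU : U.map f.toLinearMap = U' := by
    rw [← hA.2, Submodule.map_sup, hf _ le_rfl, he, hf', hA'.2]
  obtain ⟨g, hg, hg'⟩ := sorba_ext f (d hB) (hU ▸ d hB') hb
  exact ⟨g, (hg U le_rfl).trans hU, by
    rw [← hB.2, Submodule.map_sup, hg _ inf_le_left, hf _ le_rfl, he, hg', hB'.2]⟩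

/-- `a ↦ a + φ a • v` has determinant `1 + φ v` and maps a subspace into itself if it contains `v`
or lies in the kernel of `φ`. -/
theorem pair_det [Nontrivial V] (U W : Submodule F V) {c : F} (hc : c ≠ 0) :
    ∃ e : V ≃ₗ[F] V, U.map e.toLinearMap = U ∧ W.map e.toLinearMap = W ∧
      LinearMap.det e.toLinearMap = c := by
  obtain ⟨v, P, hv, hU, hW⟩ : ∃ (v : V) (P : Submodule F V),
      v ∉ P ∧ (v ∈ U ∨ U ≤ P) ∧ (v ∈ W ∨ W ≤ P) := by
    by_cases h1 : U ≤ W
    · by_cases h2 : U = ⊥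
      · by_cases h3 : W = ⊥
        · exact (exists_ne (0 : V)).imp fun v hv => ⟨⊥, hv, .inr h2.le, .inr h3.le⟩
        · obtain ⟨v, hv, h0⟩ := W.ne_bot_iff.1 h3
          exact ⟨v, ⊥, h0, .inr h2.le, .inl hv⟩
      · obtain ⟨v, hv, h0⟩ := U.ne_bot_iff.1 h2
        exact ⟨v, ⊥, h0, .inl hv, .inl (h1 hv)⟩
    · obtain ⟨v, hv, h0⟩ := SetLike.not_le_iff_exists.1 h1
      exact ⟨v, W, h0, .inl hv, .inr le_rfl⟩
  obtain ⟨φ, h0, hφ⟩ := Submodule.exists_le_ker_of_notMem hv
  have h1 : 1 + (((c - 1) / φ v) • φ) v = c := by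
    rw [LinearMap.smul_apply, smul_eq_mul, div_mul_cancel₀ _ h0, add_sub_cancel]
  have h2 : IsUnit (1 + (((c - 1) / φ v) • φ) v) := h1.symm ▸ hc.isUnit
  have key : ∀ Z : Submodule F V, v ∈ Z ∨ Z ≤ P →
      Z.map (LinearEquiv.dilatransvection h2).toLinearMap = Z := fun Z hZ => by
    refine Submodule.eq_of_le_of_finrank_eq ?_ (LinearEquiv.finrank_map_eq _ Z)
    rintro _ ⟨z, hz, rfl⟩
    refine Z.add_mem hz (hZ.elim (Z.smul_mem _) fun h => ?_)
    rw [LinearMap.smul_apply, LinearMap.mem_ker.1 (hφ (h hz)), smul_zero, zero_smul]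
    exact Z.zero_mem
  exact ⟨_, key U hU, key W hW, (LinearMap.transvection.det _ _).trans h1⟩

/-- spans of parts of a basis -/
theorem pair_exists {k l j : ℕ} (hk : j ≤ k) (hl : j ≤ l) (h : k + l ≤ finrank F V) :
    ∃ U W : Submodule F V, finrank F U = k ∧ finrank F W = l ∧
      finrank F (U ⊓ W : Submodule F V) = j := by
  classical
  let b := Module.finBasis F V
  have key : ∀ s : Finset (Fin (finrank F V)),
      finrank F (Submodule.span F (b '' (s : Set (Fin (finrank F V))))) = s.card := fun s => by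
    have := finrank_span_eq_card
      (b.linearIndependent.comp (Subtype.val : s → Fin (finrank F V)) Subtype.val_injective)
    have e : Set.range (b ∘ (Subtype.val : s → Fin (finrank F V))) = b '' s :=
      (Set.image_eq_range b (s : Set (Fin (finrank F V)))).symm
    rw [← e, this, Fintype.card_coe]
  obtain ⟨u, -, hu⟩ := exists_subset_card_eq (s := (univ : Finset (Fin (finrank F V))))
    (n := k + l - j) (by rw [card_univ, Fintype.card_fin]; omega)
  obtain ⟨s, hsu, hs⟩ := exists_subset_card_eq (s := u) (n := k) (by omega)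
  obtain ⟨i, his, hi⟩ := exists_subset_card_eq (s := s) (n := j) (by omega)
  have h1 : (i ∪ u \ s).card = l := by
    rw [card_union_of_disjoint (disjoint_sdiff.mono_left his), card_sdiff_of_subset hsu]
    omega
  have h2 : s ∪ (i ∪ u \ s) = u := by
    rw [← union_assoc, union_eq_left.2 his, union_sdiff_of_subset hsu]
  refine ⟨_, _, (key s).trans hs, (key _).trans h1, ?_⟩
  have h3 := Submodule.finrank_sup_add_finrank_inf_eq
    (Submodule.span F (b '' (s : Set (Fin (finrank F V)))))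
    (Submodule.span F (b '' ((i ∪ u \ s : Finset _) : Set (Fin (finrank F V)))))
  rw [← Submodule.span_union, ← Set.image_union, ← coe_union, h2, key, key, key] at h3
  omega

/-- the orbits correspond to the dimensions `0, ..., k` of the intersection -/
theorem card_orb {n k l : ℕ} (hn : 0 < n) (hkl : k ≤ l) (h : k + l ≤ n) :
    nOrb (PL n F) (Gr n F k × Gr n F l) = k + 1 := by
  have : Nonempty (Fin n) := ⟨⟨0, hn⟩⟩
  let f : Gr n F k × Gr n F l → Fin (k + 1) := fun a =>
    ⟨finrank F (a.1.1 ⊓ a.2.1 : Submodule F (Fin n → F)),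
      Nat.lt_succ_of_le ((Submodule.finrank_mono inf_le_left).trans_eq a.1.2)⟩
  have hf : Function.Surjective f := fun j => by
    obtain ⟨U, W, h1, h2, h3⟩ := pair_exists (F := F) (V := Fin n → F) (Nat.le_of_lt_succ j.2)
      ((Nat.le_of_lt_succ j.2).trans hkl) (by rwa [Module.finrank_fin_fun])
    exact ⟨(⟨U, h1⟩, ⟨W, h2⟩), Fin.ext h3⟩
  have he : MulAction.orbitRel (PL n F) (Gr n F k × Gr n F l) = Setoid.ker f := by
    ext a b
    rw [MulAction.orbitRel_apply, Setoid.ker_def]
    constructor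
    · rintro ⟨g, rfl⟩
      obtain ⟨A, rfl⟩ := QuotientGroup.mk_surjective g
      refine Fin.ext ?_
      change finrank F (b.1.1.map (Matrix.SpecialLinearGroup.toLin' A).toLinearMap ⊓
        b.2.1.map (Matrix.SpecialLinearGroup.toLin' A).toLinearMap : Submodule F (Fin n → F)) = _
      rw [← Submodule.map_inf _ (Matrix.SpecialLinearGroup.toLin' A).injective,
        LinearEquiv.finrank_map_eq]
    · intro hab
      obtain ⟨e, e1, e2⟩ := pair_equiv (b.1.2.trans a.1.2.symm) (b.2.2.trans a.2.2.symm)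
        (congrArg Fin.val hab).symm
      have hd : LinearMap.det e.toLinearMap ≠ 0 := e.isUnit_det'.ne_zero
      obtain ⟨e', f1, f2, f3⟩ := pair_det b.1.1 b.2.1 (inv_ne_zero hd)
      let A : SLn n F := ⟨LinearMap.toMatrix' (e.toLinearMap ∘ₗ e'.toLinearMap), by
        rw [LinearMap.det_toMatrix', LinearMap.det_comp, f3, mul_inv_cancel₀ hd]⟩
      have hA : Matrix.toLin' A.1 = e.toLinearMap ∘ₗ e'.toLinearMap := Matrix.toLin'_toMatrix' _
      refine ⟨QuotientGroup.mk A, Prod.ext (Subtype.ext ?_) (Subtype.ext ?_)⟩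
      · change b.1.1.map (Matrix.toLin' A.1) = _
        rw [hA, Submodule.map_comp, f1, e1]
      · change b.2.1.map (Matrix.toLin' A.1) = _
        rw [hA, Submodule.map_comp, f2, e2]
  change Nat.card (Quotient (MulAction.orbitRel (PL n F) (Gr n F k × Gr n F l))) = _
  rw [he, Nat.card_congr (Setoid.quotientKerEquivOfSurjective f hf), Nat.card_fin]

end Pool.Agent.Lib.MP_7d41f7_al
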