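import Pool.Agent.Lib.MP_7d41f7_al.L.SCen
import Pool.Agent.Lib.MP_7d41f7_al.L.SEl
import Pool.Agent.Lib.MP_7d41f7_al.L.SPerm
import Pool.Agent.Lib.MP_7d41f7_al.L.SOrb

set_option autoImplicit false

namespace Pool.Agent.Lib.MP_7d41f7_al

open Finset Module

variable {n m r c : ℕ} {F : Type} [Field F] [Finite F]

theorem svana_el (h : Prim (Nat.card F) m r) (h2 : n < 2 * m) {A : SLn n F} (hc : 0 < c)
    (hA : orderOf A = r ^ c) : ∃ K : Submodule F (Fin n → F), finrank F K + m = n ∧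
      (∀ v ∈ K, Matrix.toLin' A.1 v ∈ K) ∧ ∀ (k : ℕ) (W : Gr n F k), k < m →
        (QuotientGroup.mk A : PL n F) • W = W → W.1 ≤ K := by
  have e : ∀ j, Matrix.toLin' A.1 ^ j = 1 ↔ A ^ j = 1 := fun j => by
    rw [← Matrix.toLin'_pow, End.one_eq_id, ← Matrix.toLin'_one, Matrix.toLin'.injective.eq_iff,
      ← Matrix.SpecialLinearGroup.coe_pow]
    exact ⟨fun a => Subtype.ext a, fun a => congrArg Subtype.val a⟩
  have hm : 0 < m := by omega
  have hV : finrank F (Fin n → F) < 2 * m := by rwa [finrank_fin_fun]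
  have x1 : (Matrix.toLin' A.1 ^ r ^ (c - 1)) ^ r = 1 := by
    rw [← pow_mul, ← pow_succ, Nat.sub_add_cancel hc, e, ← hA, pow_orderOf_eq_one]
  obtain ⟨r1, r2⟩ := lin_rank h hm x1 (mt (e _).1 (pow_ne_one_of_lt_orderOf
    (pow_pos h.pr.pos _).ne' (hA ▸ Nat.pow_lt_pow_right h.pr.one_lt (by omega)))) hV
  refine ⟨_, r2.trans (finrank_fin_fun F), fun v hv => ?_, fun k W hk hW => ?_⟩
  · rw [LinearMap.mem_ker] at hv ⊢
    rw [← End.mul_apply, (((Commute.refl _).pow_left _).sub_left (Commute.one_left _)).eq,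
      End.mul_apply, hv, map_zero]
  · have a : W.1.map (Matrix.toLin' A.1) = W.1 := congrArg Subtype.val hW
    refine (lin_irr h hm x1 hV fun w hw => End.pow_apply_mem_of_forall_mem _
      (fun v hv => a ▸ Submodule.mem_map_of_mem hv) w hw).resolve_right fun b => ?_
    have := Submodule.finrank_mono b
    rw [r1, W.2] at this
    omega

theorem fix_zero {k : ℕ} (h : Prim (Nat.card F) m r) (h2 : n < 2 * m) {A : SLn n F} (hc : 0 < c)
    (hA : orderOf A = r ^ c) (h3 : n < k + m) (h4 : k < m) :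
    nFix (Gr n F k) (QuotientGroup.mk A : PL n F) = 0 := by
  obtain ⟨K, k1, -, k2⟩ := svana_el h h2 hc hA
  refine Nat.card_eq_zero.2 (Or.inl ⟨fun W => ?_⟩)
  have := Submodule.finrank_mono (k2 k W.1 h4 W.2)
  rw [W.1.2] at this
  omega

theorem fix_one {k : ℕ} (h : Prim (Nat.card F) m r) (h2 : n < 2 * m) {A : SLn n F} (hc : 0 < c)
    (hA : orderOf A = r ^ c) (h3 : n = k + m) :
    nFix (Gr n F k) (QuotientGroup.mk A : PL n F) = 1 := by
  obtain ⟨K, k1, k3, k2⟩ := svana_el h h2 hc hA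
  have k4 : finrank F K = k := by omega
  refine Nat.card_eq_one_iff_exists.2 ⟨⟨⟨K, k4⟩, Subtype.ext (Submodule.eq_of_le_of_finrank_eq
    (Submodule.map_le_iff_le_comap.2 k3) ((grSL.smul A ⟨K, k4⟩).2.trans k4.symm))⟩, fun W =>
    Subtype.ext (Subtype.ext (Submodule.eq_of_le_of_finrank_eq (k2 k W.1 (by omega) W.2)
      (W.1.2.trans k4.symm)))⟩

theorem fix_bot (g : PL n F) : nFix (Gr n F 0) g = 1 := by
  have a : ∀ W W' : Gr n F 0, W = W' := fun W W' => Subtype.ext
    ((Submodule.finrank_eq_zero.1 W.2).trans (Submodule.finrank_eq_zero.1 W'.2).symm)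
  exact Nat.card_eq_one_iff_exists.2 ⟨⟨⟨⊥, finrank_bot F _⟩, a _ _⟩, fun W => Subtype.ext (a _ _)⟩

theorem svanb_cen (hn : 0 < n) (hm : 2 ≤ m) (h : Prim (Nat.card F) m r) :
    ¬ r ∣ Nat.card (Subgroup.center (SLn n F)) := fun e =>
  h.not_dvd_pred hm (e.trans (card_center (F := F) hn ▸ Nat.gcd_dvd_right _ _))

/-- a difference of two permutation characters vanishes -/
theorem van_PL (hn : 4 ≤ n) (hm : m = n ∨ m + 1 = n) (h : Prim (Nat.card F) m r) (hc : 0 < c)
    (hd : r ^ c ∣ Nat.card F ^ m - 1) : r ^ c ∈ Vo (PL n F) := by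
  obtain ⟨A, hA⟩ := exists_el (F := F) (n := n) (m := m) (by omega) (by omega) hd
    ((h.pr.coprime_iff_not_dvd.2 (h.not_dvd_pred (by omega))).pow_left c)
  rw [← hA, ← orderOf_mk_center (hA ▸ (h.pr.coprime_iff_not_dvd.2
    (svanb_cen (by omega) (by omega) h)).pow_left c)]
  rcases hm with e | e
  · refine perm_van (G := PL n F) (X := Gr n F 1) (Y := Gr n F 2) ?_ ?_
    · rw [card_orb, card_orb, card_orb] <;> omega
    · rw [fix_zero h _ hc hA, fix_zero h _ hc hA] <;> omega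
  · refine perm_van (G := PL n F) (X := Gr n F 0) (Y := Gr n F 1) ?_ ?_
    · rw [card_orb, card_orb, card_orb] <;> omega
    · rw [fix_bot, fix_one h _ hc hA] <;> omega

/-- the data of the unknown group -/
theorem ldata (hn : 4 ≤ n) {G : Type} [Group G] [Finite G] (h1 : Nat.card G = Nat.card (PL n F))
    (h2 : Vo G = Vo (PL n F)) : LData G n (Nat.card F) := by
  have hq : 1 < Nat.card F := Finite.one_lt_card
  have hG := h1 ▸ card_PL (F := F) (n := n) (by omega)
  have cyc : ∀ m r, m = n ∨ m + 1 = n → Prim (Nat.card F) m r → Cyc G r := fun m r hm h => by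
    have h0 : Nat.card F ^ m - 1 ≠ 0 := Nat.sub_ne_zero_of_lt (Nat.one_lt_pow (by omega) hq)
    obtain ⟨g, hg, -⟩ := h2 ▸ van_PL hn hm h (h.pr.factorization_pos_of_dvd h0 h.dvd)
      (Nat.ordProj_dvd _ r)
    exact cyc_of_order h.pr hg fun e => Nat.pow_succ_factorization_not_dvd h0 h.pr
      ((h.pow_dvd (n := n) hq (by omega) (by omega) (by omega) _).1 (hG ▸ e.mul_right _))
  have adj : ∀ m r u, m = n ∨ m + 1 = n → Prim (Nat.card F) m r → u.Prime → u ≠ r → Adj G u r →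
      ∃ x : SLn n F, orderOf x = r ∧ u * Nat.gcd n (Nat.card F - 1) ∣
        Nat.card (Subgroup.centralizer ({x} : Set (SLn n F))) := fun m r u hm h hu hur ha => by
    have hr := van_PL hn hm h one_pos ((pow_one r).symm ▸ h.dvd)
    rw [pow_one, ← h2] at hr
    obtain ⟨g, hg, -⟩ := h2 ▸ adj_Vo hu h.pr hur (cyc m r hm h) hr ha
    rw [← card_center (by omega)]
    exact lift_adj hu h.pr hur (svanb_cen (by omega) (by omega) h) ⟨g, hg⟩
  refine ⟨hG, cyc, fun r u h hu hur ha => ?_, fun r u h hu hur ha => ?_⟩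
  · obtain ⟨x, hx, e⟩ := adj n r u (.inl rfl) h hu hur ha
    rw [← mul_assoc]
    exact (Nat.mul_dvd_mul_right e _).trans (cen1 (by omega) h hx)
  · obtain ⟨x, hx, e⟩ := adj (n - 1) r u (.inr (by omega)) h hu hur ha
    exact e.trans (cen2 (by omega) h hx)

end Pool.Agent.Lib.MP_7d41f7_al
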