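import Pool.Agent.Lib.MP_7d41f7_al.L.AL
import Pool.Agent.Lib.MP_7d41f7_al.Ball

/-! The order of the socle for a linear group. -/

set_option autoImplicit false

namespace Pool.Agent.Lib.MP_7d41f7_al

open Finset

/-- The parameters of the linear group. -/
structure Pm (p f n : ℕ) : Prop where
  pp : p.Prime
  f0 : 0 < f
  n4 : 4 ≤ n
  big : 256 < (p ^ f) ^ n

/-- What is known about the order `h` of the socle and its index `a`. -/
structure HData (h a n q : ℕ) : Prop where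
  card : h * a * Nat.gcd n (q - 1) = ordSL n q
  all : ∀ r, Prim q n r ∨ Prim q (n - 1) r → r ∣ h
  c1 : ∀ r, Prim q n r → ∃ b c, a = b * c ∧ b ∣ r - 1 ∧
    ∀ u, u.Prime → u ∣ c → u * (Nat.gcd n (q - 1) * (q - 1)) ∣ q ^ n - 1
  c2 : ∀ r, Prim q (n - 1) r → ∃ b c, a = b * c ∧ b ∣ r - 1 ∧
    ∀ u, u.Prime → u ∣ c → u * Nat.gcd n (q - 1) ∣ q ^ (n - 1) - 1

variable {p f n h a q : ℕ}

theorem Pm.ex1 (P : Pm p f n) : ∃ s, Prim p (f * n) s := by
  refine zsig P.pp.two_le ?_ ?_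
  · nlinarith [P.f0, P.n4]
  · rintro ⟨rfl, h⟩
    have := P.big
    rw [← pow_mul, h] at this
    omega

theorem Pm.ex2 (P : Pm p f n) : ∃ s, Prim p (f * (n - 1)) s := by
  obtain ⟨m, rfl⟩ : ∃ m, n = m + 1 := ⟨n - 1, by have := P.n4; omega⟩
  have h3 : 3 ≤ m := by have := P.n4; omega
  rw [Nat.add_sub_cancel]
  refine zsig P.pp.two_le ?_ ?_
  · nlinarith [P.f0]
  · rintro ⟨rfl, h⟩
    have h1 := P.big
    have h2 : f ≤ 2 := by nlinarith
    rw [← pow_mul, mul_add, h, mul_one] at h1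
    exact absurd (Nat.pow_le_pow_right two_pos (by omega : 6 + f ≤ 8)) (by omega)

theorem cop_tori_geom (x m : ℕ) : ∃ T, (x + 1) ^ m = T * x + 1 ∧ T ≡ m [MOD x] := by
  induction m with
  | zero => exact ⟨0, by simp, rfl⟩
  | succ m ih =>
    obtain ⟨T, e, h⟩ := ih
    exact ⟨T * x + (T + 1), by rw [pow_succ, e]; ring,
      (Nat.mul_add_mod' _ _ _).trans (h.add_right 1)⟩

theorem cop_tori {u : ℕ} (hq : 2 ≤ q) (hn : 2 ≤ n) (hu : u.Prime)
    (h1 : u * (Nat.gcd n (q - 1) * (q - 1)) ∣ q ^ n - 1)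
    (h2 : u * Nat.gcd n (q - 1) ∣ q ^ (n - 1) - 1) : False := by
  obtain ⟨x, rfl⟩ : ∃ x, q = x + 1 := ⟨q - 1, by omega⟩
  obtain ⟨m, rfl⟩ : ∃ m, n = m + 1 := ⟨n - 1, by omega⟩
  obtain ⟨T, e, hT⟩ := cop_tori_geom x m
  have e' : (x + 1) ^ (m + 1) = (T * (x + 1) + 1) * x + 1 := by rw [pow_succ, e]; ring
  simp only [Nat.add_sub_cancel, e, e', ← mul_assoc] at h1 h2
  have h3 := Nat.dvd_of_mul_dvd_mul_right (by omega) h1
  have h4 : u * Nat.gcd (m + 1) x ∣ x := (Nat.Coprime.coprime_dvd_left h3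
    (by simp : Nat.Coprime (T * (x + 1) + 1) T)).dvd_of_dvd_mul_left h2
  have h5 : T * (x + 1) + 1 ≡ m + 1 [MOD x] := by
    rw [mul_add, mul_one, add_assoc]
    exact (Nat.mul_add_mod' _ _ _).trans (hT.add_right 1)
  have h6 := Nat.dvd_gcd (((h5.of_dvd h4).dvd_iff dvd_rfl).1 h3) h4
  exact hu.one_lt.ne' (Nat.dvd_one.1 (Nat.dvd_of_mul_dvd_mul_right
    (Nat.gcd_pos_of_pos_left x m.succ_pos) (by rwa [one_mul])))

theorem Prim.tor1 {r : ℕ} (hq : 2 ≤ q) (hn : 2 ≤ n) (h : Prim q n r) :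
    r * (Nat.gcd n (q - 1) * (q - 1)) ∣ q ^ n - 1 := by
  have h1 := h.min 1 one_pos hn
  have h2 := h.dvd
  obtain ⟨x, rfl⟩ : ∃ x, q = x + 1 := ⟨q - 1, by omega⟩
  obtain ⟨T, e, hT⟩ := cop_tori_geom x n
  simp only [Nat.add_sub_cancel, e, pow_one, ← mul_assoc] at h1 h2 ⊢
  refine Nat.mul_dvd_mul_right (Nat.Coprime.mul_dvd_of_dvd_of_dvd
    (h.pr.coprime_iff_not_dvd.2 fun h3 => h1 (h3.trans (Nat.gcd_dvd_right _ _)))
    ((h.pr.dvd_mul.1 h2).resolve_right h1) ?_) x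
  exact ((hT.of_dvd (Nat.gcd_dvd_right n x)).dvd_iff dvd_rfl).2 (Nat.gcd_dvd_left _ _)

theorem Prim.tor2 {r : ℕ} (hq : 2 ≤ q) (hn : 3 ≤ n) (h : Prim q (n - 1) r) :
    r * Nat.gcd n (q - 1) ∣ q ^ (n - 1) - 1 := by
  have h1 := h.min 1 one_pos (by omega)
  rw [pow_one] at h1
  exact Nat.Coprime.mul_dvd_of_dvd_of_dvd
    (h.pr.coprime_iff_not_dvd.2 fun h3 => h1 (h3.trans (Nat.gcd_dvd_right _ _))) h.dvd
    ((Nat.gcd_dvd_right _ _).trans (Nat.sub_one_dvd_pow_sub_one _ _))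

theorem Pm.tight_aux1 (u : ℕ) (hq : 2 ≤ q) :
    (ordSL n q).factorization u =
      (n * (n - 1) / 2) * q.factorization u + ∑ i ∈ Icc 2 n, (q ^ i - 1).factorization u := by
  have h1 : ∀ i ∈ Icc 2 n, q ^ i - 1 ≠ 0 := fun i hi => by
    have : 1 < q ^ i := Nat.one_lt_pow (by have := (mem_Icc.1 hi).1; omega) hq
    omega
  unfold ordSL
  rw [Nat.factorization_mul (pow_ne_zero _ (by omega)) (prod_ne_zero_iff.2 h1),
    Nat.factorization_pow, Nat.factorization_prod h1]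
  simp

theorem Pm.tight_aux2 {u j : ℕ} (hq : 2 ≤ q) (hu : u.Prime) (h2 : u ≠ 2)
    (hd : u ∣ q ^ 2 ^ j + 1) : Prim q (2 ^ (j + 1)) u := by
  have hx : 1 ≤ q ^ 2 ^ j := Nat.one_le_pow _ _ (by omega)
  have e : q ^ 2 ^ (j + 1) - 1 = (q ^ 2 ^ j + 1) * (q ^ 2 ^ j - 1) := by
    rw [pow_succ, pow_mul, ← Nat.sq_sub_sq, one_pow]
  have hd1 : u ∣ q ^ 2 ^ (j + 1) - 1 := e ▸ hd.mul_right _
  have hnq : ¬ u ∣ q := fun h => by
    have h3 : u ∣ q ^ 2 ^ j := dvd_pow h (by positivity)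
    exact hu.one_lt.ne' (Nat.dvd_one.1 ((Nat.dvd_add_right h3).1 hd))
  obtain ⟨e', he, hP⟩ := exists_prim hu hnq
  have h4 : e' ∣ 2 ^ (j + 1) := (hP.dvd_iff (by omega) he _).1 hd1
  have h5 : ¬ e' ∣ 2 ^ j := fun h => by
    have h6 := (hP.dvd_iff (by omega) he _).2 h
    have h7 := Nat.dvd_sub hd h6
    have h8 : q ^ 2 ^ j + 1 - (q ^ 2 ^ j - 1) = 2 := by omega
    rw [h8] at h7
    exact h2 ((Nat.prime_dvd_prime_iff_eq hu Nat.prime_two).1 h7)
  obtain ⟨k, hk, rfl⟩ := (Nat.dvd_prime_pow Nat.prime_two).1 h4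
  obtain rfl : k = j + 1 := by
    by_contra hc
    exact h5 (pow_dvd_pow 2 (by omega))
  exact hP

/- Suppose all these parts are `1` modulo `r`. `u = p`: the `p`-part is `q ^ (n (n - 1) / 2)`, so
`m ∣ n (n - 1) / 2` (`Prim.dvd_iff`) and `m` is odd. Let `i = 2 ^ j`, `n < 2 i`, `i ≤ n`, `4 ≤ i`,
`y = q ^ (i / 2) + 1`. An odd prime `u ∣ y` has `Prim q i u` (the order divides `i`, not `i / 2`),
`¬ i ∣ m`, and the `u`-part of `c` is that of `q ^ i - 1` (only one factor, `u` is prime to `d`),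
that is of `y`. So the odd part of `y` (`Nat.factorization_prod_pow_eq_self`), which is `y` or
`y / 2` as `q ^ (i / 2)` is a square, is `1` modulo `r`: `r ∣ q` or `m ∣ i / 2`, impossible. -/
theorem Pm.tight (P : Pm p f n) {c m r : ℕ} (hc : c * Nat.gcd n (p ^ f - 1) = ordSL n (p ^ f))
    (hm : m = n ∨ m + 1 = n) (hr : Prim (p ^ f) m r) :
    ∃ u, u.Prime ∧ ¬ u ∣ (p ^ f) ^ m - 1 ∧ ¬ u ^ c.factorization u ≡ 1 [MOD r] := by
  by_contra hcon
  push Not at hcon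
  have hn := P.n4
  have hq : 2 ≤ p ^ f := Nat.one_lt_pow P.f0.ne' P.pp.one_lt
  have hm3 : 3 ≤ m := by omega
  have hd0 : Nat.gcd n (p ^ f - 1) ≠ 0 := Nat.gcd_ne_zero_left (by omega)
  have hc0 : c ≠ 0 := by
    rintro rfl
    rw [zero_mul, ordSL] at hc
    refine mul_ne_zero (pow_ne_zero _ (by omega)) (prod_ne_zero_iff.2 fun i hi => ?_) hc.symm
    have : 1 < (p ^ f) ^ i := Nat.one_lt_pow (by have := (mem_Icc.1 hi).1; omega) hq
    omega
  have hfac : ∀ u, u.Prime → ¬ u ∣ p ^ f - 1 → c.factorization u =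
      (n * (n - 1) / 2) * (p ^ f).factorization u +
        ∑ i ∈ Icc 2 n, ((p ^ f) ^ i - 1).factorization u := by
    intro u hu h1
    rw [← Pm.tight_aux1 u hq, ← hc, Nat.factorization_mul hc0 hd0, Finsupp.add_apply,
      Nat.factorization_eq_zero_of_not_dvd (n := Nat.gcd n (p ^ f - 1))
        fun h => h1 (h.trans (Nat.gcd_dvd_right _ _)), add_zero]
  have hp1 : ∀ i, 0 < i → ¬ p ∣ (p ^ f) ^ i - 1 := fun i hi h => by
    have h1 := Nat.dvd_sub (dvd_pow (dvd_pow_self p P.f0.ne') hi.ne') h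
    rw [Nat.sub_sub_self (Nat.one_le_pow _ _ (by omega))] at h1
    exact P.pp.one_lt.ne' (Nat.dvd_one.1 h1)
  have hodd : ¬ 2 ∣ m := by
    have h1 := hcon p P.pp (hp1 m (by omega))
    rw [hfac p P.pp (by simpa using hp1 1 one_pos), sum_eq_zero fun i hi =>
      Nat.factorization_eq_zero_of_not_dvd (hp1 i (by have := (mem_Icc.1 hi).1; omega)),
      add_zero, Nat.Prime.factorization_pow P.pp, Finsupp.single_eq_same, mul_comm, pow_mul] at h1
    have h2 := (Nat.modEq_iff_dvd' (Nat.one_le_pow _ _ (by omega))).1 h1.symm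
    obtain ⟨t, ht⟩ := (hr.dvd_iff (by omega) (by omega) _).1 h2
    have h3 : 2 * (n * (n - 1) / 2) = n * (n - 1) :=
      Nat.mul_div_cancel' (Nat.even_mul_pred_self n).two_dvd
    rw [ht] at h3
    rcases hm with rfl | rfl
    · have h4 : m * (2 * t) = m * (m - 1) := by rw [← h3]; ring
      have := Nat.eq_of_mul_eq_mul_left (by omega) h4
      omega
    · have h4 : m * (2 * t) = m * (m + 1) := by
        rw [Nat.add_sub_cancel] at h3
        rw [mul_comm m (m + 1), ← h3]; ring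
      have := Nat.eq_of_mul_eq_mul_left (by omega) h4
      omega
  obtain ⟨j, hj1, hj2⟩ : ∃ j, 2 ^ (j + 1 + 1) ≤ n ∧ n < 2 * 2 ^ (j + 1 + 1) := by
    have h1 : 2 ≤ Nat.log 2 n := Nat.le_log_of_pow_le (by norm_num) hn
    refine ⟨Nat.log 2 n - 2, ?_⟩
    rw [show Nat.log 2 n - 2 + 1 + 1 = Nat.log 2 n by omega]
    refine ⟨Nat.pow_log_le_self 2 (by omega), ?_⟩
    have := Nat.lt_pow_succ_log_self (b := 2) (by norm_num) n
    rw [Nat.succ_eq_add_one, pow_succ] at this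
    omega
  generalize p ^ f = q at *
  have hx : 1 < q ^ 2 ^ (j + 1) := Nat.one_lt_pow (by positivity) hq
  have hi2 : 2 ∣ 2 ^ (j + 1 + 1) := dvd_pow_self 2 (by omega)
  have hi0 : 0 < 2 ^ (j + 1 + 1) := by positivity
  have key : ∀ u, u.Prime → u ≠ 2 → u ∣ q ^ 2 ^ (j + 1) + 1 →
      u ^ (q ^ 2 ^ (j + 1) + 1).factorization u ≡ 1 [MOD r] := by
    intro u hu h2 hd
    have hP := Pm.tight_aux2 hq hu h2 hd
    have h1 := hcon u hu fun h => hodd (hi2.trans ((hP.dvd_iff (by omega) hi0 _).1 h))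
    have h3 : ¬ u ∣ q - 1 := by simpa using hP.min 1 one_pos (by omega)
    rw [hfac u hu h3, Nat.factorization_eq_zero_of_not_dvd (hP.not_dvd (by omega) hi0), mul_zero,
      zero_add, sum_eq_single (2 ^ (j + 1 + 1))] at h1
    · have e : q ^ 2 ^ (j + 1 + 1) - 1 = (q ^ 2 ^ (j + 1) + 1) * (q ^ 2 ^ (j + 1) - 1) := by
        rw [pow_succ, pow_mul, ← Nat.sq_sub_sq, one_pow]
      rw [e, Nat.factorization_mul (by omega) (by omega), Finsupp.add_apply,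
        Nat.factorization_eq_zero_of_not_dvd (n := q ^ 2 ^ (j + 1) - 1)
          (hP.min _ (by positivity) (Nat.pow_lt_pow_right (by norm_num) (by omega))),
        add_zero] at h1
      exact h1
    · intro k hk hne
      refine Nat.factorization_eq_zero_of_not_dvd fun h => hne ?_
      obtain ⟨t, ht⟩ := (hP.dvd_iff (by omega) hi0 _).1 h
      have h4 := mem_Icc.1 hk
      obtain rfl : t = 1 := by
        rcases t with _ | _ | t
        · omega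
        · rfl
        · exfalso
          have : 2 ^ (j + 1 + 1) * (t + 1 + 1) = 2 * 2 ^ (j + 1 + 1) + 2 ^ (j + 1 + 1) * t := by ring
          omega
      omega
    · intro h
      exact absurd (mem_Icc.2 ⟨Nat.le_of_dvd hi0 hi2, hj1⟩) h
  have hy : q ^ 2 ^ (j + 1) + 1 ≡ 2 ^ (q ^ 2 ^ (j + 1) + 1).factorization 2 [MOD r] := by
    have h4 : q ^ 2 ^ (j + 1) + 1 ≠ 0 := by omega
    generalize q ^ 2 ^ (j + 1) + 1 = y at key h4 ⊢
    rw [← ZMod.natCast_eq_natCast_iff]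
    conv_lhs => rw [← Nat.prod_factorization_pow_eq_self h4, Finsupp.prod, Nat.cast_prod]
    refine prod_eq_single 2 (fun u hu h2 => ?_) fun h => ?_
    · rw [Nat.support_factorization] at hu
      have := (ZMod.natCast_eq_natCast_iff _ _ _).2
        (key u (Nat.prime_of_mem_primeFactors hu) h2 (Nat.dvd_of_mem_primeFactors hu))
      rw [this, Nat.cast_one]
    · rw [Finsupp.notMem_support_iff.1 h, pow_zero, Nat.cast_one]
  have h4 : (q ^ 2 ^ (j + 1) + 1).factorization 2 < 2 := by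
    by_contra h
    have h5 := (Nat.prime_two.pow_dvd_iff_le_factorization (by omega)).2 (not_lt.1 h)
    rw [pow_succ 2 j, pow_mul] at h5
    generalize q ^ 2 ^ j = x at h5
    have h6 : x ^ 2 % 4 = 0 ∨ x ^ 2 % 4 = 1 := by
      have : x % 4 = 0 ∨ x % 4 = 1 ∨ x % 4 = 2 ∨ x % 4 = 3 := by omega
      rcases this with h | h | h | h <;> simp [Nat.pow_mod, h]
    omega
  generalize (q ^ 2 ^ (j + 1) + 1).factorization 2 = e at hy h4
  interval_cases e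
  · have h5 := (Nat.modEq_iff_dvd' (by omega)).1 hy.symm
    rw [pow_zero, Nat.add_sub_cancel] at h5
    exact hr.not_dvd (by omega) (by omega) (hr.pr.dvd_of_dvd_pow h5)
  · have h5 := (Nat.modEq_iff_dvd' (by omega)).1 hy.symm
    rw [show q ^ 2 ^ (j + 1) + 1 - 2 ^ 1 = q ^ 2 ^ (j + 1) - 1 by omega] at h5
    obtain ⟨k, -, rfl⟩ := (Nat.dvd_prime_pow Nat.prime_two).1
      ((hr.dvd_iff (by omega) (by omega) _).1 h5)
    rcases k with _ | k
    · omega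
    · exact hodd (dvd_pow_self 2 (by omega))

theorem Pm.free (P : Pm p f n) {s s' k : ℕ} (h1 : Prim p (f * n) s) (h2 : Prim p (f * (n - 1)) s')
    (e1 : p ^ k ≡ 1 [MOD s]) (e2 : p ^ k ≡ 1 [MOD s']) (hk : p ^ k ∣ ordSL n (p ^ f)) : k = 0 := by
  obtain ⟨m, rfl⟩ : ∃ m, n = m + 1 := ⟨n - 1, by have := P.n4; omega⟩
  have h3 : 3 ≤ m := by have := P.n4; omega
  have p1 := P.pp.one_le
  have f0 := P.f0
  have k1 : 1 ≤ p ^ k := Nat.one_le_pow _ _ p1
  rw [Nat.add_sub_cancel] at h2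
  obtain ⟨c, rfl⟩ := (h1.dvd_iff p1 (by positivity) k).1 ((Nat.modEq_iff_dvd' k1).1 e1.symm)
  have d2 := (h2.dvd_iff p1 (Nat.mul_pos f0 (by omega)) _).1 ((Nat.modEq_iff_dvd' k1).1 e2.symm)
  rw [mul_assoc] at d2
  obtain ⟨b, rfl⟩ := (by simp : Nat.Coprime m (m + 1)).dvd_of_dvd_mul_left
    (Nat.dvd_of_mul_dvd_mul_left f0 d2)
  have hc : Nat.Coprime p (∏ i ∈ Icc 2 (m + 1), ((p ^ f) ^ i - 1)) :=
    Nat.Coprime.prod_right fun i hi => by
      have hi2 := (mem_Icc.1 hi).1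
      refine P.pp.coprime_iff_not_dvd.2 fun h4 => P.pp.one_lt.ne' (Nat.dvd_one.1 ?_)
      have h5 := Nat.dvd_sub (dvd_pow (dvd_pow_self p f0.ne') (by omega : i ≠ 0)) h4
      rwa [Nat.sub_sub_self (Nat.one_le_pow _ _ (Nat.one_le_pow _ _ p1))] at h5
  have h6 := (hc.pow_left _).dvd_of_dvd_mul_right hk
  rw [← pow_mul, Nat.pow_dvd_pow_iff_le_right P.pp.one_lt, mul_assoc, Nat.add_sub_cancel,
    ← mul_assoc (m + 1)] at h6
  have h7 := Nat.le_of_mul_le_mul_left h6 f0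
  have h8 : 0 < (m + 1) * m := Nat.mul_pos m.succ_pos (by omega)
  rcases b with _ | b
  · simp
  · generalize (m + 1) * m = y at h7 h8
    rw [mul_add] at h7
    omega

theorem Pm.ineq_sec_aux1 {x : ℕ} (c e N : ℕ) (hx : x ≤ 2 ^ n * q ^ (n - 1)) (hq : 0 < q) (hc : c ≤ q)
    (h : 2 ^ (n * 5) < c ^ e) (he : e + (n - 1) * 5 = N * 3) : x ^ 5 < (q ^ N) ^ 3 :=
  calc x ^ 5 ≤ (2 ^ n * q ^ (n - 1)) ^ 5 := Nat.pow_le_pow_left hx 5
    _ = 2 ^ (n * 5) * q ^ ((n - 1) * 5) := by rw [mul_pow, ← pow_mul, ← pow_mul]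
    _ < q ^ e * q ^ ((n - 1) * 5) :=
      mul_lt_mul_of_pos_right (h.trans_le (Nat.pow_le_pow_left hc e)) (pow_pos hq _)
    _ = _ := by rw [← pow_add, ← pow_mul, he]

/-- The statement at one value of the parameter. -/
abbrev secIP (v : ℕ) : Prop :=
  (((List.range 11).any fun d => decide (d ∣ v ∧ d ≠ 1 ∧ d ≠ v))
      || (List.range 102).all fun q => (List.range 24).all fun k =>
        decide (5 ≤ q → v ^ k * Nat.gcd 4 (q - 1) ∣ (q ^ 2 - 1) * (q ^ 3 - 1) * (q ^ 4 - 1) →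
          (v ^ k) ^ 5 < (q ^ 6) ^ 3) && decide (4 ≤ q ∧ q < 6 →
          v ^ k ∣ (q ^ 2 - 1) * (q ^ 3 - 1) * (q ^ 4 - 1) * (q ^ 5 - 1) →
          (v ^ k) ^ 5 < (q ^ 10) ^ 3)) = true

theorem secI0 : ∀ v < 14, secIP v := by decide +kernel

theorem secI1 : ∀ v < 40, 14 ≤ v → secIP v := by decide +kernel

theorem secI2 : ∀ v < 70, 40 ≤ v → secIP v := by decide +kernel

theorem secI3 : ∀ v < 103, 70 ≤ v → secIP v := by decide +kernel

theorem Pm.ineq_sec_aux2 {v k : ℕ} (hv : v.Prime) (h1 : v < 103) (h2 : q < 102) (h3 : k < 24) :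
    (5 ≤ q → v ^ k * Nat.gcd 4 (q - 1) ∣ (q ^ 2 - 1) * (q ^ 3 - 1) * (q ^ 4 - 1) →
      (v ^ k) ^ 5 < (q ^ 6) ^ 3) ∧ (4 ≤ q ∧ q < 6 →
      v ^ k ∣ (q ^ 2 - 1) * (q ^ 3 - 1) * (q ^ 4 - 1) * (q ^ 5 - 1) → (v ^ k) ^ 5 < (q ^ 10) ^ 3) := by
  have h := ball_app (ball_app (ball_app secI0 secI1) secI2) secI3 v h1
  simp only [List.all_eq_true, List.any_eq_true, List.mem_range, Bool.or_eq_true, Bool.and_eq_true,
    decide_eq_true_eq, secIP] at h
  rcases h with ⟨d, -, a, b, c⟩ | h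
  · exact ((hv.eq_one_or_self_of_dvd d a).elim b c).elim
  · exact h q h2 k h3

theorem Pm.ineq_sec_aux4 {v k t : ℕ} (hv : v.Prime) (ht : 2 ≤ t) (h : t + 2 < v)
    (hk : v ^ k ∣ ((t + 1) ^ 2 - 1) * ((t + 1) ^ 3 - 1) * ((t + 1) ^ 4 - 1)) :
    v ^ k ≤ (t + 1) ^ 3 := by
  have e1 : (t + 1) ^ 2 - 1 = t * (t + 2) := Nat.sub_eq_of_eq_add (by ring)
  have e2 : (t + 1) ^ 3 - 1 = t * ((t + 1) ^ 2 + 1 + (t + 1)) := Nat.sub_eq_of_eq_add (by ring)
  have e3 : (t + 1) ^ 4 - 1 = t * (t + 2) * ((t + 1) ^ 2 + 1) := Nat.sub_eq_of_eq_add (by ring)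
  have c : ∀ a, 0 < a → a < v → ∀ j, (v ^ k).Coprime (a ^ j) := fun a h1 h2 j =>
    (hv.coprime_iff_not_dvd.2 (Nat.not_dvd_of_pos_of_lt h1 h2)).pow _ _
  have h1 : v ^ k ∣ ((t + 1) ^ 2 + 1 + (t + 1)) * ((t + 1) ^ 2 + 1) :=
    (c (t + 2) (by omega) h 2).dvd_of_dvd_mul_left ((c t (by omega) (by omega) 3).dvd_of_dvd_mul_left
      (hk.trans (dvd_of_eq (by rw [e1, e2, e3]; ring))))
  by_cases h2 : v ∣ (t + 1) ^ 2 + 1
  · have h3 : ¬ v ∣ (t + 1) ^ 2 + 1 + (t + 1) := fun h3 =>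
      Nat.not_dvd_of_pos_of_lt (by omega) (by omega) ((Nat.dvd_add_right h2).1 h3)
    have := Nat.le_of_dvd (by positivity)
      (((hv.coprime_iff_not_dvd.2 h3).pow_left k).dvd_of_dvd_mul_left h1)
    nlinarith
  · have := Nat.le_of_dvd (by positivity)
      (((hv.coprime_iff_not_dvd.2 h2).pow_left k).dvd_of_dvd_mul_right h1)
    nlinarith

theorem Pm.ineq_sec_aux5 {v k : ℕ} (hq : 2 ≤ q) (hn : 4 ≤ n) (big : 256 < q ^ n) (hv : v.Prime)
    (hvq : ¬ v ∣ q) (hk : v ^ k * Nat.gcd n (q - 1) ∣ ∏ i ∈ Icc 2 n, (q ^ i - 1)) :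
    (v ^ k) ^ 5 < (q ^ (n * (n - 1) / 2)) ^ 3 := by
  have h0 := (dvd_mul_right _ _).trans hk
  have hx := pp_SL hq (by omega) hv hvq h0
  have hk' : v ^ k < 2 ^ 24 → k < 24 := fun h => (Nat.pow_lt_pow_iff_right one_lt_two).1
    ((Nat.pow_le_pow_left hv.two_le k).trans_lt h)
  have hb : ∀ c, c ^ n ≤ 256 → c < q := fun c h => lt_of_pow_lt_pow_left₀ n (by omega) (h.trans_lt big)
  by_cases h8 : 8 ≤ n
  · obtain ⟨m, rfl⟩ := Nat.exists_eq_add_of_le' h8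
    have := Nat.two_mul_div_two_of_even (Nat.even_mul_pred_self (m + 8))
    generalize (m + 8) * (m + 8 - 1) / 2 = N at this ⊢
    rw [show m + 8 - 1 = m + 7 from rfl] at this
    have h1 : (m + 8) * 5 + (m + 7) * 5 < N * 3 := by nlinarith
    exact Pm.ineq_sec_aux1 2 (N * 3 - (m + 7) * 5) N hx (by omega) hq
      (Nat.pow_lt_pow_right one_lt_two (by omega)) (by omega)
  have h4 : n = 4 ∨ n = 5 ∨ n = 6 ∨ n = 7 := by omega
  rcases h4 with rfl | rfl | rfl | rfl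
  · have h5 := hb 4 (by norm_num)
    by_cases h1 : 102 ≤ q
    · exact Pm.ineq_sec_aux1 102 3 6 hx (by omega) h1 (by norm_num) rfl
    rw [show Icc 2 4 = {2, 3, 4} from rfl] at hk h0
    simp only [mem_insert, mem_singleton, Nat.reduceEqDiff, or_self, not_false_eq_true,
      prod_insert, prod_singleton, ← mul_assoc] at hk h0
    by_cases h2 : v < 103
    · refine (Pm.ineq_sec_aux2 hv h2 (by omega) (hk' (hx.trans_lt ?_))).1 h5 hk
      have := Nat.pow_le_pow_left (show q ≤ 101 by omega) (4 - 1)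
      omega
    · obtain ⟨t, rfl⟩ := Nat.exists_eq_add_of_le' (show 1 ≤ q by omega)
      refine (Nat.pow_le_pow_left (Pm.ineq_sec_aux4 hv (by omega) (by omega) h0) 5).trans_lt ?_
      rw [← pow_mul, ← pow_mul]
      exact Nat.pow_lt_pow_right hq (by norm_num)
  · have h5 := hb 3 (by norm_num)
    by_cases h1 : 6 ≤ q
    · exact Pm.ineq_sec_aux1 6 10 10 hx (by omega) h1 (by norm_num) rfl
    rw [show Icc 2 5 = {2, 3, 4, 5} from rfl] at h0
    simp only [mem_insert, mem_singleton, Nat.reduceEqDiff, or_self, not_false_eq_true,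
      prod_insert, prod_singleton, ← mul_assoc] at h0
    by_cases h2 : v < 103
    · refine (Pm.ineq_sec_aux2 hv h2 (by omega) (hk' (hx.trans_lt ?_))).2 ⟨h5, by omega⟩ h0
      have := Nat.pow_le_pow_left (show q ≤ 5 by omega) (5 - 1)
      omega
    · rcases k with _ | k
      · rw [pow_zero, one_pow]
        exact Nat.one_lt_pow (by norm_num) (Nat.one_lt_pow (by norm_num) hq)
      · have h3 : (q ^ 2 - 1) * (q ^ 3 - 1) * (q ^ 4 - 1) * (q ^ 5 - 1) ∣ Nat.factorial 102 := by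
          interval_cases q <;> decide +kernel
        exact absurd (hv.dvd_factorial.1 ((dvd_pow_self v k.succ_ne_zero).trans (h0.trans h3)))
          (by omega)
  · exact Pm.ineq_sec_aux1 3 20 15 hx (by omega) (hb 2 (by norm_num)) (by norm_num) rfl
  · exact Pm.ineq_sec_aux1 3 33 21 hx (by omega) (hb 2 (by norm_num)) (by norm_num) rfl

theorem Pm.ineq_sec (P : Pm p f n) {v k : ℕ} (hv : v.Prime) (hne : v ≠ p)
    (hk : v ^ k * Nat.gcd n (p ^ f - 1) ∣ ordSL n (p ^ f)) :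
    (v ^ k) ^ 5 < ((p ^ f) ^ (n * (n - 1) / 2)) ^ 3 := by
  have hq : 2 ≤ p ^ f := Nat.one_lt_pow P.f0.ne' P.pp.one_lt
  have hvq : ¬ v ∣ p ^ f := fun h =>
    hne ((Nat.prime_dvd_prime_iff_eq hv P.pp).1 (hv.dvd_of_dvd_pow h))
  refine Pm.ineq_sec_aux5 hq P.n4 P.big hv hvq (Nat.Coprime.dvd_of_dvd_mul_left
    (Nat.Coprime.pow_right _ (Nat.Coprime.mul_left ((hv.coprime_iff_not_dvd.2 hvq).pow_left k)
      (Nat.Coprime.coprime_dvd_left (Nat.gcd_dvd_right _ _) ?_))) hk)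
  exact (Nat.coprime_self_sub_left (by omega)).2 (Nat.coprime_one_left _)

theorem Pm.ineq_cross_aux1 (hq : 2 ≤ q) (hn : 2 ≤ n) :
    q ^ (n * n) * (q ^ n + 2) ≤ 2 * q ^ n * q * ordSL n q := by
  induction n, hn using Nat.le_induction with
  | base =>
    obtain ⟨x, hx⟩ := Nat.exists_eq_add_of_le (Nat.pow_le_pow_left hq 2)
    have e : ordSL 2 q = q * (q ^ 2 - 1) := by simp [ordSL]
    have e' : q ^ (2 * 2) * (q ^ 2 + 2) = q ^ 2 * q ^ 2 * (q ^ 2 + 2) := by ring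
    have e'' : 2 * q ^ 2 * q * (q * (q ^ 2 - 1)) = q ^ 2 * q ^ 2 * (2 * (q ^ 2 - 1)) := by ring
    rw [e, e', e'']
    exact Nat.mul_le_mul_left _ (by omega)
  | succ n hn ih =>
    have e : ordSL (n + 1) q = q ^ n * (q ^ (n + 1) - 1) * ordSL n q := by
      rw [ordSL, ordSL, Nat.triangle_succ, prod_Icc_succ_top (by omega), pow_add]
      ring
    have hx : 2 ≤ q ^ n := hq.trans (Nat.le_self_pow (by omega) q)
    have h1 := Nat.mul_le_mul_left (q ^ n) hq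
    obtain ⟨z, hz⟩ := Nat.exists_eq_add_of_le (show 1 ≤ q ^ n * q by omega)
    have e' : q ^ ((n + 1) * (n + 1)) = q ^ (n * n) * q ^ n * (q ^ n * q) := by ring
    rw [e, e', pow_succ]
    generalize q ^ (n * n) = y, q ^ n = x, ordSL n q = O at *
    rw [hz, Nat.add_sub_cancel_left]
    have h2 : x * (1 + z + 2) ≤ (x + 2) * z := by nlinarith
    calc _ = (1 + z) * (y * (x * (1 + z + 2))) := by ring
      _ ≤ (1 + z) * (y * ((x + 2) * z)) := by gcongr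
      _ = (1 + z) * z * (y * (x + 2)) := by ring
      _ ≤ (1 + z) * z * (2 * x * q * O) := by gcongr
      _ = _ := by ring

theorem Pm.ineq_cross_aux2 {v k : ℕ} (hv : v.Prime) (L : List ℕ) (h : L.Pairwise Nat.Coprime)
    (hd : v ^ k ∣ L.prod) : ∃ x ∈ 1 :: L, v ^ k ∣ x := by
  induction L with
  | nil => exact ⟨1, by simp, hd⟩
  | cons a L ih =>
    rw [List.pairwise_cons] at h
    by_cases e : v ∣ a
    · exact ⟨a, by simp, (((Nat.coprime_list_prod_right_iff.2 h.1).coprime_dvd_left e).pow_left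
        k).dvd_of_dvd_mul_right hd⟩
    · obtain ⟨x, h1, h2⟩ := ih h.2 (((hv.coprime_iff_not_dvd.2 e).pow_left k).dvd_of_dvd_mul_left hd)
      exact ⟨x, by grind, h2⟩

/-- Pairwise coprime factors of the part of the order that is prime to `q`. -/
def Pm.ineq_cross_L (n q : ℕ) : List ℕ :=
  [2, 3, 5].map (fun u => Nat.gcd ((∏ i ∈ Icc 2 n, (q ^ i - 1)) / Nat.gcd n (q - 1)) (u ^ 99)) ++
    [(q - 1, n - 1), (q + 1, n / 2), (q ^ 2 + q + 1, n / 3), (q ^ 2 + 1, n / 4),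
      (q ^ 4 + q ^ 3 + q ^ 2 + q + 1, n / 5), (q ^ 2 - q + 1, n / 6)].map
      fun u => (u.1 / Nat.gcd u.1 (30 ^ 40)) ^ u.2

theorem Pm.ineq_cross_aux3 : ∀ n < 7, ∀ q < 256, 4 ≤ n ∧ (n = 4 ∨ q < 17) ∧ 256 < q ^ n →
    (ineq_cross_L n q).Pairwise Nat.Coprime ∧
    (ineq_cross_L n q).prod * Nat.gcd n (q - 1) = ∏ i ∈ Icc 2 n, (q ^ i - 1) ∧
    ∀ x ∈ 1 :: ineq_cross_L n q, 0 < x ∧ x ^ 3 * ((if n = 4 then q ^ 2 else (q ^ n - 1) / (q - 1)) *
      ((q ^ (n - 1) - 1) / (q - 1))) * Nat.gcd n (q - 1) < ordSL n q := by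
  simp only [imp_and, forall_and]
  refine ⟨?_, ?_, ?_, ?_⟩ <;> decide +kernel

theorem Pm.ineq_cross_aux4 {m : ℕ} (hq : 2 ≤ q) (h : 256 < q ^ (m + 5)) (h' : m < 2 → 17 ≤ q) :
    8 ^ (m + 6) * (m + 5) ≤ q ^ (m * m + 5 * m + 5) := by
  rcases lt_or_ge m 2 with h1 | h1
  · refine le_trans ?_ (Nat.pow_le_pow_left (h' h1) _)
    interval_cases m <;> norm_num
  rcases lt_or_ge m 4 with h2 | h2
  · refine le_trans ?_ (Nat.pow_le_pow_left (show 3 ≤ q from ?_) _)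
    · interval_cases m <;> norm_num
    · by_contra e
      obtain rfl : q = 2 := by omega
      interval_cases m <;> norm_num at h
  calc _ ≤ 8 ^ (m + 6) * 2 ^ (m + 5) := Nat.mul_le_mul_left _ Nat.lt_two_pow_self.le
    _ = 2 ^ (4 * m + 23) := by rw [show 8 = 2 ^ 3 from rfl, ← pow_mul]; ring
    _ ≤ 2 ^ (m * m + 5 * m + 5) := Nat.pow_le_pow_right two_pos (by nlinarith)
    _ ≤ _ := Nat.pow_le_pow_left hq _

theorem Pm.ineq_cross (P : Pm p f n) {v k s s' : ℕ} (hv : v.Prime) (hne : v ≠ p)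
    (hk : v ^ k * Nat.gcd n (p ^ f - 1) ∣ ordSL n (p ^ f)) (h1 : Prim (p ^ f) n s)
    (h2 : Prim (p ^ f) (n - 1) s') :
    (v ^ k) ^ 3 * ((s - 1) * (s' - 1)) * Nat.gcd n (p ^ f - 1) < ordSL n (p ^ f) := by
  have hn := P.n4
  have hb := P.big
  have hq : 2 ≤ p ^ f := Nat.one_lt_pow P.f0.ne' P.pp.one_lt
  have hv' : ¬ v ∣ p ^ f := fun e => hne ((Nat.prime_dvd_prime_iff_eq hv P.pp).1
    (hv.dvd_of_dvd_pow e))
  generalize p ^ f = q at *
  have hd : 0 < Nat.gcd n (q - 1) := Nat.gcd_pos_of_pos_left _ (by omega)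
  replace hk : v ^ k * Nat.gcd n (q - 1) ∣ ∏ i ∈ Icc 2 n, (q ^ i - 1) :=
    (Nat.Coprime.pow_right _ (((hv.coprime_iff_not_dvd.2 hv').pow_left k).mul_left
      (((Nat.coprime_self_sub_left (by omega)).2 (Nat.coprime_one_left q)).coprime_dvd_left
        (Nat.gcd_dvd_right _ _)))).dvd_of_dvd_mul_left hk
  have h3 : ∀ m r, 2 ≤ m → Prim q m r → r * (q - 1) ≤ q ^ m - 1 := fun m r hm h =>
    Nat.le_of_dvd (Nat.sub_pos_of_lt (Nat.one_lt_pow (by omega) hq))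
      ((mul_dvd_mul_left r (dvd_mul_left _ _)).trans (h.tor1 hq hm))
  have h4 : ∀ m r, 1 ≤ m → Prim q (m + 1) r → r - 1 ≤ 2 * q ^ m := fun m r hm h => by
    have := h3 _ r (by omega) h
    refine (Nat.sub_le _ _).trans (Nat.le_of_mul_le_mul_right (this.trans ?_) (c := q - 1) (by omega))
    rw [pow_succ, mul_comm 2, mul_assoc]
    exact (Nat.sub_le _ _).trans (Nat.mul_le_mul_left _ (by omega))
  have h5 : n = 4 → s - 1 ≤ q ^ 2 := by
    rintro rfl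
    have e : q ^ 4 - 1 = (q ^ 2 + 1) * (q ^ 2 - 1) := by
      rw [← Nat.sq_sub_sq, ← pow_mul, one_pow]
    have := Nat.le_of_dvd (Nat.succ_pos _) (((Nat.Prime.dvd_mul h1.pr).1 (e ▸ h1.dvd)).resolve_right
      (h1.min 2 two_pos (by norm_num)))
    omega
  by_cases hc : n < 7 ∧ q < 256 ∧ (n = 4 ∨ q < 17)
  · obtain ⟨a1, a2, a3⟩ := ineq_cross_aux3 n hc.1 q hc.2.1 ⟨hn, hc.2.2, hb⟩
    obtain ⟨x, b1, b2⟩ := ineq_cross_aux2 hv _ a1 (Nat.dvd_of_mul_dvd_mul_right hd (a2 ▸ hk))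
    have b3 := Nat.le_of_dvd (a3 x b1).1 b2
    have b4 := fun m r hm h => (Nat.sub_le r 1).trans
      ((Nat.le_div_iff_mul_le (show 0 < q - 1 by omega)).2 (h3 m r hm h))
    refine lt_of_le_of_lt ?_ (a3 x b1).2
    gcongr
    · split_ifs with e
      exacts [h5 e, b4 _ _ (by omega) h1]
    · exact b4 _ _ (by omega) h2
  have h6 := pp_SL hq (by omega) hv hv' ((dvd_mul_right _ _).trans hk)
  have h7 := Nat.gcd_le_left (q - 1) (show 0 < n by omega)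
  have h8 : q ^ (n * n) < 2 * q * ordSL n q := by
    have := ineq_cross_aux1 hq (show 2 ≤ n by omega)
    have h0 : 0 < q ^ (n * n) := by positivity
    refine Nat.lt_of_mul_lt_mul_right (a := q ^ n) (by nlinarith)
  refine Nat.lt_of_mul_lt_mul_left (lt_of_le_of_lt ?_ h8)
  rcases hn.eq_or_lt with rfl | hn
  · have c1 := h5 rfl
    have c2 := h4 2 s' (by norm_num) h2
    calc _ ≤ 2 * q * ((2 ^ 4 * q ^ (4 - 1)) ^ 3 * (q ^ 2 * (2 * q ^ 2)) * 4) := by gcongr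
      _ = 256 ^ 2 * q ^ 14 := by ring
      _ ≤ q ^ 2 * q ^ 14 := by gcongr; omega
      _ = _ := by ring
  obtain ⟨m, rfl⟩ : ∃ m, n = m + 5 := ⟨n - 5, by omega⟩
  have c1 := h4 (m + 4) s (by omega) h1
  have c2 := h4 (m + 3) s' (by omega) h2
  calc _ ≤ 2 * q * ((2 ^ (m + 5) * q ^ (m + 4)) ^ 3 * (2 * q ^ (m + 4) * (2 * q ^ (m + 3))) *
        (m + 5)) := by gcongr; exact h6
    _ = 8 ^ (m + 6) * (m + 5) * q ^ (5 * m + 20) := by
      rw [show 8 = 2 ^ 3 from rfl, ← pow_mul]; ring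
    _ ≤ q ^ (m * m + 5 * m + 5) * q ^ (5 * m + 20) :=
      Nat.mul_le_mul_right _ (ineq_cross_aux4 hq hb (by omega))
    _ = _ := by ring

theorem HData.a_dvd (H : HData h a n q) (hq : 2 ≤ q) (hn : 2 ≤ n) {s s' : ℕ} (h1 : Prim q n s)
    (h2 : Prim q (n - 1) s') : a ∣ (s - 1) * (s' - 1) := by
  obtain ⟨b, c, e, hb, hc⟩ := H.c1 s h1
  obtain ⟨b', c', e', hb', hc'⟩ := H.c2 s' h2
  have h3 : Nat.Coprime c c' := Nat.coprime_of_dvd fun u hu d1 d2 =>
    cop_tori hq hn hu (hc u hu d1) (hc' u hu d2)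
  have h4 : c ∣ b' := h3.dvd_of_dvd_mul_right (e' ▸ e ▸ dvd_mul_left c b)
  exact e ▸ mul_dvd_mul hb (h4.trans hb')

/- `v ≠ p`: `h ≤ (u ^ N) ^ 3`, `a_dvd`, `ineq_cross` with `k = g N`, against `card`. So `v = p`.
If `f n < g D` take `r` from `zsig` for `g D` (`f n ≥ 9` for `p = 2`); `r ∣ h ∣ ordSL`, `r ≠ p`, so
`r ∣ q ^ i - 1` with `i ≤ n` and `g D ∣ f i`, absurd. `s` from `ex1` divides `h` (`Prim.pow`, `all`)
so `f n ∣ g j ≤ g D` for some `j ∈ I`: `g D = f n`. `s'` from `ex2`: `f (n - 1) ∣ g j ≤ f n`, so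
`g j = f (n - 1)`. Finally `p ^ (g N) ∣ ordSL` gives `g N ≤ f n (n - 1) / 2`. -/
theorem HData.same (P : Pm p f n) (H : HData h a n (p ^ f)) {v g N D : ℕ} {I : Finset ℕ}
    (L : LT h v g N D I) :
    v = p ∧ g * D = f * n ∧ (∃ j ∈ I, j * n = D * (n - 1)) ∧ 2 * N ≤ D * (n - 1) := by
  obtain ⟨s, hs⟩ := P.ex1
  obtain ⟨s', hs'⟩ := P.ex2
  have n4 := P.n4
  have f0 := P.f0
  have g0 := L.g0
  have p1 : 1 ≤ p := P.pp.pos
  have t := hs.pow p1 f0 (by omega)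
  have t' := hs'.pow p1 f0 (by omega)
  have hd : h ∣ ordSL n (p ^ f) := H.card ▸ (dvd_mul_right h a).mul_right _
  have hk : v ^ (g * N) ∣ h := pow_mul v g N ▸ L.pp
  obtain rfl : v = p := by
    by_contra hne
    have i1 := P.ineq_cross L.pv hne (H.card ▸ Nat.mul_dvd_mul_right (hk.mul_right a) _) t t'
    have i2 := Nat.le_of_dvd (Nat.mul_pos (Nat.sub_pos_of_lt t.pr.one_lt)
      (Nat.sub_pos_of_lt t'.pr.one_lt))
      (H.a_dvd (Nat.one_lt_pow f0.ne' P.pp.one_lt) (by omega) t t')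
    rw [← H.card, pow_mul] at i1
    exact absurd i1 (not_lt.2 (Nat.mul_le_mul_right _ (Nat.mul_le_mul L.le i2)))
  have fn : n ≤ f * n := Nat.le_mul_of_pos_left n f0
  have e1 : g * D ≤ f * n := by
    by_contra hl
    obtain ⟨r, hr⟩ := zsig (m := g * D) P.pp.two_le (by omega) fun e => by
      have := P.big
      rw [e.1, ← pow_mul] at this
      have := (Nat.pow_lt_pow_iff_right (a := 2) (n := 8) one_lt_two).1 this
      omega
    rcases (Nat.Prime.dvd_mul hr.pr).1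
      ((L.all D L.mem (Or.inr rfl) (by omega) r hr).trans hd) with e | e
    · exact hr.not_dvd p1 (by omega) (hr.pr.dvd_of_dvd_pow (hr.pr.dvd_of_dvd_pow e))
    · obtain ⟨i, hi, e⟩ := (hr.pr.prime.dvd_finsetProd_iff _).1 e
      rw [mem_Icc] at hi
      rw [← pow_mul, hr.dvd_iff p1 (by omega)] at e
      exact hl ((Nat.le_of_dvd (Nat.mul_pos f0 (by omega)) e).trans (Nat.mul_le_mul_left f hi.2))
  have key : ∀ m r, 0 < m → Prim v (f * m) r → r ∣ h → ∃ j ∈ I, 0 < g * j ∧ g * j ≤ g * D ∧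
      f * m ∣ g * j := fun m r hm hr e => by
    have m0 := Nat.mul_pos f0 hm
    rcases L.div r hr.pr e with e | ⟨j, hj, e⟩
    · exact absurd (e ▸ dvd_rfl) (hr.not_dvd p1 m0)
    · rw [← pow_mul, hr.dvd_iff p1 m0] at e
      exact ⟨j, hj, Nat.mul_pos g0 (L.bd j hj).1, Nat.mul_le_mul_left g (L.bd j hj).2, e⟩
  obtain ⟨j, -, a1, a2, a3⟩ := key n s (by omega) hs (H.all s (Or.inl t))
  have e2 : g * D = f * n := e1.antisymm ((Nat.le_of_dvd a1 a3).trans a2)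
  obtain ⟨j, hj, a1, a2, c, a3⟩ := key (n - 1) s' (by omega) hs' (H.all s' (Or.inr t'))
  obtain ⟨k, rfl⟩ : ∃ k, n = k + 1 := ⟨n - 1, by omega⟩
  simp only [Nat.add_sub_cancel] at *
  obtain rfl : c = 1 := by
    rw [a3] at a1 a2
    rw [e2, mul_assoc] at a2
    have a4 := Nat.le_of_mul_le_mul_left a2 f0
    have := Nat.pos_of_mul_pos_left a1
    by_contra hc
    have := Nat.mul_le_mul_left k (show 2 ≤ c by omega)
    omega
  refine ⟨trivial, e2, ⟨j, hj, Nat.eq_of_mul_eq_mul_left g0 ?_⟩, Nat.le_of_mul_le_mul_left ?_ g0⟩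
  · rw [← mul_assoc, ← mul_assoc, a3, e2]
    ring
  · have c1 : Nat.Coprime (v ^ (g * N)) (∏ i ∈ Icc 2 (k + 1), ((v ^ f) ^ i - 1)) := by
      refine Nat.Coprime.pow_left _ (Nat.Coprime.prod_right fun i hi => ?_)
      rw [mem_Icc] at hi
      refine P.pp.coprime_iff_not_dvd.2 fun e => ?_
      have := Nat.dvd_sub (dvd_pow (dvd_pow_self v f0.ne') (show i ≠ 0 by omega)) e
      rw [Nat.sub_sub_self (Nat.one_le_pow _ _ (pow_pos p1 _))] at this
      exact P.pp.one_lt.ne' (Nat.dvd_one.1 this)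
    have c2 := c1.dvd_of_dvd_mul_right (hk.trans hd)
    rw [← pow_mul, Nat.pow_dvd_pow_iff_le_right P.pp.one_lt, Nat.add_sub_cancel] at c2
    have c3 := Nat.mul_le_mul_left f (Nat.mul_div_le ((k + 1) * k) 2)
    rw [← mul_assoc g D, e2]
    nlinarith

theorem not_2D_lte {Q t δ : ℕ} (hQ : 2 ≤ Q) (ht : t ≠ 0)
    (h1 : δ * (Q ^ 2 - 1) ∣ (Q ^ 2) ^ t - 1)
    (h2 : ∀ u, u.Prime → u ∣ δ → u ∣ Q ^ 2 - 1) : δ ∣ t := by
  have q1 : 1 < Q ^ 2 := Nat.one_lt_pow two_ne_zero hQ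
  have q0 : Q ^ 2 - 1 ≠ 0 := by omega
  have qt : (Q ^ 2) ^ t - 1 ≠ 0 := by have := Nat.one_lt_pow ht q1; omega
  have d0 : δ ≠ 0 := by rintro rfl; exact qt (by simpa using h1)
  rw [← Nat.factorization_prime_le_iff_dvd d0 ht]
  intro u hu
  by_cases hd : u ∣ δ
  swap; · simp [Nat.factorization_eq_zero_of_not_dvd hd]
  have := Fact.mk hu
  have e := (padicValNat_dvd_iff_le (p := u) qt).1 (pow_padicValNat_dvd.trans h1)
  rw [padicValNat.mul d0 q0] at e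
  have nd : ¬ u ∣ Q ^ 2 := fun c => hu.one_lt.ne' (Nat.dvd_one.1 (by
    have := Nat.dvd_sub c (h2 u hu hd)
    rwa [Nat.sub_sub_self q1.le] at this))
  rw [Nat.factorization_def _ hu, Nat.factorization_def _ hu]
  rcases hu.eq_two_or_odd' with rfl | ho
  · have n2 : ¬ 2 ∣ Q := fun c => nd (dvd_pow c two_ne_zero)
    have a1 := padicValNat.pow_two_sub_one (n := 2 * t) hQ n2 (by omega) (even_two_mul t)
    have a2 := padicValNat.pow_two_sub_one (n := 2) hQ n2 two_ne_zero even_two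
    rw [pow_mul, padicValNat.mul two_ne_zero ht] at a1
    omega
  · have a1 := padicValNat.pow_sub_pow ho q1 (h2 u hu hd) nd ht
    rw [one_pow] at a1
    omega

theorem not_2D_pow {t : ℕ} (ht : 2 ≤ t) : t * (t - 1) ≤ 2 ^ (2 * t - 3) := by
  induction t, ht using Nat.le_induction with
  | base => norm_num
  | succ t ht ih =>
    obtain ⟨s, rfl⟩ := Nat.exists_eq_add_of_le ht
    rw [show 2 * (2 + s + 1) - 3 = 2 * (2 + s) - 3 + 2 by omega, pow_add]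
    rw [show 2 + s - 1 = s + 1 by omega] at ih
    rw [show 2 + s + 1 - 1 = s + 2 by omega]
    nlinarith

theorem not_2D_even {Q t Z r δ z : ℕ} (hQ : 2 ≤ Q) (ht : 2 ≤ t)
    (hZ : Z * (Q ^ 2 - 1) = (Q ^ 2) ^ t - 1) (hr : Prim Q (2 * (2 * t - 1)) r)
    (e : Z = δ * z) (hz : z ∣ r - 1) (hδ : δ ∣ t) : False := by
  obtain ⟨k, hk⟩ : ∃ k, Q = k + 1 := ⟨Q - 1, by omega⟩
  obtain ⟨s, rfl⟩ : ∃ s, t = s + 2 := ⟨t - 2, by omega⟩
  have q1 : 1 < Q ^ 2 := Nat.one_lt_pow two_ne_zero hQ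
  have qt := Nat.one_lt_pow (n := s + 2) (by omega) q1
  have r1 : r ∣ Q ^ (2 * s + 3) + 1 := by
    simpa using Prim.dvd_add (v := Q) (g := 1) (i := 2 * s + 3) (r := r) (by omega) one_pos
      (by omega) (by rw [one_mul]; exact hr)
  have q2 : Q ^ 2 - 1 = (Q + 1) * k := by rw [hk]; exact Nat.sub_eq_of_eq_add (by ring)
  have w1 : (Q + 1) * (Z * k + 1) = Q * (Q ^ (2 * s + 3) + 1) := by
    have : Z * ((Q + 1) * k) + 1 = (Q ^ 2) ^ (s + 2) := by rw [← q2]; omega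
    calc _ = Z * ((Q + 1) * k) + 1 + Q := by ring
      _ = _ := by rw [this]; ring
  have r2 : r ∣ Z * k + 1 := by
    refine ((Nat.Prime.dvd_mul hr.pr).1 (w1 ▸ r1.mul_left Q)).resolve_left fun c => ?_
    exact hr.min 2 two_pos (by omega) (q2 ▸ c.mul_right k)
  have r3 : Q ∣ Z * k + 1 :=
    (show Nat.Coprime Q (Q + 1) by simp).dvd_of_dvd_mul_left ⟨_, w1⟩
  have r4 : Nat.Coprime r Q := (Nat.Prime.coprime_iff_not_dvd hr.pr).2 (hr.not_dvd (by omega) (by omega))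
  obtain ⟨w, hw⟩ := r4.mul_dvd_of_dvd_of_dvd r2 r3
  obtain ⟨c, hc⟩ := hz
  have r5 := hr.pr.two_le
  have hr1 : r = z * c + 1 := by omega
  have w0 : 0 < w := Nat.pos_of_ne_zero (by rintro rfl; omega)
  have c0 : 0 < c := Nat.pos_of_ne_zero (by rintro rfl; omega)
  have z0 : 0 < z := Nat.pos_of_ne_zero (by rintro rfl; omega)
  have d1 := Nat.le_of_dvd (by omega) hδ
  have d0 : 0 < δ := Nat.pos_of_ne_zero (by rintro rfl; simp at hδ)
  have Qw : 2 ≤ Q * w := by nlinarith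
  have z1 : z ∣ Q * w - 1 := by
    refine (Nat.dvd_add_right (dvd_mul_right z (c * Q * w))).1 ⟨δ * k, ?_⟩
    have : z * (c * Q * w) + Q * w = z * (δ * k) + 1 := by
      calc _ = r * Q * w := by rw [hr1]; ring
        _ = _ := by rw [← hw, e]; ring
    omega
  have z2 : z < Q * w := by have := Nat.le_of_dvd (by omega) z1; omega
  have z3 : w < δ := by
    have a1 : r * w * Q ≤ δ * z * Q := by
      have : 1 ≤ δ * z := Nat.mul_pos d0 z0
      calc _ = δ * z * k + 1 := by rw [← e, hw]; ring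
        _ ≤ δ * z * k + δ * z := by omega
        _ = _ := by rw [hk]; ring
    have a2 := Nat.le_of_mul_le_mul_right a1 (by omega)
    have a3 : z < r := by nlinarith
    nlinarith
  have z4 : Q ^ (2 * s + 1) * Q ≤ Z := by
    have a1 : Q ^ (2 * s + 1) * Q * (Q ^ 2 - 1) ≤ Z * (Q ^ 2 - 1) := by
      rw [hZ, Nat.mul_sub_one, show Q ^ (2 * s + 1) * Q * Q ^ 2 = (Q ^ 2) ^ (s + 2) by ring]
      exact Nat.sub_le_sub_left (Nat.succ_le_of_lt (by positivity)) _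
    exact Nat.le_of_mul_le_mul_right a1 (by omega)
  have z5 := (not_2D_pow ht).trans (Nat.pow_le_pow_left hQ _)
  rw [show 2 * (s + 2) - 3 = 2 * s + 1 by omega, show s + 2 - 1 = s + 1 by omega] at z5
  have z6 : δ * z < (s + 2) * (Q * (s + 1)) :=
    Nat.mul_lt_mul_of_le_of_lt d1 (z2.trans_le (Nat.mul_le_mul_left _ (by omega))) (by omega)
  nlinarith

/- `q = Q ^ 2`, `Q = p ^ g`. Cancel: `a d (Q ^ 2 - 1) = e (Q ^ n - 1)`, `e = gcd 4 (Q ^ n + 1)`.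
`n` odd: `r` from `zsig` for `g n` (odd `n ≥ 5`) has `Prim q n r` (`n ∣ 2 i ↔ n ∣ i`), so `r ∣ h`,
but it divides no factor of the order formula. `n` even: `Z = ∑ i < n / 2, q ^ i`, `a d = e Z`. Let
`δ` be the part of `Z` made of primes dividing `q - 1` and `z = Z / δ`; `δ ∣ n / 2` (lifting the
exponent; `q ≡ 1 mod 4` or `q` even); `z ∣ a` as `z` is prime to `d`. Take `r` from `zsig` for
`2 g (n - 1)`; every `r` with `Prim Q (2 (n - 1)) r` has `Prim q (n - 1) r`, and `c2` gives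
`z ∣ r - 1` (a prime dividing `q ^ (n / 2) - 1` and `q ^ (n - 1) - 1` divides `q - 1`). So
`z < r`, `r ∣ Y = (Q ^ (n - 1) + 1) / (Q + 1)`, `Y = w r`, `r = 1 + c z`, `Q Y = Z (Q - 1) + 1`, hence
`Q w ≡ 1` modulo `z`, `z ≤ Q w - 1`, and `w z < Y < Z = δ z` gives `w ≤ δ - 1`, `δ ≤ n / 2`; so
`Q ^ (n - 2) < Z = δ z < Q (n / 2) (n / 2 - 1)`, false for even `n ≥ 4`. (`r` is the prime of
`ex2`.) -/
theorem HData.not_2D {g : ℕ} (P : Pm p (2 * g) n) (H : HData h a n (p ^ (2 * g)))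
    (hh : (h : ℤ) * Int.gcd 4 (((p ^ g : ℕ) : ℤ) ^ n + 1) = ((p ^ g : ℕ) : ℤ) ^ (n * (n - 1)) *
      (((p ^ g : ℕ) : ℤ) ^ n + 1) * ∏ i ∈ Icc 1 (n - 1), (((p ^ g : ℕ) : ℤ) ^ (2 * i) - 1)) :
    False := by
  have hQ : 2 ≤ p ^ g := Nat.one_lt_pow (by have := P.f0; omega) P.pp.one_lt
  have n4 := P.n4
  have big := P.big
  rw [mul_comm 2 g, pow_mul] at H big
  generalize p ^ g = Q at *
  have q1 : 1 < Q ^ 2 := Nat.one_lt_pow two_ne_zero hQ
  have hN : h * Nat.gcd 4 (Q ^ n + 1) =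
      Q ^ (n * (n - 1)) * (Q ^ n + 1) * ∏ i ∈ Icc 1 (n - 1), ((Q ^ 2) ^ i - 1) := by
    have a1 : ∀ i, (((Q ^ 2) ^ i - 1 : ℕ) : ℤ) = (Q : ℤ) ^ (2 * i) - 1 := fun i => by
      rw [Nat.cast_sub (Nat.one_le_pow _ _ (by omega)), pow_mul]; simp
    rw [← Int.natCast_inj]
    push_cast [a1]
    rw [← hh, ← Int.gcd_natCast_natCast]
    simp
  clear hh
  set e := Nat.gcd 4 (Q ^ n + 1) with he
  rcases Nat.even_or_odd' n with ⟨t, rfl | rfl⟩
  · set d := Nat.gcd (2 * t) (Q ^ 2 - 1) with hd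
    obtain ⟨r, hr⟩ := zsig (a := Q) (m := 2 * (2 * t - 1)) hQ (by omega) (by
      rintro ⟨rfl, a⟩
      obtain rfl : t = 2 := by omega
      norm_num at big)
    obtain ⟨b, c, hb, b1, c1⟩ := H.c2 r (hr.pow (by omega) two_pos (by omega))
    obtain ⟨Z, hZ⟩ : Q ^ 2 - 1 ∣ (Q ^ 2) ^ t - 1 := Nat.sub_one_dvd_pow_sub_one _ _
    have key : a * d = e * Z := by
      have a1 := H.card
      have a2 : ∏ i ∈ Icc 1 (2 * t - 1), ((Q ^ 2) ^ i - 1) =
          (Q ^ 2 - 1) * ∏ i ∈ Icc 2 (2 * t - 1), ((Q ^ 2) ^ i - 1) := by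
        rw [← insert_Icc_add_one_left_eq_Icc (by omega), prod_insert (by simp), pow_one,
          one_add_one_eq_two]
      have a3 : ∏ i ∈ Icc 2 (2 * t), ((Q ^ 2) ^ i - 1) =
          (∏ i ∈ Icc 2 (2 * t - 1), ((Q ^ 2) ^ i - 1)) * ((Q ^ 2 - 1) * Z * (Q ^ (2 * t) + 1)) := by
        rw [← hZ, ← pow_mul, mul_comm (_ - 1), ← Nat.sq_sub_sq _ 1, one_pow, ← pow_mul,
          mul_comm (2 * t) 2, pow_mul Q 2]
        have := prod_Icc_succ_top (a := 2) (b := 2 * t - 1) (by omega) fun i => (Q ^ 2) ^ i - 1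
        rwa [show 2 * t - 1 + 1 = 2 * t by omega] at this
      have h0 : 0 < h := by
        refine Nat.pos_of_ne_zero ?_
        rintro rfl
        have : 0 < ∏ i ∈ Icc 1 (2 * t - 1), ((Q ^ 2) ^ i - 1) := prod_pos fun i hi =>
          Nat.sub_pos_of_lt (Nat.one_lt_pow (by have := (mem_Icc.1 hi).1; omega) q1)
        exact absurd hN (by rw [zero_mul]; positivity)
      rw [ordSL, a3, ← pow_mul, Nat.mul_div_cancel' ((dvd_mul_right 2 t).mul_right _)] at a1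
      refine Nat.eq_of_mul_eq_mul_left h0 ?_
      rw [← mul_assoc, a1, ← mul_assoc h, hN, a2]
      ring
    have Z0 : Z ≠ 0 := by
      rintro rfl
      have := Nat.one_lt_pow (n := t) (by omega) q1
      omega
    obtain ⟨δ, hδ⟩ := Nat.gcd_dvd_right b Z
    have g0 : 0 < Nat.gcd b Z := Nat.gcd_pos_of_pos_right _ (Nat.pos_of_ne_zero Z0)
    have d1 : δ ∣ c * d := by
      obtain ⟨β, hβ⟩ := Nat.gcd_dvd_left b Z
      have a1 : Nat.Coprime δ β := by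
        have := Nat.coprime_div_gcd_div_gcd g0
        rw [Nat.div_eq_of_eq_mul_right g0 hβ, Nat.div_eq_of_eq_mul_right g0 hδ] at this
        exact this.symm
      refine a1.dvd_of_dvd_mul_left ⟨e, Nat.eq_of_mul_eq_mul_left g0 ?_⟩
      rw [← mul_assoc, ← hβ, ← mul_assoc, ← hb, key, ← mul_assoc, ← hδ, mul_comm]
    have d2 : δ * (Q ^ 2 - 1) ∣ (Q ^ 2) ^ t - 1 := by
      rw [hZ, mul_comm]
      exact Nat.mul_dvd_mul_left _ ⟨_, hδ.trans (mul_comm _ _)⟩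
    refine not_2D_even hQ (by omega) (by rw [hZ, mul_comm]) hr (hδ.trans (mul_comm _ _))
      ((Nat.gcd_dvd_left b Z).trans b1) (not_2D_lte hQ (by omega) d2 fun u hu hu' => ?_)
    rcases (Nat.Prime.dvd_mul hu).1 (hu'.trans d1) with a1 | a1
    · have a2 := Nat.dvd_gcd (hu'.trans ((dvd_mul_right _ _).trans d2))
        ((dvd_mul_right _ _).trans (c1 u hu a1))
      rwa [Nat.pow_sub_one_gcd_pow_sub_one, show Nat.gcd t (2 * t - 1) = 1 from
        Nat.dvd_one.1 ((Nat.dvd_add_right (Nat.gcd_dvd_right t (2 * t - 1))).1 (by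
          rw [show 2 * t - 1 + 1 = 2 * t by omega]
          exact (Nat.gcd_dvd_left _ _).mul_left 2)), pow_one] at a2
    · exact a1.trans (Nat.gcd_dvd_right _ _)
  · obtain ⟨r, hr⟩ := zsig (a := Q) (m := 2 * t + 1) hQ (by omega) (by omega)
    have r1 : ∀ i, r ∣ (Q ^ 2) ^ i - 1 ↔ 2 * t + 1 ∣ i := fun i => by
      rw [← pow_mul, hr.dvd_iff (by omega) (by omega)]
      exact (show Nat.Coprime (2 * t + 1) 2 by simp).dvd_mul_left
    have r2 : r ∣ h := H.all r (.inl ⟨hr.pr, (r1 _).2 dvd_rfl, fun i a b c =>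
      (Nat.le_of_dvd a ((r1 i).1 c)).not_gt b⟩)
    have r3 := hN ▸ r2.mul_right e
    rcases (Nat.Prime.dvd_mul hr.pr).1 r3 with a1 | a1
    · rcases (Nat.Prime.dvd_mul hr.pr).1 a1 with a1 | a1
      · exact hr.not_dvd (by omega) (by omega) (hr.pr.dvd_of_dvd_pow a1)
      · have a2 := Nat.dvd_sub a1 hr.dvd
        have a3 := Nat.one_le_pow (2 * t + 1) Q (by omega)
        rw [show Q ^ (2 * t + 1) + 1 - (Q ^ (2 * t + 1) - 1) = 2 by omega] at a2
        have a4 := Nat.le_of_dvd two_pos a2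
        have a5 := hr.pr.two_le
        have a6 := Nat.le_of_dvd (by omega) (hr.dvd_pred (by omega) (by omega))
        omega
    · obtain ⟨i, hi, a2⟩ := (Prime.dvd_finsetProd_iff hr.pr.prime _).1 a1
      have a3 := mem_Icc.1 hi
      have a4 := Nat.le_of_dvd (by omega) ((r1 i).1 a2)
      omega

/- From `j n = D (n - 1)`: `n ∣ D`, `D = n δ`, `j = (n - 1) δ`. `m - 1 ≤ n - 1` and `n ∣ m`. -/
theorem HData.lin (P : Pm p f n) (H : HData h a n (p ^ f)) {m u : ℕ} (hu : IsPrimePow u)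
    (hh : h * Nat.gcd m (u - 1) = ordSL m u) (hm : 2 ≤ m) : m = n ∧ u = p ^ f := by
  obtain ⟨v, g, hv, hg, rfl⟩ := (isPrimePow_nat_iff u).1 hu
  obtain ⟨rfl, e1, ⟨j, -, e2⟩, e3⟩ := H.same P (lt_A hv hg hm hh)
  have n4 := P.n4
  rw [Nat.mul_div_cancel' (Nat.even_mul_pred_self m).two_dvd] at e3
  have a1 := Nat.le_of_mul_le_mul_left e3 (by omega)
  have a2 : n ∣ m := ((Nat.coprime_self_sub_right (by omega)).2
    (Nat.coprime_one_right n)).dvd_of_dvd_mul_right (e2 ▸ dvd_mul_left n j)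
  obtain rfl : m = n := by
    have := Nat.le_of_dvd (by omega) a2
    omega
  rw [Nat.eq_of_mul_eq_mul_right (by omega) e1]
  exact ⟨rfl, rfl⟩

theorem not_lie_aux1 {j D : ℕ} (hn : 4 ≤ n) (e : j * n = D * (n - 1)) :
    ∃ δ, D = n * δ ∧ j + δ = D ∧ 4 * δ ≤ D := by
  obtain ⟨k, rfl⟩ : ∃ k, n = k + 1 := ⟨n - 1, by omega⟩
  rw [Nat.add_sub_cancel] at e
  obtain ⟨δ, rfl⟩ : ∃ δ, D = j + δ := Nat.exists_eq_add_of_le (by nlinarith)
  have h1 : j = k * δ := by nlinarith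
  exact ⟨δ, by rw [h1]; ring, rfl, by nlinarith⟩

theorem not_lie_aux2 : ∀ x ∈ excData, 0 < x.2.1 ∧ x.2.1 ≤ 30 ∧ ∀ j ∈ x.2.2, ∀ n ∈ range 31,
    4 ≤ n → j * n = x.2.1 * (n - 1) → ¬ 2 * x.1 ≤ x.2.1 * (n - 1) := by
  decide +kernel

/- `HData.same` with `lt_2A`, `lt_B`, `lt_D`, `lt_2D`, `lt_exc1`, `lt_exc2`; `D = n δ`,
`j = D - δ`, `4 δ ≤ D`. Unitary: `j > m`, so `j ≡ 2 mod 4` like `D`, `4 ∣ δ ∣ D`. `B`: `m ≤ n - 1`
forces `δ = 1`, `j` odd. `D`: the same, `j = 2 m - 3 = m`. Twisted `D`: `m ≤ n`, `δ = 2`, `m = n`,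
`f = 2 g`, `not_2D`. Exceptional: finite check of `n ≤ 30`. -/
theorem HData.not_lie (P : Pm p f n) (H : HData h a n (p ^ f)) {u : ℕ} (hu : IsPrimePow u)
    (hh : LieOrd u h) : False := by
  obtain ⟨v, g, hv, hg, rfl⟩ := (isPrimePow_nat_iff u).1 hu
  have hn := P.n4
  have exc : (∃ x ∈ excData, LT h v g x.1 x.2.1 x.2.2) → False := fun ⟨x, hx, L⟩ => by
    obtain ⟨-, -, ⟨j, hj, e⟩, hN⟩ := H.same P L
    obtain ⟨δ, d1, -, -⟩ := not_lie_aux1 hn e
    obtain ⟨b1, b2, b3⟩ := not_lie_aux2 x hx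
    have : n ≤ x.2.1 := Nat.le_of_dvd b1 ⟨δ, d1⟩
    exact b3 j hj n (mem_range.2 (by omega)) hn e hN
  rcases hh with ⟨m, hm, e⟩ | ⟨m, hm, e⟩ | ⟨m, hm, e⟩ | ⟨m, hm, e⟩ | e | e | e | e | e | e | e |
    e | e | e
  · obtain ⟨-, -, ⟨j, hj, e⟩, -⟩ := H.same P (lt_2A hv hg hm e)
    obtain ⟨δ, d1, d2, d3⟩ := not_lie_aux1 hn e
    obtain ⟨i, hi, rfl⟩ := mem_image.1 hj
    rw [mem_Icc] at hi
    have d4 : 4 ∣ δ → 4 ∣ n * δ := fun h => h.mul_left n
    split_ifs at d1 d2 d3 <;> omega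
  · obtain ⟨-, -, ⟨j, hj, e⟩, hN⟩ := H.same P (lt_B hv hg hm e)
    obtain ⟨δ, d1, d2, -⟩ := not_lie_aux1 hn e
    obtain ⟨i, -, rfl⟩ := mem_image.1 hj
    rw [← mul_assoc] at hN
    have h1 := Nat.le_of_mul_le_mul_left hN (by omega)
    have h2 : δ ≠ 0 := fun h => by rw [h] at d1; omega
    have h3 := Nat.mul_le_mul_left n (show 2 ≤ δ by omega)
    omega
  · obtain ⟨-, -, ⟨j, hj, e⟩, hN⟩ := H.same P (lt_D hv hg hm e)
    obtain ⟨δ, d1, d2, -⟩ := not_lie_aux1 hn e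
    obtain ⟨i, -, rfl⟩ := mem_image.1 hj
    rw [mul_comm m, ← mul_assoc] at hN
    have h1 := Nat.le_of_mul_le_mul_left hN (by omega)
    have h2 : δ ≠ 0 := fun h => by rw [h] at d1; omega
    have h3 : 2 ≤ δ := by split_ifs at d2 <;> omega
    have h4 := Nat.mul_le_mul_left n h3
    omega
  · obtain ⟨rfl, hf, ⟨j, hj, e'⟩, hN⟩ := H.same P (lt_2D hv hg hm e)
    obtain ⟨δ, d1, d2, -⟩ := not_lie_aux1 hn e'
    obtain ⟨i, -, rfl⟩ := mem_image.1 hj
    rw [← mul_assoc] at hN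
    have h1 := Nat.le_of_mul_le_mul_left hN (by omega)
    have h2 : δ ≠ 0 := fun h => by rw [h] at d1; omega
    have h3 := Nat.mul_le_mul_left n (show 2 ≤ δ by omega)
    obtain rfl : m = n := by omega
    obtain rfl : f = 2 * g := Nat.eq_of_mul_eq_mul_right (show 0 < m by omega) (by
      rw [← hf]; ring)
    exact H.not_2D P e
  · exact exc (lt_exc1 hv hg rfl (.inl e))
  · exact exc (lt_exc1 hv hg rfl (.inr (.inl e)))
  · exact exc (lt_exc1 hv hg rfl (.inr (.inr (.inl e))))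
  · exact exc (lt_exc2 hv hg rfl (.inl e))
  · exact exc (lt_exc1 hv hg rfl (.inr (.inr (.inr (.inl e)))))
  · exact exc (lt_exc1 hv hg rfl (.inr (.inr (.inr (.inr e)))))
  · exact exc (lt_exc2 hv hg rfl (.inr (.inl e)))
  · exact exc (lt_exc2 hv hg rfl (.inr (.inr (.inl e))))
  · exact exc (lt_exc2 hv hg rfl (.inr (.inr (.inr (.inl e)))))
  · exact exc (lt_exc2 hv hg rfl (.inr (.inr (.inr (.inr e)))))

/-- A number with a very large prime power part. -/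
def Big (h : ℕ) : Prop :=
  ∃ p f n k b s s', Pm p f n ∧ Prim p (f * n) s ∧ Prim p (f * (n - 1)) s' ∧ s ∣ h ∧ s' ∣ h ∧
    p ^ k ∣ h ∧ b < s ∧ p ^ (f * (n * (n - 1) / 2)) ≤ p ^ k * b ∧ h ^ 2 ≤ (p ^ k) ^ 5 * b ^ 3

theorem HData.big_sum (hn : 4 ≤ n) : (∑ i ∈ Icc 2 n, i) * 2 ≤ n * (n - 1) / 2 * 3 := by
  induction n, hn using Nat.le_induction with
  | base => decide
  | succ n hn ih =>
    rw [sum_Icc_succ_top (by omega), Nat.triangle_succ]
    omega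

theorem HData.big (P : Pm p f n) (H : HData h a n (p ^ f)) : Big h := by
  obtain ⟨s, h1⟩ := P.ex1
  obtain ⟨s', h2⟩ := P.ex2
  have hn := P.n4
  have hp := P.pp
  have h3 := h1.pow hp.one_le P.f0 (by omega)
  have hq : 1 < p ^ f := Nat.one_lt_pow P.f0.ne' hp.one_lt
  have hd : ∀ i, 0 < i → ¬ p ∣ (p ^ f) ^ i - 1 := fun i hi e => by
    have h4 := Nat.dvd_sub (dvd_pow (dvd_pow_self p P.f0.ne') hi.ne') e
    rw [Nat.sub_sub_self (Nat.one_le_pow _ _ hq.le)] at h4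
    exact hp.not_dvd_one h4
  have h0 : 0 < ∏ i ∈ Icc 2 n, ((p ^ f) ^ i - 1) := prod_pos fun i hi =>
    Nat.sub_pos_of_lt (Nat.one_lt_pow (by have := (mem_Icc.1 hi).1; omega) hq)
  have hc := H.card
  rw [ordSL, ← pow_mul] at hc
  obtain ⟨k, h', h4, rfl⟩ := Nat.exists_eq_pow_mul_and_not_dvd (n := h)
    (fun e => (Nat.mul_pos (pow_pos hp.pos _) h0).ne' (by rw [← hc, e, zero_mul, zero_mul])) p
    hp.ne_one
  obtain ⟨b, c, rfl, h5, h6⟩ := H.c1 s h3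
  have h7 := Nat.sub_pos_of_lt h1.pr.one_lt
  have h8 : p ^ (f * (n * (n - 1) / 2)) ≤ p ^ k * b := by
    refine Nat.le_of_dvd (Nat.mul_pos (pow_pos hp.pos _) (Nat.pos_of_dvd_of_pos h5 h7))
      (Nat.Coprime.dvd_of_dvd_mul_right (n := h' * c * Nat.gcd n (p ^ f - 1))
        ((hp.coprime_iff_not_dvd.2 fun e => ?_).pow_left _) ⟨_, Eq.trans (by ring) hc⟩)
    rcases hp.dvd_mul.1 e with e | e
    · exact (hp.dvd_mul.1 e).elim h4 fun e => hd n (by omega) ((dvd_mul_right _ _).trans (h6 p hp e))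
    · exact hd 1 one_pos ((pow_one (p ^ f)).symm ▸ e.trans (Nat.gcd_dvd_right _ _))
  have h9 : h' ≤ (p ^ f) ^ ∑ i ∈ Icc 2 n, i := by
    refine (Nat.le_of_dvd h0 (((hp.coprime_iff_not_dvd.2 h4).pow_left _).symm.dvd_of_dvd_mul_left
      (hc ▸ ((dvd_mul_left h' _).mul_right _).mul_right _))).trans ?_
    rw [← prod_pow_eq_pow_sum]
    exact prod_le_prod' fun i _ => Nat.sub_le _ _
  refine ⟨p, f, n, k, b, s, s', P, h1, h2, H.all s (.inl h3),
    H.all s' (.inr (h2.pow hp.one_le P.f0 (by omega))), dvd_mul_right _ _,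
    (Nat.le_of_dvd h7 h5).trans_lt (by omega), h8, ?_⟩
  calc (p ^ k * h') ^ 2 ≤ (p ^ k) ^ 2 * (p ^ k * b) ^ 3 := by
        rw [mul_pow]
        refine Nat.mul_le_mul_left _ ((Nat.pow_le_pow_left h9 2).trans
          (le_trans ?_ (Nat.pow_le_pow_left h8 3)))
        rw [pow_mul p f, ← pow_mul (p ^ f), ← pow_mul (p ^ f)]
        exact Nat.pow_le_pow_right hq.le (HData.big_sum hn)
    _ = _ := by ring

theorem not_big_alt_ind {m : ℕ} (hm : 18 ≤ m) : 4 * ((2 ^ m) ^ 5 * m ^ 3) < m.factorial ^ 2 := by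
  induction m, hm using Nat.le_induction with
  | base => decide +kernel
  | succ m hm ih =>
    have h1 : 32 * (m + 1) ≤ m ^ 3 := by nlinarith [Nat.mul_le_mul hm hm]
    calc 4 * ((2 ^ (m + 1)) ^ 5 * (m + 1) ^ 3)
        = (m + 1) ^ 2 * (4 * ((2 ^ m) ^ 5 * (32 * (m + 1)))) := by ring
      _ ≤ (m + 1) ^ 2 * (4 * ((2 ^ m) ^ 5 * m ^ 3)) := by gcongr
      _ < _ := by
        rw [Nat.factorial_succ, mul_pow]
        gcongr

theorem not_big_alt_fin : ∀ m ∈ Ico 5 18, ∀ p ∈ (Iic m).filter Nat.Prime, ∀ k ∈ Iic m,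
    2 * p ^ k ∣ m.factorial →
    p ^ k * (m - 1) ≤ 4096 ∨ 4 * ((p ^ k) ^ 5 * (m - 1) ^ 3) < m.factorial ^ 2 := by
  decide +kernel

theorem not_big_alt {m : ℕ} (hm : 5 ≤ m) (hh : 2 * h = m.factorial) : ¬ Big h := by
  rintro ⟨p, f, n, k, b, s, s', P, h1, -, h2, -, h3, h4, h5, h6⟩
  have hp := P.pp
  have := Fact.mk hp
  have hd : h ∣ m.factorial := hh ▸ dvd_mul_left h 2
  have h7 := h1.pr.dvd_factorial.1 (h2.trans hd)
  have h8 : (p - 1) * k ≤ m := (Nat.mul_le_mul_left _ ((padicValNat_dvd_iff_le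
    m.factorial_ne_zero).1 (h3.trans hd))).trans
      ((sub_one_mul_padicValNat_factorial m).trans_le (Nat.sub_le _ _))
  have h9 : m.factorial ^ 2 ≤ 4 * ((p ^ k) ^ 5 * b ^ 3) := by
    rw [← hh, mul_pow]
    exact Nat.mul_le_mul_left _ h6
  rcases le_or_gt 18 m with hl | hl
  · have e : p ^ k ≤ 2 ^ m := (Nat.pow_le_pow_left (show p ≤ 2 ^ (p - 1) by
      have := @Nat.lt_two_pow_self (p - 1); omega) k).trans
        (pow_mul 2 _ k ▸ Nat.pow_le_pow_right two_pos h8)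
    refine (not_big_alt_ind hl).not_ge (h9.trans ?_)
    gcongr
    omega
  have e : 4096 < p ^ k * b := by
    refine lt_of_lt_of_le (lt_of_pow_lt_pow_left₀ 2 (Nat.zero_le _) ?_) h5
    refine ((Nat.pow_lt_pow_left P.big three_ne_zero).trans_le ?_).trans_eq' (by norm_num)
    rw [pow_mul p f, ← pow_mul (p ^ f), ← pow_mul (p ^ f),
      Nat.div_mul_cancel n.even_mul_pred_self.two_dvd]
    exact Nat.pow_le_pow_right (pow_pos hp.pos f)
      (Nat.mul_le_mul_left n (by have := P.n4; omega))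
  have hb : b ≤ m - 1 := by omega
  have hk : k ≠ 0 := by
    rintro rfl
    rw [pow_zero] at e
    omega
  rcases not_big_alt_fin m (mem_Ico.2 ⟨hm, hl⟩) p (mem_filter.2 ⟨mem_Iic.2
    (hp.dvd_factorial.1 (((dvd_pow_self p hk).trans h3).trans hd)), hp⟩) k
    (mem_Iic.2 ((Nat.le_mul_of_pos_left k (Nat.sub_pos_of_lt hp.one_lt)).trans h8))
    (hh ▸ Nat.mul_dvd_mul_left 2 h3) with h | h
  · exact (e.trans_le (Nat.mul_le_mul_left _ hb)).not_ge h
  · refine h.not_ge (h9.trans ?_)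
    gcongr

/-- The primes up to `71`. -/
def not_big_spor_P : List ℕ :=
  [2, 3, 5, 7, 11, 13, 17, 19, 23, 29, 31, 37, 41, 43, 47, 53, 59, 61, 67, 71]

theorem not_big_spor_aux1 : ∀ h ∈ sporOrd, h ∣ Nat.factorial 71 ^ 46 ∧ 0 < h ∧ h < 2 ^ 180 := by
  decide +kernel

theorem not_big_spor_aux2 : ∀ r < 72, r.Prime → r ∈ not_big_spor_P := by
  decide +kernel

theorem not_big_spor_aux3 {r : ℕ} (hh : h ∈ sporOrd) (hr : r.Prime) (hd : r ∣ h) :
    r ∈ not_big_spor_P ∧ r < 72 := by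
  have h1 : r ∣ Nat.factorial 71 := hr.dvd_of_dvd_pow (hd.trans (not_big_spor_aux1 h hh).1)
  have h2 : r < 72 := Nat.lt_succ_of_le ((hr.dvd_factorial).1 h1)
  exact ⟨not_big_spor_aux2 r h2 hr, h2⟩

/-- No prime of `h` is primitive for the exponent `m`. -/
def not_big_spor_A (h p m : ℕ) : Prop :=
  ∀ t ∈ not_big_spor_P, t ∣ h → t ∣ p ^ m - 1 → ∃ i < m, 0 < i ∧ t ∣ p ^ i - 1

instance not_big_spor_iA (h p m : ℕ) : Decidable (not_big_spor_A h p m) := by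
  unfold not_big_spor_A
  infer_instance

/-- The check of one pair of parameters `f`, `n`. -/
def not_big_spor_C (h p s f n : ℕ) : Prop :=
  4 ≤ n → f * n ≤ 70 → 256 < (p ^ f) ^ n → s ∣ p ^ (f * n) - 1 →
    p ^ (f * (n * (n - 1) / 2)) ≤ Nat.gcd h (p ^ 180) * (s - 1) → not_big_spor_A h p (f * (n - 1))

instance not_big_spor_iC (h p s f n : ℕ) : Decidable (not_big_spor_C h p s f n) := by
  unfold not_big_spor_C
  infer_instance

/-- The check of all parameters `f`, `n`. -/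
def not_big_spor_B (h p s : ℕ) : Prop := ∀ f < 18, ∀ n < 71, not_big_spor_C h p s f n

instance not_big_spor_iB (h p s : ℕ) : Decidable (not_big_spor_B h p s) := by
  unfold not_big_spor_B
  infer_instance

/-- The statement for one order. -/
abbrev nbsP (h : ℕ) : Prop := ∀ p ∈ not_big_spor_P, ∀ s ∈ not_big_spor_P, s ∣ h →
    h ^ 2 ≤ Nat.gcd h (p ^ 180) ^ 5 * (s - 1) ^ 3 → not_big_spor_B h p s

theorem nbs0 : ∀ h ∈ sporOrd.take 6, nbsP h := by decide +kernel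

theorem nbs1 : ∀ h ∈ (sporOrd.drop 6).take 6, nbsP h := by decide +kernel

theorem nbs2 : ∀ h ∈ ((sporOrd.drop 6).drop 6).take 6, nbsP h := by decide +kernel

theorem nbs3 : ∀ h ∈ ((sporOrd.drop 6).drop 6).drop 6, nbsP h := by decide +kernel

theorem not_big_spor_aux4 : ∀ h ∈ sporOrd, ∀ p ∈ not_big_spor_P, ∀ s ∈ not_big_spor_P, s ∣ h →
    h ^ 2 ≤ Nat.gcd h (p ^ 180) ^ 5 * (s - 1) ^ 3 → not_big_spor_B h p s :=
  lall_app 6 nbs0 (lall_app 6 nbs1 (lall_app 6 nbs2 nbs3))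

/- For each `h` and each prime `p ∣ h` with `p`-part `x` and largest prime `ℓ ∣ h`:
`x (ℓ - 1) ≤ 4096` or `x ^ 5 (ℓ - 1) ^ 3 < h ^ 2`, except `p = 2` for 244823040, 44352000,
145926144000, 42305421312000, 64561751654400, 17971200 and `p = 3` for 50232960. There `f n` and
`f (n - 1)` are orders of `p` modulo primes of `h` (`Prim.dvd_iff`), `256 < p ^ (f n)` and
`p ^ (f n (n - 1) / 2) ≤ x (s - 1)`: no solution. -/
theorem not_big_spor (hh : h ∈ sporOrd) : ¬ Big h := by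
  rintro ⟨p, f, n, k, b, s, s', P, h1, h2, hs, hs', hk, hb, e1, e2⟩
  obtain ⟨-, h0, hlt⟩ := not_big_spor_aux1 h hh
  obtain ⟨sP, s72⟩ := not_big_spor_aux3 hh h1.pr hs
  obtain ⟨tP, -⟩ := not_big_spor_aux3 hh h2.pr hs'
  have hp2 := P.pp.two_le
  have n4 := P.n4
  have f0 := P.f0
  have hfn : 0 < f * n := Nat.mul_pos f0 (by omega)
  have hle : f * n ≤ 70 := by
    have := Nat.le_of_dvd (by have := h1.pr.two_le; omega) (h1.dvd_pred (by omega) hfn)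
    omega
  have hf : f < 18 := by nlinarith
  have hn : n < 71 := by nlinarith
  have k0 : k ≠ 0 := by
    rintro rfl
    have hN : n ≤ n * (n - 1) / 2 := by
      rw [Nat.le_div_iff_mul_le (by norm_num)]
      exact Nat.mul_le_mul_left n (by omega)
    have h3 : p ^ (f * n) ≤ p ^ (f * (n * (n - 1) / 2)) :=
      Nat.pow_le_pow_right (by omega) (Nat.mul_le_mul_left f hN)
    have h4 := P.big
    rw [← pow_mul] at h4
    rw [pow_zero, one_mul] at e1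
    omega
  obtain ⟨pP, -⟩ := not_big_spor_aux3 hh P.pp ((dvd_pow_self p k0).trans hk)
  have k180 : k ≤ 180 := by
    have h3 : 2 ^ k ≤ p ^ k := Nat.pow_le_pow_left hp2 k
    have h4 := Nat.le_of_dvd h0 hk
    exact ((Nat.pow_lt_pow_iff_right (by norm_num : 1 < 2)).1 ((h3.trans h4).trans_lt hlt)).le
  have hx : p ^ k ≤ Nat.gcd h (p ^ 180) :=
    Nat.le_of_dvd (Nat.gcd_pos_of_pos_left _ h0) (Nat.dvd_gcd hk (pow_dvd_pow p k180))
  have hb' : b ≤ s - 1 := by omega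
  obtain ⟨i, i1, i0, i2⟩ := not_big_spor_aux4 h hh p pP s sP hs
    (e2.trans (Nat.mul_le_mul (Nat.pow_le_pow_left hx 5) (Nat.pow_le_pow_left hb' 3))) f hf n hn n4
    hle P.big h1.dvd (e1.trans (Nat.mul_le_mul hx hb')) s' tP hs' h2.dvd
  exact h2.min i i0 i1 i2

theorem HData.not_list (P : Pm p f n) (H : HData h a n (p ^ f)) : ¬ ListOrd h := by
  rintro (⟨m, hm, e⟩ | e | ⟨u, hu, e⟩)
  · exact not_big_alt hm e (H.big P)
  · exact not_big_spor e (H.big P)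
  · exact H.not_lie P hu e

end Pool.Agent.Lib.MP_7d41f7_al
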