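import Pool.Agent.Lib.MP_7d41f7_al.L.GA
import Pool.Agent.Lib.MP_7d41f7_al.L.AH

/-! The socle of a group with the data of a linear group. -/

set_option autoImplicit false

namespace Pool.Agent.Lib.MP_7d41f7_al

open Subgroup

variable {G : Type} [Group G] [Finite G] {n p f q m r : ℕ}

theorem Pm.q2 (P : Pm p f n) : 2 ≤ p ^ f := Nat.one_lt_pow P.f0.ne' P.pp.one_lt

theorem Pm.not_dvd (P : Pm p f n) (hm : 0 < m) : ¬ p ∣ (p ^ f) ^ m - 1 := fun e => by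
  have h1 := Nat.dvd_sub (dvd_pow (dvd_pow_self p P.f0.ne') hm.ne') e
  rw [Nat.sub_sub_self (Nat.one_le_pow _ _ (by have := P.q2; omega))] at h1
  exact P.pp.one_lt.ne' (Nat.dvd_one.1 h1)

omit [Finite G] in
theorem LData.dvd (h : LData G n q) (hm : 2 ≤ m) (hn : m ≤ n) (hr : Prim q m r) :
    r ∣ Nat.card G := by
  have h1 : r ∣ ordSL n q := (hr.dvd.trans (Finset.dvd_prod_of_mem (fun i => q ^ i - 1)
    (Finset.mem_Icc.2 ⟨hm, hn⟩))).mul_left _
  rw [← h.card] at h1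
  exact (hr.pr.dvd_mul.1 h1).resolve_right fun e => hr.min 1 one_pos hm
    (by simpa using e.trans (Nat.gcd_dvd_right _ _))

omit [Finite G] in
theorem LData.nadj (h : LData G n q) (hm : m = n ∨ m + 1 = n) (hr : Prim q m r) {u : ℕ}
    (hu : u.Prime) (hd : ¬ u ∣ q ^ m - 1) : u ≠ r ∧ ¬ Adj G u r := by
  have hne : u ≠ r := fun e => hd (e ▸ hr.dvd)
  refine ⟨hne, fun ha => hd ?_⟩
  rcases hm with rfl | rfl
  · exact (Dvd.intro _ rfl).trans (h.adj1 r u hr hu hne ha)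
  · exact (Dvd.intro _ rfl).trans (h.adj2 r u hr hu hne ha)

theorem gmain (hp : p.Prime) (hf : 0 < f) (hn : 4 ≤ n) (hq : 256 < (p ^ f) ^ n)
    (h : LData G n (p ^ f)) : ∃ H : Subgroup G, H.Normal ∧ IsSimpleGroup H ∧
      ¬ IsMulCommutative H ∧ centralizer (H : Set G) = ⊥ ∧ commutator G ≤ H ∧
      ¬ ListOrd (Nat.card H) ∧ ∀ m u, IsPrimePow u →
        Nat.card H * Nat.gcd m (u - 1) = ordSL m u → 2 ≤ m → m = n ∧ u = p ^ f := by
  have P : Pm p f n := ⟨hp, hf, hn, hq⟩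
  have q2 := P.q2
  have n1 : n - 1 + 1 = n := by omega
  obtain ⟨s, hs0⟩ := P.ex1
  obtain ⟨t, ht0⟩ := P.ex2
  have hs := hs0.pow hp.pos hf (by omega)
  have ht := ht0.pow hp.pos hf (by omega)
  have tg : ∀ m r, m = n ∨ m + 1 = n → Prim (p ^ f) m r → Tight G r := fun m r hm hr => by
    obtain ⟨u, hu, h1, h2⟩ := P.tight h.card hm hr
    exact ⟨u, hu, (h.nadj hm hr hu h1).1, (h.nadj hm hr hu h1).2, h2⟩
  have na : ∀ r r', Prim (p ^ f) n r → Prim (p ^ f) (n - 1) r' → r ≠ r' ∧ ¬ Adj G r r' :=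
    fun r r' hr hr' => h.nadj (Or.inr n1) hr' hr.pr (hr.min _ (by omega) (by omega))
  have d1 : ∀ (M : Subgroup G) [M.Normal] (r r' : ℕ), Prim (p ^ f) n r → Prim (p ^ f) (n - 1) r' →
      (r ∣ Nat.card M ↔ r' ∣ Nat.card M) := fun M _ r r' hr hr' =>
    ⟨fun e => dvd_of_dvd M hr.pr (h.cyc _ _ (Or.inl rfl) hr) e hr'.pr
      (h.dvd (by omega) (by omega) hr') (tg _ _ (Or.inr n1) hr') fun a => (na r r' hr hr').2 a.symm,
    fun e => dvd_of_dvd M hr'.pr (h.cyc _ _ (Or.inr n1) hr') e hr.pr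
      (h.dvd (by omega) le_rfl hr) (tg _ _ (Or.inl rfl) hr) (na r r' hr hr').2⟩
  obtain ⟨K, _, k1, kmax⟩ := exists_core (G := G) hs.pr
  have k2 : ¬ t ∣ Nat.card K := fun e => k1 ((d1 K s t hs ht).2 e)
  have gd : Nat.card G ∣ ordSL n (p ^ f) := Dvd.intro _ h.card
  have kp : ¬ p ∣ Nat.card K := fun e => by
    have a := h.nadj (Or.inl rfl) hs hp (P.not_dvd (by omega))
    have b := h.nadj (Or.inr n1) ht hp (P.not_dvd (by omega))
    exact (hp.factorization_pos_of_dvd Nat.card_pos.ne' e).ne' (P.free hs0 ht0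
      (free_mod K hs.pr (h.dvd (by omega) le_rfl hs) k1 hp a.1 a.2)
      (free_mod K ht.pr (h.dvd (by omega) (by omega) ht) k2 hp b.1 b.2)
      ((Nat.ordProj_dvd _ _).trans (K.card_subgroup_dvd_card.trans gd)))
  have kb : K = ⊥ := by
    by_contra hK
    obtain ⟨u, hu, huK⟩ := Nat.exists_prime_and_dvd (mt K.card_eq_one.1 hK)
    obtain ⟨k, -, e1, e2⟩ := section_GL K ht.pr hs.pr k2 k1 kmax
      (fun M _ e => (d1 M s t hs ht).1 e) hu huK fun a => cop_tori q2 (by omega) hu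
        (h.adj1 s u hs hu (fun e => k1 (e ▸ huK)) a.2) (h.adj2 t u ht hu (fun e => k2 (e ▸ huK)) a.1)
    have hne : u ≠ p := fun e => kp (e ▸ huK)
    have e3 : p ^ (f * (n * (n - 1) / 2)) ∣ K.index := by
      have a : p ^ (f * (n * (n - 1) / 2)) ∣ ordSL n (p ^ f) := by
        rw [pow_mul]
        exact Dvd.intro _ rfl
      rw [← h.card, ← K.card_mul_index] at a
      exact (Nat.Coprime.pow_left _ (hp.coprime_iff_not_dvd.2 kp)).dvd_of_dvd_mul_left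
        ((Nat.Coprime.pow_left _ (hp.coprime_iff_not_dvd.2 fun e => P.not_dvd one_pos
          (by simpa using e.trans (Nat.gcd_dvd_right _ _)))).dvd_of_dvd_mul_right a)
    have e4 := pp_GL hu hp hne.symm (e3.trans e2)
    rw [pow_mul] at e4
    exact absurd (P.ineq_sec hu hne (h.card ▸ Nat.mul_dvd_mul_right
      (e1.trans K.card_subgroup_dvd_card) _)) (not_lt.2 e4)
  have al : ∀ M : Subgroup G, M.Normal → M ≠ ⊥ → t ∣ Nat.card M ∧ s ∣ Nat.card M := fun M hM h0 => by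
    have a : s ∣ Nat.card M := by
      by_contra e
      exact h0 (le_bot_iff.1 (kb ▸ kmax M hM e))
    exact ⟨(d1 M s t hs ht).1 a, a⟩
  have : Nontrivial G := Finite.one_lt_card_iff_nontrivial.1
    (hs.pr.one_lt.trans_le (Nat.le_of_dvd Nat.card_pos (h.dvd (by omega) le_rfl hs)))
  obtain ⟨H, hH, h0, h1, h2, h3⟩ := exists_socle ht.pr hs.pr (na s t hs ht).1.symm
    (h.cyc _ _ (Or.inl rfl) hs) (fun a => (na s t hs ht).2 a.symm) al
  have a1 : ∀ r, Prim (p ^ f) n r → r ∣ Nat.card H := fun r hr => (d1 H r t hr ht).2 (al H hH h0).1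
  have a2 : ∀ r, Prim (p ^ f) (n - 1) r → r ∣ Nat.card H := fun r hr =>
    (d1 H s r hs hr).1 (al H hH h0).2
  have t1 : ∀ r, Prim (p ^ f) n r → ∃ L : Subgroup G, H ≤ L ∧ commutator G ≤ L ∧ L.index ∣ r - 1 ∧
      ∀ u, u.Prime → u ∣ H.relIndex L →
        u * (Nat.gcd n (p ^ f - 1) * (p ^ f - 1)) ∣ (p ^ f) ^ n - 1 := fun r hr => by
    obtain ⟨L, -, l1, l2, l3, l4⟩ := exists_top H hr.pr (h.cyc _ _ (Or.inl rfl) hr) (a1 r hr)
    refine ⟨L, l1, l2, l3, fun u hu e => ?_⟩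
    by_cases c : u = r
    · exact c ▸ hr.tor1 q2 (by omega)
    · exact h.adj1 r u hr hu c ((l4 u hu e).resolve_left c)
  have t2 : ∀ r, Prim (p ^ f) (n - 1) r → ∃ L : Subgroup G, H ≤ L ∧ commutator G ≤ L ∧
      L.index ∣ r - 1 ∧ ∀ u, u.Prime → u ∣ H.relIndex L →
        u * Nat.gcd n (p ^ f - 1) ∣ (p ^ f) ^ (n - 1) - 1 := fun r hr => by
    obtain ⟨L, -, l1, l2, l3, l4⟩ := exists_top H hr.pr (h.cyc _ _ (Or.inr n1) hr) (a2 r hr)
    refine ⟨L, l1, l2, l3, fun u hu e => ?_⟩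
    by_cases c : u = r
    · exact c ▸ hr.tor2 q2 (by omega)
    · exact h.adj2 r u hr hu c ((l4 u hu e).resolve_left c)
  have D : HData (Nat.card H) H.index n (p ^ f) := by
    refine ⟨by rw [H.card_mul_index, h.card], fun r hr => hr.elim (a1 r) (a2 r), fun r hr => ?_,
      fun r hr => ?_⟩
    · obtain ⟨L, l1, -, l3, l4⟩ := t1 r hr
      exact ⟨_, _, (relIndex_mul_index l1).symm.trans (mul_comm _ _), l3, l4⟩
    · obtain ⟨L, l1, -, l3, l4⟩ := t2 r hr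
      exact ⟨_, _, (relIndex_mul_index l1).symm.trans (mul_comm _ _), l3, l4⟩
  refine ⟨H, hH, h1, h2, h3, ?_, D.not_list P, fun m u hu e hm => D.lin P hu e hm⟩
  obtain ⟨L, l1, l2, -, l4⟩ := t1 s hs
  obtain ⟨L', m1, m2, -, m4⟩ := t2 t ht
  refine (le_inf l2 m2).trans (relIndex_eq_one.1 ?_)
  by_contra e
  obtain ⟨u, hu, e⟩ := Nat.exists_prime_and_dvd e
  exact cop_tori q2 (by omega) hu
    (l4 u hu (e.trans (Dvd.intro _ (relIndex_mul_relIndex _ _ _ (le_inf l1 m1) inf_le_left))))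
    (m4 u hu (e.trans (Dvd.intro _ (relIndex_mul_relIndex _ _ _ (le_inf l1 m1) inf_le_right))))

end Pool.Agent.Lib.MP_7d41f7_al
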