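import Pool.Agent.Lib.MP_7d41f7_al.L.SVan
import Pool.Agent.Lib.MP_7d41f7_al.L.GMain

set_option autoImplicit false

namespace Pool.Agent.Lib.MP_7d41f7_al

theorem lmain {n : ℕ} {F : Type} [Field F] [Finite F] (hn : 4 ≤ n) (hq : 256 < Nat.card F ^ n)
    {G : Type} [Group G] [Finite G] (hc : Nat.card G = Nat.card (PL n F))
    (hV : Vo G = Vo (PL n F)) : Nonempty (G ≃* PL n F) ∨
      ∃ H : Subgroup G, H.Normal ∧ IsSimpleGroup H ∧ ¬ IsMulCommutative H ∧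
        Subgroup.centralizer (H : Set G) = ⊥ ∧ commutator G ≤ H ∧ OffList H := by
  have pw : ∀ (K : Type) [Field K] [Finite K], ∃ p f : ℕ, p.Prime ∧ 0 < f ∧ Nat.card K = p ^ f := by
    intro K _ _
    let _ := Fintype.ofFinite K
    obtain ⟨f, hp, hf⟩ := FiniteField.card K (ringChar K)
    exact ⟨_, f, hp, f.pos, Nat.card_eq_fintype_card.trans hf⟩
  obtain ⟨p, f, hp, hf, e⟩ := pw F
  have hL := ldata hn hc hV
  obtain ⟨H, h1, h2, h3, h4, h5, h6, h7⟩ := gmain hp hf hn (e ▸ hq) (e ▸ hL)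
  by_cases h : ∀ (m : ℕ) (K : Type) [Field K] [Finite K], IsEmpty (H ≃* PL m K)
  · exact Or.inr ⟨H, h1, h2, h3, h4, h5, h, h6⟩
  push Not at h
  obtain ⟨m, K, _, _, ⟨φ⟩⟩ := h
  have hm : 2 ≤ m := by
    by_contra hm
    have := pl_small (F := K) (not_le.1 hm)
    have := φ.injective.subsingleton
    exact false_of_nontrivial_of_subsingleton H
  obtain ⟨p', f', hp', hf', e'⟩ := pw K
  obtain ⟨rfl, h8⟩ := h7 m (Nat.card K) (e' ▸ (hp'.prime.isPrimePow.pow hf'.ne'))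
    (by rw [Nat.card_congr φ.toEquiv]; exact card_PL (by omega)) hm
  obtain ⟨ψ⟩ := psl_iso (n := m) (h8.trans e.symm)
  have h9 : H = ⊤ := Subgroup.eq_top_of_card_eq _
    (by rw [hc, Nat.card_congr (φ.trans ψ).toEquiv])
  exact Or.inl ⟨(Subgroup.topEquiv.symm.trans (MulEquiv.subgroupCongr h9.symm)).trans (φ.trans ψ)⟩

end Pool.Agent.Lib.MP_7d41f7_al
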