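import Mathlib

/-! The orders in the list of the classification of finite simple groups. -/

set_option autoImplicit false

namespace Pool.Agent.Lib.MP_7d41f7_al

open Finset

/-- `h` is given by the order formula of a family of groups of Lie type other than the linear
groups, over the field with `u` elements. -/
def LieOrd (u h : ℤ) : Prop :=
  (∃ m : ℕ, 3 ≤ m ∧
    h * Int.gcd m (u + 1) = u ^ (m * (m - 1) / 2) * ∏ i ∈ Icc 2 m, (u ^ i - (-1) ^ i)) ∨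
  (∃ m : ℕ, 2 ≤ m ∧ h * Int.gcd 2 (u - 1) = u ^ (m * m) * ∏ i ∈ Icc 1 m, (u ^ (2 * i) - 1)) ∨
  (∃ m : ℕ, 4 ≤ m ∧ h * Int.gcd 4 (u ^ m - 1) =
    u ^ (m * (m - 1)) * (u ^ m - 1) * ∏ i ∈ Icc 1 (m - 1), (u ^ (2 * i) - 1)) ∨
  (∃ m : ℕ, 4 ≤ m ∧ h * Int.gcd 4 (u ^ m + 1) =
    u ^ (m * (m - 1)) * (u ^ m + 1) * ∏ i ∈ Icc 1 (m - 1), (u ^ (2 * i) - 1)) ∨
  h = u ^ 6 * (u ^ 6 - 1) * (u ^ 2 - 1) ∨
  h = u ^ 24 * (u ^ 12 - 1) * (u ^ 8 - 1) * (u ^ 6 - 1) * (u ^ 2 - 1) ∨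
  h * Int.gcd 3 (u - 1) = u ^ 36 * (u ^ 12 - 1) * (u ^ 9 - 1) * (u ^ 8 - 1) * (u ^ 6 - 1) *
    (u ^ 5 - 1) * (u ^ 2 - 1) ∨
  h * Int.gcd 3 (u + 1) = u ^ 36 * (u ^ 12 - 1) * (u ^ 9 + 1) * (u ^ 8 - 1) * (u ^ 6 - 1) *
    (u ^ 5 + 1) * (u ^ 2 - 1) ∨
  h * Int.gcd 2 (u - 1) = u ^ 63 * (u ^ 18 - 1) * (u ^ 14 - 1) * (u ^ 12 - 1) * (u ^ 10 - 1) *
    (u ^ 8 - 1) * (u ^ 6 - 1) * (u ^ 2 - 1) ∨
  h = u ^ 120 * (u ^ 30 - 1) * (u ^ 24 - 1) * (u ^ 20 - 1) * (u ^ 18 - 1) * (u ^ 14 - 1) *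
    (u ^ 12 - 1) * (u ^ 8 - 1) * (u ^ 2 - 1) ∨
  h = u ^ 12 * (u ^ 8 + u ^ 4 + 1) * (u ^ 6 - 1) * (u ^ 2 - 1) ∨
  h = u ^ 2 * (u ^ 2 + 1) * (u - 1) ∨
  h = u ^ 3 * (u ^ 3 + 1) * (u - 1) ∨
  h = u ^ 12 * (u ^ 6 + 1) * (u ^ 4 - 1) * (u ^ 3 + 1) * (u - 1)

/-- The orders of the 26 sporadic groups and of the Tits group. -/
def sporOrd : List ℕ :=
  [7920, 95040, 443520, 10200960, 244823040, 175560, 604800, 50232960, 86775571046077562880,
    44352000, 898128000, 448345497600, 4030387200, 145926144000, 460815505920, 495766656000,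
    42305421312000, 4157776806543360000, 64561751654400, 4089470473293004800,
    1255205709190661721292800, 273030912000000, 51765179004000000, 90745943887872000,
    4154781481226426191177580544000000,
    808017424794512875886459904961710757005754368000000000, 17971200]

/-- `h` is the order of an alternating group, of a sporadic group, of the Tits group, or is given
by the order formula of a family of groups of Lie type other than the linear groups. -/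
def ListOrd (h : ℕ) : Prop :=
  (∃ m : ℕ, 5 ≤ m ∧ 2 * h = m.factorial) ∨ h ∈ sporOrd ∨ ∃ u : ℕ, IsPrimePow u ∧ LieOrd u h

/-- The group `H` is not isomorphic to a projective special linear group over a finite field, and
its order is not on the list. -/
def OffList (H : Type) [Group H] : Prop :=
  (∀ (m : ℕ) (K : Type) [Field K] [Finite K],
    IsEmpty (H ≃* Matrix.ProjectiveSpecialLinearGroup (Fin m) K)) ∧ ¬ ListOrd (Nat.card H)

end Pool.Agent.Lib.MP_7d41f7_al
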