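import Pool.Agent.Lib.MP_7d41f7_al.L.Defs

set_option autoImplicit false

namespace Pool.Agent.Lib.MP_7d41f7_al

open Finset Module

variable {n : ℕ} {F : Type} [Field F] [Finite F]

theorem card_center (hn : 0 < n) :
    Nat.card (Subgroup.center (SLn n F)) = Nat.gcd n (Nat.card F - 1) := by
  rw [Nat.card_congr (Matrix.SpecialLinearGroup.center_equiv_rootsOfUnity' ⟨0, hn⟩).toEquiv,
    rootsOfUnity_eq_ker, IsCyclic.card_powMonoidHom_ker, Nat.card_units, Fintype.card_fin,
    Nat.gcd_comm]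

theorem scarda_prod (q : ℕ) (hn : 0 < n) :
    ∏ i : Fin n, (q ^ n - q ^ (i : ℕ)) = ordSL n q * (q - 1) := by
  have e : ∀ m, ∏ j ∈ range (m + 1), (q ^ (j + 1) - 1) =
      (∏ i ∈ Icc 2 (m + 1), (q ^ i - 1)) * (q - 1) := fun m => by
    induction m with
    | zero => simp
    | succ m ih => rw [prod_range_succ, ih, prod_Icc_succ_top (b := m + 1) (by omega),
        mul_right_comm]
  obtain ⟨m, rfl⟩ := Nat.exists_eq_succ_of_ne_zero hn.ne'
  rw [ordSL, mul_assoc, ← e, ← sum_range_id, ← prod_pow_eq_pow_sum, ← prod_range_reflect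
    (fun j => q ^ (j + 1) - 1), ← prod_mul_distrib, prod_range]
  refine prod_congr rfl fun i _ => ?_
  rw [Nat.mul_sub_one, ← pow_add]
  congr 2
  omega

theorem card_SL (hn : 0 < n) : Nat.card (SLn n F) = ordSL n (Nat.card F) := by
  have := Fintype.ofFinite F
  have : Nonempty (Fin n) := ⟨⟨0, hn⟩⟩
  have h1 : Nat.card (SLn n F) =
      Nat.card (Matrix.GeneralLinearGroup.det : GL (Fin n) F →* Fˣ).ker :=
    Nat.card_congr (Equiv.ofBijective (fun A => ⟨Matrix.SpecialLinearGroup.toGL A, by simp⟩)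
      ⟨fun A B h => Matrix.SpecialLinearGroup.toGL_injective (congrArg Subtype.val h),
        fun A => ⟨⟨A.1, congrArg Units.val A.2⟩, Subtype.ext (Units.ext rfl)⟩⟩)
  have h2 := Subgroup.card_mul_index (Matrix.GeneralLinearGroup.det : GL (Fin n) F →* Fˣ).ker
  rw [Subgroup.index_ker, MonoidHom.range_eq_top.2 Matrix.GeneralLinearGroup.det_surjective,
    Subgroup.card_top, Nat.card_units, Matrix.card_GL_field, ← Nat.card_eq_fintype_card,
    scarda_prod _ hn, ← h1] at h2
  exact Nat.eq_of_mul_eq_mul_right (Nat.sub_pos_of_lt Finite.one_lt_card) h2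

theorem card_PL (hn : 0 < n) :
    Nat.card (PL n F) * Nat.gcd n (Nat.card F - 1) = ordSL n (Nat.card F) := by
  rw [← card_center hn, ← card_SL hn, Subgroup.card_eq_card_quotient_mul_card_subgroup
    (Subgroup.center (SLn n F))]

theorem psl_iso {K : Type} [Field K] [Finite K] (h : Nat.card F = Nat.card K) :
    Nonempty (PL n F ≃* PL n K) := by
  cases nonempty_fintype F
  cases nonempty_fintype K
  let e := FiniteField.ringEquivOfCardEq (K := F) (K' := K) (by simpa using h)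
  let E : SLn n F ≃* SLn n K := MonoidHom.toMulEquiv (Matrix.SpecialLinearGroup.map e.toRingHom)
    (Matrix.SpecialLinearGroup.map e.symm.toRingHom) (by ext; simp) (by ext; simp)
  exact ⟨QuotientGroup.congr _ _ E (Subgroup.ext fun A => (Subgroup.mem_map_equiv (f := E)).trans
    (MulEquivClass.apply_mem_center_iff E.symm))⟩

theorem pl_small (hn : n < 2) : Subsingleton (PL n F) := by
  have : Subsingleton (Fin n) := Fin.subsingleton_iff_le_one.2 (by omega)
  exact QuotientGroup.mk_surjective.subsingleton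

namespace Prim

variable {q m r : ℕ} (h : Prim q m r)
include h

theorem not_dvd_base (hq : 1 < q) (hm : 0 < m) : ¬ r ∣ q := fun h1 =>
  h.pr.not_dvd_one ((Nat.dvd_add_right h.dvd).1
    (by rw [Nat.sub_add_cancel (Nat.one_le_pow _ _ (by omega))]; exact dvd_pow h1 hm.ne'))

theorem not_dvd_pred (hm : 2 ≤ m) : ¬ r ∣ q - 1 := by
  simpa using h.min 1 one_pos hm

/-- the order of `q` modulo `r` is `m` -/
theorem ord_dvd (hq : 1 < q) (hm : 0 < m) (i : ℕ) : r ∣ q ^ i - 1 ↔ m ∣ i := by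
  refine ⟨fun h1 => ?_, fun h1 => h.dvd.trans (Nat.pow_sub_one_dvd_pow_sub_one q h1)⟩
  have h2 := Nat.dvd_gcd h1 h.dvd
  rw [Nat.pow_sub_one_gcd_pow_sub_one] at h2
  by_contra h3
  exact h.min _ (Nat.gcd_pos_of_pos_right i hm) ((Nat.gcd_le_right i hm).lt_of_ne
    fun e => h3 (e ▸ Nat.gcd_dvd_left i m)) h2

/-- only the factor `q ^ m - 1` is divisible by `r` -/
theorem pow_dvd (hq : 1 < q) (h2 : 2 ≤ m) (h1 : m ≤ n) (h3 : n < 2 * m) (c : ℕ) :
    r ^ c ∣ ordSL n q ↔ r ^ c ∣ q ^ m - 1 := by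
  rw [ordSL, ← mul_prod_erase _ _ (mem_Icc.2 ⟨h2, h1⟩), mul_left_comm]
  refine (Nat.Coprime.pow_left c (Nat.Coprime.mul_right (Nat.Coprime.pow_right _
    (h.pr.coprime_iff_not_dvd.2 (h.not_dvd_base hq (by omega)))) (Nat.Coprime.prod_right
      fun i hi => h.pr.coprime_iff_not_dvd.2 fun h4 => ?_))).dvd_mul_right
  obtain ⟨k, rfl⟩ := (h.ord_dvd hq (by omega) i).1 h4
  simp only [mem_erase, mem_Icc] at hi
  rcases k with _ | _ | k
  · omega
  · omega
  · nlinarith [hi.2.2, Nat.zero_le (m * k)]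

end Prim

end Pool.Agent.Lib.MP_7d41f7_al
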