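import Pool.Agent.Lib.MP_7d41f7_al.L.SCard

set_option autoImplicit false

namespace Pool.Agent.Lib.MP_7d41f7_al

open Finset Module

variable {F V : Type} [Field F] [Finite F] [AddCommGroup V] [Module F V] [Finite V] {m r : ℕ}
  {x : End F V}

/-- `x` permutes the nonzero vectors of `W` without fixed point. -/
theorem lin_dvd (h : Prim (Nat.card F) m r) (hm : 0 < m) (hx : x ^ r = 1) {W : Submodule F V}
    (hW : ∀ w ∈ W, x w ∈ W) (hf : ∀ w ∈ W, x w = w → w = 0) : m ∣ finrank F W := by
  classical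
  have := Fact.mk h.pr
  have := Fintype.ofFinite W
  let f : Function.End W := fun w => ⟨x w, hW w w.2⟩
  have h1 : ∀ (n : ℕ) (w : W), ((f ^ n) w : V) = (x ^ n) w := fun n w => by
    induction n with
    | zero => rfl
    | succ n ih => rw [pow_succ', pow_succ']; exact congrArg x ih
  have h2 := Equiv.Perm.card_fixedPoints_modEq (f := f) (p := r) (n := 1)
    (funext fun w => Subtype.ext (by rw [h1, pow_one, hx]; rfl))
  rw [(Fintype.card_eq_one_iff (α := f.fixedPoints)).2 ⟨⟨0, Subtype.ext x.map_zero⟩, fun w =>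
      Subtype.ext (Subtype.ext (hf _ w.1.2 (congrArg Subtype.val w.2)))⟩,
    Fintype.card_eq_nat_card, Module.natCard_eq_pow_finrank (K := F)] at h2
  exact (h.ord_dvd Finite.one_lt_card hm _).1
    ((Nat.modEq_iff_dvd' (Nat.one_le_pow _ _ Nat.card_pos)).1 h2.symm)

/-- if `w = x v - v` is fixed then `x ^ k v = v + k w`, so `r w = 0`, and `r ≠ 0` in `F` -/
theorem lin_free (h : Prim (Nat.card F) m r) (hm : 0 < m) (hx : x ^ r = 1) :
    ∀ w ∈ LinearMap.range (x - 1), x w = w → w = 0 := by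
  rintro _ ⟨v, rfl⟩ hw
  have h1 : ∀ k : ℕ, (x ^ k) v = v + (k : F) • (x - 1) v := fun k => by
    induction k with
    | zero => simp
    | succ k ih =>
      rw [pow_succ', Module.End.mul_apply, ih, map_add, map_smul, hw, Nat.cast_succ, add_smul,
        one_smul, add_comm _ ((x - 1) v), ← add_assoc]
      simp
  have h2 := h1 r
  rw [hx, Module.End.one_apply, left_eq_add, smul_eq_zero] at h2
  refine h2.resolve_left fun e => ?_
  have := Fintype.ofFinite F
  have h3 := (h.pr.coprime_iff_not_dvd.2 (h.not_dvd_base Finite.one_lt_card hm)).cast (R := F)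
  rw [e, Nat.card_eq_fintype_card, FiniteField.cast_card_eq_zero] at h3
  exact not_isCoprime_zero_zero h3

theorem lin_compl (h : Prim (Nat.card F) m r) (hm : 0 < m) (hx : x ^ r = 1) :
    IsCompl (LinearMap.ker (x - 1)) (LinearMap.range (x - 1)) := by
  refine (Submodule.isCompl_iff_disjoint _ _ ?_).2 (Submodule.disjoint_def.2 fun w h1 h2 =>
    lin_free h hm hx w h2 (sub_eq_zero.1 h1))
  rw [add_comm, LinearMap.finrank_range_add_finrank_ker]

omit [Finite F] [Finite V] in
theorem slina_inv (x : End F V) :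
    ∀ w ∈ LinearMap.range (x - 1), x w ∈ LinearMap.range (x - 1) := by
  rintro _ ⟨v, rfl⟩
  exact ⟨x v, by simp⟩

theorem slina_le {d : ℕ} (h1 : m ∣ d) (h2 : d < 2 * m) : d ≤ m := by
  obtain ⟨k, rfl⟩ := h1
  rw [mul_comm 2] at h2
  simpa using Nat.mul_le_mul_left m (Nat.le_of_lt_succ (lt_of_mul_lt_mul_left' h2))

theorem lin_rank (h : Prim (Nat.card F) m r) (hm : 0 < m) (hx : x ^ r = 1) (h1 : x ≠ 1)
    (hV : finrank F V < 2 * m) : finrank F (LinearMap.range (x - 1)) = m ∧
      finrank F (LinearMap.ker (x - 1)) + m = finrank F V := by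
  have h2 := lin_dvd h hm hx (slina_inv x) (lin_free h hm hx)
  have h3 : finrank F (LinearMap.range (x - 1)) = m :=
    (slina_le h2 ((Submodule.finrank_le _).trans_lt hV)).antisymm (Nat.le_of_dvd
      (Nat.pos_of_ne_zero fun e => h1 (sub_eq_zero.1
        (LinearMap.range_eq_bot.1 (Submodule.finrank_eq_zero.1 e)))) h2)
  exact ⟨h3, by rw [← h3, add_comm, LinearMap.finrank_range_add_finrank_ker]⟩

theorem lin_irr (h : Prim (Nat.card F) m r) (hm : 0 < m) (hx : x ^ r = 1)
    (hV : finrank F V < 2 * m) {W : Submodule F V} (hW : ∀ w ∈ W, x w ∈ W) :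
    W ≤ LinearMap.ker (x - 1) ∨ LinearMap.range (x - 1) ≤ W := by
  have h2 := lin_dvd h hm hx (W := W ⊓ LinearMap.range (x - 1))
    (fun w hw => ⟨hW w hw.1, slina_inv x w hw.2⟩) fun w hw => lin_free h hm hx w hw.2
  obtain e | e := (finrank F ↥(W ⊓ LinearMap.range (x - 1))).eq_zero_or_pos
  · exact .inl fun w hw => (Submodule.finrank_eq_zero.1 e).le
      ⟨W.sub_mem (hW w hw) hw, w, rfl⟩
  · exact .inr (inf_eq_right.1 (Submodule.eq_of_le_of_finrank_le inf_le_right
      ((slina_le (lin_dvd h hm hx (slina_inv x) (lin_free h hm hx))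
        ((Submodule.finrank_le _).trans_lt hV)).trans (Nat.le_of_dvd e h2))))

theorem lin_fix (h : Prim (Nat.card F) m r) (hm : 0 < m) (hx : x ^ r = 1)
    (hV : finrank F V < 2 * m) {y : End F V} (hy : y * x = x * y) {w : V}
    (hw : w ∈ LinearMap.range (x - 1)) (h0 : w ≠ 0) (hf : y w = w) :
    ∀ v ∈ LinearMap.range (x - 1), y v = v := by
  obtain e | e := lin_irr h hm hx hV (W := LinearMap.ker (y - 1) ⊓ LinearMap.range (x - 1))
    fun v hv => ⟨by
      have h1 : y v - v = 0 := LinearMap.mem_ker.1 hv.1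
      exact LinearMap.mem_ker.2 (show y (x v) - x v = 0 from
        sub_eq_zero.2 ((LinearMap.congr_fun hy v).trans (congrArg x (sub_eq_zero.1 h1)))),
      slina_inv x v hv.2⟩
  · exact absurd (lin_free h hm hx w hw (sub_eq_zero.1 (e ⟨sub_eq_zero.2 hf, hw⟩))) h0
  · exact fun v hv => sub_eq_zero.1 (e hv).1

/-- The centraliser of `x` is a finite field, and its norm is onto. -/
theorem lin_det (h : Prim (Nat.card F) m r) (hm : 0 < m) (hx : x ^ r = 1) (h1 : x ≠ 1)
    (hV : finrank F V = m) (c : F) : ∃ y : End F V, y * x = x * y ∧ LinearMap.det y = c := by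
  have h2 : finrank F V < 2 * m := by omega
  obtain ⟨h3, h4⟩ := lin_rank h hm hx h1 h2
  have irr : ∀ W : Submodule F V, (∀ w ∈ W, x w ∈ W) → W = ⊥ ∨ W = ⊤ := fun W hW =>
    (lin_irr h hm hx h2 hW).imp
      (fun e => le_bot_iff.1 (e.trans (Submodule.finrank_eq_zero.1 (by omega)).le))
      fun e => top_le_iff.1 ((Submodule.eq_top_of_finrank_eq (h3.trans hV.symm)).ge.trans e)
  let K := Subalgebra.centralizer F ({x} : Set (End F V))
  have cm : ∀ a : K, a.1 * x = x * a.1 := fun a => (a.2 x rfl).symm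
  have inj : ∀ (a : K) (v : V), a.1 v = 0 → a = 0 ∨ v = 0 := fun a v hv =>
    (irr (LinearMap.ker a.1) fun w hw => (LinearMap.congr_fun (cm a) w).trans
      ((congrArg x hw).trans x.map_zero)).symm.imp
      (fun e => Subtype.ext (LinearMap.ker_eq_top.1 e)) fun e => e.le hv
  have : Nontrivial V := finrank_pos_iff.1 (hV ▸ hm)
  obtain ⟨v, hv⟩ := exists_ne (0 : V)
  have : NoZeroDivisors K := ⟨fun {a b} e =>
    (inj a _ (LinearMap.congr_fun (congrArg Subtype.val e) v)).imp_right fun e' =>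
      (inj b v e').resolve_right hv⟩
  have := NoZeroDivisors.to_isDomain K
  have : Finite (End F V) := .of_injective _ DFunLike.coe_injective
  obtain ⟨a, rfl⟩ := @FiniteField.norm_surjective F K _ (Finite.isDomain_to_isField K).toField
    (inferInstanceAs (Algebra F K)) _ c
  let φ : K →ₗ[F] V := LinearMap.applyₗ v ∘ₗ K.val.toLinearMap
  let e := LinearEquiv.ofBijective φ ⟨(injective_iff_map_eq_zero _).2 fun b hb =>
    (inj b v hb).resolve_right hv, LinearMap.range_eq_top.1 ((irr _ (by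
      rintro _ ⟨b, rfl⟩
      exact ⟨⟨x, by rintro _ rfl; rfl⟩ * b, rfl⟩)).resolve_left fun e => hv (e.le ⟨1, rfl⟩))⟩
  refine ⟨a.1, cm a, .trans (congrArg _ (LinearMap.ext fun w => ?_))
    (LinearMap.det_conj (Algebra.lmul F K a) e)⟩
  exact congrArg a.1 (e.apply_symm_apply w).symm

end Pool.Agent.Lib.MP_7d41f7_al
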